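import Pool.Agent.H27.BR.DXA

/-!
# THEOREM UD, chapter BR (gap discs): Cauchy's theorem in a domain with connected complement (Dixon's proof)

`V` open and bounded, `Vᶜ` preconnected, `L` a cycle in `V`, `T` the union of its segments (compact, `T ⊆ V`).
`dsl_dif`: `w0 ∈ V`. Let `closedBall w0 (2 ε) ⊆ V`. One segment `(a, b)` in `V`, `γ t = a + t (b - a)`. The function `(w, t) ↦ dslope f w (γ t)` on `ball w0 ε × [0, 1]`: (i) for fixed `t` it is holomorphic in `w ∈ V`: `dslope f w z = dslope f z w` (symmetric), and `dslope f z` is differentiable on `V` (Mathlib: `Complex.differentiableOn_dslope`); (ii) bounded by a constant `B` on `ball w0 (3 ε / 2) × [0, 1]` and continuous in `t` for fixed `w`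
(`dslope f w` is differentiable, so continuous on `V`; bound: for `‖γ t - w0‖ ≥ 7/4 ε` the quotient, for `‖γ t - w0‖ < 7/4 ε` the mean value inequality `‖f z - f w‖ ≤ sup ‖deriv f‖ ‖z - w‖` on the convex ball `closedBall w0 (7/4 ε)`, and `‖deriv f w‖` for `z = w`). So the derivative in `w` on `ball w0 ε` is bounded by `2 B / ε` (Cauchy), and measurable in `t` (limit of the continuous functions `n (F (w + 1 / n) t - F w t)`), and
`intervalIntegral.hasDerivAt_integral_of_dominated_loc_of_deriv_le` applies. (Other way: Cauchy's formula in `w` on the circle of radius `ε` and Fubini; or Morera.)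
`dix` PROOF. Let `w0 ∈ V` (if `V` is empty then `L` is empty), `f z = (z - w0) * g z`, holomorphic on `V`. `n w = ig (fun z => 1 / (z - w)) L`. Define `h w = ig (dslope f w) L` for `w ∈ V` and `h w = ig (fun z => f z / (z - w)) L` for `w ∉ V`. `h` is differentiable at the points of `V` (`dsl_dif`).
Let `w1 ∉ V`: `w1` is not on the segments, `n w1 = 0` (`wn0`), `n = 0` on a neighbourhood `N` of `w1` (`wn_lc`), which does not meet the segments. For `w ∈ N ∩ V`: `dslope f w z = (f z - f w) / (z - w)` on the segments (`z ≠ w`), so `h w = ig (fun z => f z / (z - w)) L - f w * n w = ig (fun z => f z / (z - w)) L` (`ig_add`, `ig_smul`, `ig_congr`). So `h w = ig (fun z => f z / (z - w)) L` on `N`: `ig_dif`.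
So `h` is entire. `h w → 0` for `w → ∞` (`w ∉ V` for large `w`, `f` is bounded on the segments, `ig_le`). Liouville (`Differentiable.apply_eq_of_tendsto_cocompact`): `h = 0`. `h w0 = ig (dslope f w0) L = ig g L`, since `dslope f w0 z = g z` for all `z ∈ V` (`z ≠ w0`: `f w0 = 0`; `deriv f w0 = g w0`). So `ig g L = 0`.
`sq_of`: `h` without zeros: `g = deriv h / h` is holomorphic on `V`; `prim` with `dix`: `F' = h' / h`; `h * exp (- F)` has the derivative `0` on the open preconnected set `V`: constant `c ≠ 0` (`IsOpen.is_const_of_deriv_eq_zero`); `k = s * exp (F / 2)` with `s ^ 2 = c`.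
-/

set_option autoImplicit false

open Filter Topology Metric Set

namespace Pool.Agent.H27.BR

private theorem dsl_sym (f : ℂ → ℂ) (w z : ℂ) : dslope f w z = dslope f z w := by
  by_cases h : w = z
  · rw [h]
  · rw [dslope_of_ne f (Ne.symm h), dslope_of_ne f h, slope_comm]

/-- the segment is in the set -/
private theorem seg_mem {a b : ℂ} {t : ℝ} (h0 : 0 ≤ t) (h1 : t ≤ 1) : a + t * (b - a) ∈ segment ℝ a b := by
  rw [segment_eq_image']
  refine ⟨t, ⟨h0, h1⟩, ?_⟩
  simp [Complex.real_smul]

private theorem seg_cont (a b : ℂ) : Continuous fun t : ℝ => a + (t : ℂ) * (b - a) := by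
  fun_prop

private theorem bd_dsl {V : Set ℂ} {f : ℂ → ℂ} (ho : IsOpen V) (hf : DifferentiableOn ℂ f V) {w0 : ℂ} {ε M : ℝ}
    (hε : 0 < ε) (hB : closedBall w0 (2 * ε) ⊆ V) {z : ℂ} (hz : z ∈ V) (hM : ‖f z‖ ≤ M)
    (hMB : ∀ w ∈ closedBall w0 (2 * ε), ‖f w‖ ≤ M) : ∀ w ∈ closedBall w0 (3 / 2 * ε), ‖dslope f z w‖ ≤ 8 * M / ε := by
  have hd : DifferentiableOn ℂ (dslope f z) V := (Complex.differentiableOn_dslope (ho.mem_nhds hz)).2 hf
  have key : ∀ r : ℝ, 3 / 2 * ε ≤ r → r ≤ 2 * ε → ε / 4 ≤ |‖z - w0‖ - r| →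
      ∀ w ∈ closedBall w0 (3 / 2 * ε), ‖dslope f z w‖ ≤ 8 * M / ε := by
    intro r hr1 hr2 hr w hw
    have hr0 : 0 < r := by linarith
    refine Complex.norm_le_of_forall_mem_frontier_norm_le (U := ball w0 r) isBounded_ball ?_ ?_ ?_
    · refine DifferentiableOn.diffContOnCl ?_
      rw [closure_ball w0 hr0.ne']
      exact hd.mono ((closedBall_subset_closedBall hr2).trans hB)
    · intro w' hw'
      rw [frontier_ball w0 hr0.ne', mem_sphere, dist_eq_norm] at hw'
      have hne : w' ≠ z := by
        rintro rfl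
        rw [hw'] at hr
        simp at hr
        linarith
      rw [dslope_of_ne f hne, slope_def_field]
      have h1 : ε / 4 ≤ ‖w' - z‖ := by
        refine hr.trans ?_
        rw [← hw', abs_sub_comm]
        have := abs_norm_sub_norm_le (w' - w0) (z - w0)
        simpa using this
      have h2 : ‖f w' - f z‖ ≤ 2 * M := by
        refine (norm_sub_le _ _).trans ?_
        have := hMB w' (by rw [mem_closedBall, dist_eq_norm, hw']; exact hr2)
        linarith
      rw [norm_div, div_le_div_iff₀ (by linarith) hε]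
      have hM0 : 0 ≤ M := (norm_nonneg _).trans hM
      nlinarith [norm_nonneg (f w' - f z)]
    · rw [closure_ball w0 hr0.ne']
      exact closedBall_subset_closedBall hr1 hw
  by_cases hc : ‖z - w0‖ ≤ 7 / 4 * ε
  · refine key (2 * ε) (by linarith) le_rfl ?_
    rw [abs_sub_comm, abs_of_nonneg (by linarith)]
    linarith
  · refine key (3 / 2 * ε) le_rfl (by linarith) ?_
    push_neg at hc
    rw [abs_of_nonneg (by linarith)]
    linarith

private theorem sg_dif {V : Set ℂ} (ho : IsOpen V) {f : ℂ → ℂ} (hf : DifferentiableOn ℂ f V) {a b : ℂ}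
    (hab : segment ℝ a b ⊆ V) {w0 : ℂ} (hw : w0 ∈ V) : DifferentiableAt ℂ (fun w => sg (dslope f w) a b) w0 := by
  obtain ⟨δ, hδ, hδV⟩ := Metric.isOpen_iff.1 ho w0 hw
  set ε : ℝ := δ / 4 with hεdef
  have hε : 0 < ε := by positivity
  have hB : closedBall w0 (2 * ε) ⊆ V := (closedBall_subset_ball (by rw [hεdef]; linarith)).trans hδV
  have hcomp : IsCompact (segment ℝ a b ∪ closedBall w0 (2 * ε)) := by
    refine IsCompact.union ?_ (isCompact_closedBall _ _)
    rw [segment_eq_image']
    exact isCompact_Icc.image (by fun_prop)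
  obtain ⟨M, hM⟩ := hcomp.exists_bound_of_continuousOn (f := f) (hf.continuousOn.mono (union_subset hab hB))
  have hbd : ∀ t ∈ Icc (0 : ℝ) 1, ∀ w ∈ closedBall w0 (3 / 2 * ε), ‖dslope f (a + t * (b - a)) w‖ ≤ 8 * M / ε := by
    intro t ht
    have hz := seg_mem (a := a) (b := b) ht.1 ht.2
    exact bd_dsl ho hf hε hB (hab hz) (hM _ (Or.inl hz)) fun w hw => hM _ (Or.inr hw)
  have hdz : ∀ t ∈ Icc (0 : ℝ) 1, DifferentiableOn ℂ (dslope f (a + t * (b - a))) V := fun t ht =>
    (Complex.differentiableOn_dslope (ho.mem_nhds (hab (seg_mem ht.1 ht.2)))).2 hf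
  have hbV : ∀ w ∈ ball w0 ε, w ∈ V := fun w hw => hB (ball_subset_closedBall.trans
    (closedBall_subset_closedBall (by linarith)) hw)
  have hcont : ∀ w ∈ V, ContinuousOn (fun t : ℝ => dslope f w (a + t * (b - a))) (Icc 0 1) := by
    intro w hw
    have h1 : ContinuousOn (dslope f w) V := ((Complex.differentiableOn_dslope (ho.mem_nhds hw)).2 hf).continuousOn
    exact h1.comp (seg_cont a b).continuousOn fun t ht => hab (seg_mem ht.1 ht.2)
  have hmeas : ∀ w ∈ V, MeasureTheory.AEStronglyMeasurable (fun t : ℝ => dslope f w (a + t * (b - a)))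
      (MeasureTheory.volume.restrict (uIoc (0 : ℝ) 1)) := by
    intro w hw
    refine (ContinuousOn.aestronglyMeasurable ((hcont w hw).mono ?_) measurableSet_uIoc)
    rw [uIoc_of_le zero_le_one]
    exact Ioc_subset_Icc_self
  have hder : ∀ t ∈ Icc (0 : ℝ) 1, ∀ w ∈ V, HasDerivAt (fun w => dslope f w (a + t * (b - a)))
      (deriv (dslope f (a + t * (b - a))) w) w := by
    intro t ht w hw
    have h1 := ((hdz t ht).differentiableAt (ho.mem_nhds hw)).hasDerivAt
    have h2 : (fun w => dslope f w (a + t * (b - a))) = dslope f (a + t * (b - a)) := by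
      funext w; exact dsl_sym f _ _
    rw [h2]; exact h1
  have hsub : uIoc (0 : ℝ) 1 ⊆ Icc 0 1 := by
    rw [uIoc_of_le zero_le_one]
    exact Ioc_subset_Icc_self
  have main := intervalIntegral.hasDerivAt_integral_of_dominated_loc_of_deriv_le (𝕜 := ℂ) (μ := MeasureTheory.volume)
    (F := fun w (t : ℝ) => dslope f w (a + t * (b - a)))
    (F' := fun w (t : ℝ) => deriv (dslope f (a + t * (b - a))) w) (x₀ := w0) (s := ball w0 ε) (a := 0) (b := 1)
    (bound := fun _ => 8 * M / ε / (1 / 2 * ε)) (ball_mem_nhds w0 hε) ?_ ?_ ?_ ?_ ?_ ?_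
  · have h3 := main.2.differentiableAt.const_mul (b - a)
    exact h3
  · filter_upwards [ho.mem_nhds hw] with w hw
    exact hmeas w hw
  · refine ContinuousOn.intervalIntegrable ?_
    rw [uIcc_of_le zero_le_one]
    exact hcont w0 hw
  · have hseq : Tendsto (fun n : ℕ => w0 + ((ε / (n + 2) : ℝ) : ℂ)) atTop (𝓝[≠] w0) := by
      rw [tendsto_nhdsWithin_iff]
      constructor
      · have h4 : Tendsto (fun n : ℕ => (ε / (n + 2) : ℝ)) atTop (𝓝 0) := by
          refine Tendsto.div_atTop tendsto_const_nhds ?_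
          exact tendsto_atTop_add_const_right _ _ tendsto_natCast_atTop_atTop
        have h5 : Tendsto (fun n : ℕ => (((ε / (n + 2) : ℝ)) : ℂ)) atTop (𝓝 ((0 : ℝ) : ℂ)) :=
          (Complex.continuous_ofReal.tendsto 0).comp h4
        simpa using tendsto_const_nhds (x := w0) |>.add h5
      · refine Eventually.of_forall fun n => ?_
        simp only [mem_compl_iff, mem_singleton_iff, add_eq_left]
        have : (ε / (n + 2) : ℝ) ≠ 0 := by positivity
        exact_mod_cast this
    refine aestronglyMeasurable_of_tendsto_ae atTop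
      (f := fun (n : ℕ) (t : ℝ) => slope (fun w => dslope f w (a + t * (b - a))) w0 (w0 + ((ε / (n + 2) : ℝ) : ℂ))) ?_ ?_
    · intro n
      have hw' : w0 + ((ε / (n + 2) : ℝ) : ℂ) ∈ V := by
        refine hbV _ ?_
        rw [mem_ball, dist_eq_norm, add_sub_cancel_left, Complex.norm_real, Real.norm_eq_abs, abs_of_pos (by positivity)]
        rw [div_lt_iff₀ (by positivity)]
        nlinarith [Nat.cast_nonneg (α := ℝ) n]
      simp only [slope, vsub_eq_sub]
      exact ((hmeas _ hw').sub (hmeas _ hw)).const_smul ((w0 + ((ε / (n + 2) : ℝ) : ℂ) - w0)⁻¹ : ℂ)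
    · rw [MeasureTheory.ae_restrict_iff' measurableSet_uIoc]
      refine Eventually.of_forall fun t ht => ?_
      exact (hasDerivAt_iff_tendsto_slope.1 (hder t (hsub ht) w0 hw)).comp hseq
  · refine Eventually.of_forall fun t ht w hw' => ?_
    have ht' := hsub ht
    refine Complex.norm_deriv_le_of_forall_mem_sphere_norm_le (by positivity) ?_ ?_
    · refine DifferentiableOn.diffContOnCl ?_
      rw [closure_ball w (by positivity : (1 / 2 * ε : ℝ) ≠ 0)]
      refine (hdz t ht').mono fun v hv => hB ?_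
      rw [mem_closedBall] at hv ⊢
      rw [mem_ball] at hw'
      calc dist v w0 ≤ dist v w + dist w w0 := dist_triangle _ _ _
        _ ≤ 2 * ε := by linarith
    · intro v hv
      refine hbd t ht' v ?_
      rw [mem_sphere] at hv
      rw [mem_ball] at hw'
      rw [mem_closedBall]
      calc dist v w0 ≤ dist v w + dist w w0 := dist_triangle _ _ _
        _ ≤ 3 / 2 * ε := by linarith
  · exact intervalIntegrable_const
  · refine Eventually.of_forall fun t ht w hw' => ?_
    exact hder t (hsub ht) w (hbV w hw')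

theorem dsl_dif {V : Set ℂ} (ho : IsOpen V) {f : ℂ → ℂ} (hf : DifferentiableOn ℂ f V) {L : List (ℂ × ℂ)} (hL : Ad V L) {w0 : ℂ}
    (hw : w0 ∈ V) : DifferentiableAt ℂ (fun w => ig (dslope f w) L) w0 := by
  induction L with
  | nil => simp [ig]
  | cons p L ih =>
    have h1 : (fun w => ig (dslope f w) (p :: L)) = fun w => sg (dslope f w) p.1 p.2 + ig (dslope f w) L := by
      funext w; simp [ig]
    rw [h1]
    refine DifferentiableAt.add ?_ (ih fun q hq => hL q (List.mem_cons_of_mem _ hq))
    exact sg_dif ho hf (hL p (List.mem_cons_self ..)) hw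

private theorem seg_closed (a b : ℂ) : IsCompact (segment ℝ a b) := by
  rw [segment_eq_image']
  exact isCompact_Icc.image (by fun_prop)

private theorem off_nhds {L : List (ℂ × ℂ)} {w0 : ℂ} (hw : ∀ p ∈ L, w0 ∉ segment ℝ p.1 p.2) :
    ∀ᶠ w in 𝓝 w0, ∀ p ∈ L, w ∉ segment ℝ p.1 p.2 := by
  induction L with
  | nil => simp
  | cons p L ih =>
    have h1 := ih fun q hq => hw q (List.mem_cons_of_mem _ hq)
    have h2 : ∀ᶠ w in 𝓝 w0, w ∉ segment ℝ p.1 p.2 :=
      (seg_closed p.1 p.2).isClosed.isOpen_compl.mem_nhds (hw p (List.mem_cons_self ..))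
    filter_upwards [h1, h2] with w h3 h4 q hq
    rcases List.mem_cons.1 hq with rfl | hq
    · exact h4
    · exact h3 q hq

private theorem bd_list {V : Set ℂ} {f : ℂ → ℂ} (hf : ContinuousOn f V) {L : List (ℂ × ℂ)} (hL : Ad V L) :
    ∃ M : ℝ, 0 ≤ M ∧ ∀ p ∈ L, ∀ z ∈ segment ℝ p.1 p.2, ‖f z‖ ≤ M := by
  induction L with
  | nil => exact ⟨0, le_rfl, by simp⟩
  | cons p L ih =>
    obtain ⟨M, hM0, hM⟩ := ih fun q hq => hL q (List.mem_cons_of_mem _ hq)
    obtain ⟨N, hN⟩ := (seg_closed p.1 p.2).exists_bound_of_continuousOn (hf.mono (hL p (List.mem_cons_self ..)))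
    refine ⟨max M N, hM0.trans (le_max_left _ _), ?_⟩
    intro q hq z hz
    rcases List.mem_cons.1 hq with rfl | hq
    · exact (hN z hz).trans (le_max_right _ _)
    · exact (hM q hq z hz).trans (le_max_left _ _)

open Classical in
theorem dix {V : Set ℂ} (ho : IsOpen V) (hb : Bornology.IsBounded V) (hcc : IsPreconnected Vᶜ) {g : ℂ → ℂ}
    (hg : DifferentiableOn ℂ g V) {L : List (ℂ × ℂ)} (hL : Ad V L) (hC : Cy L) : ig g L = 0 := by
  rcases V.eq_empty_or_nonempty with hV | ⟨w0, hw0⟩
  · cases L with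
    | nil => simp [ig]
    | cons p L =>
      have h1 := hL p (List.mem_cons_self ..) (left_mem_segment ℝ p.1 p.2)
      rw [hV] at h1
      exact absurd h1 (notMem_empty _)
  set f : ℂ → ℂ := fun z => (z - w0) * g z with hfdef
  have hf : DifferentiableOn ℂ f V := (differentiableOn_id.sub_const w0).mul hg
  set h : ℂ → ℂ := fun w => if w ∈ V then ig (dslope f w) L else ig (fun z => f z / (z - w)) L with hhdef
  have hoff : ∀ w ∈ Vᶜ, ∀ p ∈ L, w ∉ segment ℝ p.1 p.2 := fun w hw p hp hs => hw (hL p hp hs)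
  have hdiff : Differentiable ℂ h := by
    intro w1
    by_cases hw1 : w1 ∈ V
    · refine (dsl_dif ho hf hL hw1).congr_of_eventuallyEq ?_
      filter_upwards [ho.mem_nhds hw1] with w hw
      simp [hhdef, hw]
    · have hd := (ig_dif (g := f) (L := L) (fun p hp => hf.continuousOn.mono (hL p hp)) (hoff w1 hw1)).differentiableAt
      refine hd.congr_of_eventuallyEq ?_
      filter_upwards [wn_lc hC (hoff w1 hw1), off_nhds (hoff w1 hw1)] with w hn hs
      rw [wn0 hb hcc hL hC w1 hw1] at hn
      by_cases hw : w ∈ V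
      · have h1 : ig (dslope f w) L = ig (fun z => f z / (z - w) + (-f w) * (1 / (z - w))) L := by
          refine ig_congr fun p hp z hz => ?_
          have hne : z ≠ w := fun he => hs p hp (he ▸ hz)
          rw [dslope_of_ne f hne, slope_def_field]
          ring
        have hc1 : ∀ p ∈ L, ContinuousOn (fun z => z - w) (segment ℝ p.1 p.2) := fun p _ =>
          continuousOn_id.sub continuousOn_const
        have hne : ∀ p ∈ L, ∀ z ∈ segment ℝ p.1 p.2, z - w ≠ 0 := fun p hp z hz he =>
          hs p hp (sub_eq_zero.1 he ▸ hz)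
        have h2 : ig (fun z => f z / (z - w) + (-f w) * (1 / (z - w))) L
            = ig (fun z => f z / (z - w)) L + ig (fun z => (-f w) * (1 / (z - w))) L := by
          refine ig_add ?_ ?_
          · exact fun p hp => (hf.continuousOn.mono (hL p hp)).div (hc1 p hp) (hne p hp)
          · exact fun p hp => continuousOn_const.mul (continuousOn_const.div (hc1 p hp) (hne p hp))
        have h3 := ig_smul (-f w) (fun z => 1 / (z - w)) L
        simp only [hhdef, hw, if_true]
        rw [h1, h2, h3, hn, mul_zero, add_zero]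
      · simp [hhdef, hw]
  obtain ⟨M, hM0, hM⟩ := bd_list hf.continuousOn hL
  obtain ⟨R, hR⟩ := hb.subset_closedBall (0 : ℂ)
  have hlim : Tendsto h (cocompact ℂ) (𝓝 0) := by
    rw [tendsto_zero_iff_norm_tendsto_zero]
    have h1 : Tendsto (fun w : ℂ => M / (‖w‖ - R) * (L.map fun p => ‖p.2 - p.1‖).sum) (cocompact ℂ) (𝓝 0) := by
      have h2 : Tendsto (fun w : ℂ => M / (‖w‖ - R)) (cocompact ℂ) (𝓝 0) := by
        refine Tendsto.div_atTop tendsto_const_nhds ?_
        exact tendsto_atTop_add_const_right _ _ (tendsto_norm_cocompact_atTop (E := ℂ))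
      simpa using h2.mul_const (L.map fun p => ‖p.2 - p.1‖).sum
    refine squeeze_zero' (Eventually.of_forall fun w => norm_nonneg _) ?_ h1
    have h3 : ∀ᶠ w in cocompact ℂ, R < ‖w‖ := (tendsto_norm_cocompact_atTop (E := ℂ)).eventually (eventually_gt_atTop R)
    filter_upwards [h3] with w hw
    have hwV : w ∉ V := by
      intro hc
      have := hR hc
      rw [mem_closedBall, dist_zero_right] at this
      linarith
    simp only [hhdef, hwV, if_false]
    refine ig_le fun p hp z hz => ?_
    have hz1 : ‖z‖ ≤ R := by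
      have := hR (hL p hp hz)
      rwa [mem_closedBall, dist_zero_right] at this
    have h4 : ‖w‖ - R ≤ ‖z - w‖ := by
      have := norm_sub_norm_le w z
      rw [norm_sub_rev] at this
      linarith
    rw [norm_div]
    exact div_le_div₀ hM0 (hM p hp z hz) (by linarith) h4
  have h5 : h w0 = 0 := hdiff.apply_eq_of_tendsto_cocompact w0 hlim
  have h6 : h w0 = ig g L := by
    simp only [hhdef, hw0, if_true]
    refine ig_congr fun p hp z hz => ?_
    by_cases hzw : z = w0
    · rw [hzw, dslope_same]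
      have h7 : HasDerivAt f (1 * g w0 + (w0 - w0) * deriv g w0) w0 := by
        have h8 : HasDerivAt (fun z : ℂ => z - w0) 1 w0 := (hasDerivAt_id w0).sub_const w0
        exact h8.mul (hg.differentiableAt (ho.mem_nhds hw0)).hasDerivAt
      rw [h7.deriv]; ring
    · rw [dslope_of_ne f hzw, slope_def_field]
      have h9 : z - w0 ≠ 0 := sub_ne_zero.2 hzw
      simp only [hfdef]
      field_simp
      ring
  rw [← h6, h5]

theorem sq_of {V : Set ℂ} (ho : IsOpen V) (hc : IsPreconnected V) (hb : Bornology.IsBounded V) (hcc : IsPreconnected Vᶜ)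
    {h : ℂ → ℂ} (hh : DifferentiableOn ℂ h V) (h0 : ∀ z ∈ V, h z ≠ 0) :
    ∃ k : ℂ → ℂ, DifferentiableOn ℂ k V ∧ ∀ z ∈ V, k z ^ 2 = h z := by
  rcases V.eq_empty_or_nonempty with hV | ⟨x, hx⟩
  · subst hV
    exact ⟨fun _ => 0, differentiableOn_const _, fun z hz => absurd hz (notMem_empty z)⟩
  have hg : DifferentiableOn ℂ (fun z => deriv h z / h z) V := (hh.deriv ho).div hh h0
  obtain ⟨F, hF⟩ := prim ho hc hg fun L hL hC => dix ho hb hcc hg hL hC
  have hq : ∀ z ∈ V, HasDerivAt (fun z => h z * Complex.exp (-F z)) 0 z := by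
    intro z hz
    have h1 := (hh.differentiableAt (ho.mem_nhds hz)).hasDerivAt
    have h2 := ((hF z hz).neg).cexp
    have h3 := h1.mul h2
    have h5 : deriv h z * Complex.exp (-F z) + h z * (Complex.exp (-F z) * (-(deriv h z / h z))) = 0 := by
      have h6 := h0 z hz
      have h7 : h z * (Complex.exp (-F z) * (-(deriv h z / h z))) = -(deriv h z * Complex.exp (-F z)) := by
        field_simp
      rw [h7]; ring
    simp only [Pi.neg_apply] at h3
    rw [h5] at h3
    exact h3
  have hconst : ∀ z ∈ V, h z * Complex.exp (-F z) = h x * Complex.exp (-F x) := by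
    intro z hz
    refine ho.is_const_of_deriv_eq_zero (f := fun z => h z * Complex.exp (-F z)) hc ?_ ?_ hz hx
    · exact fun z hz => (hq z hz).differentiableAt.differentiableWithinAt
    · exact fun z hz => (hq z hz).deriv
  obtain ⟨s, hs⟩ := IsAlgClosed.exists_pow_nat_eq (h x * Complex.exp (-F x)) (n := 2) (by norm_num)
  refine ⟨fun z => s * Complex.exp (F z / 2), ?_, ?_⟩
  · intro z hz
    have h4 := (((hF z hz).div_const 2).cexp.const_mul s).differentiableAt
    exact h4.differentiableWithinAt
  · intro z hz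
    rw [mul_pow, hs, ← hconst z hz, ← Complex.exp_nat_mul, mul_assoc, ← Complex.exp_add]
    have : -F z + ((2 : ℕ) : ℂ) * (F z / 2) = 0 := by push_cast; ring
    rw [this, Complex.exp_zero, mul_one]

end Pool.Agent.H27.BR
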