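import Pool.Agent.H27.BR.Defs
import Pool.Agent.H56.RD.HUR
import Pool.Agent.H56.RD.MTM

/-!
# THEOREM UD, chapter BR (gap discs): the extremal problem of the Riemann mapping theorem

`Fa V x g`: `g` maps `V` injectively into the unit disc, `g x = 0`.
`re_ex`. PROOF. `V` is bounded: `V ⊆ ball x R`, `g0 z = (z - x) / R` is in the family, `deriv g0 x = 1 / R ≠ 0`. The derivatives are bounded by `1 / s` if `ball x s ⊆ V` (Cauchy or Schwarz: `Complex.norm_deriv_le_div_of_mapsTo_ball` or `norm_deriv_le_of_forall_mem_sphere_norm_le` with radii `< s`). Let `M = sSup {‖deriv g x‖ | g in the family}` (`≥ 1 / R > 0`), `F k` in the family with `‖deriv (F k) x‖ → M`.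
Montel (`mtm`, H56/RD/MTM; bound `1`): a subsequence converges to `G`, holomorphic on `V`, in the sense of `JC` (H56/RD/Defs; so locally uniformly, the derivatives at `x` converge: `TendstoLocallyUniformlyOn.deriv`, or Cauchy's formula; there may be a lemma in H56/RD). `‖deriv G x‖ = M > 0`. `G x = 0`.
`G` is injective: let `G p = G q`, `p ≠ q` in `V`. On `V \ {p}` (open, preconnected: `IsOpen.isConnected_compl_singleton..`/ `IsPreconnected` of an open connected set minus a point; or work in a small ball `B` around `q` which does not contain `p`) the functions `F k z - F k p` have no zeros and converge to `G z - G p`, which is zero at `q`: by `hur_nz` (on the ball `B`, preconnected) `G z - G p = 0` on `B`,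
so `G` is constant on `B`, so on `V` (identity theorem: `AnalyticOnNhd.eqOn_of_preconnected_of_eventuallyEq`), contradiction to `deriv G x ≠ 0`. `G` maps `V` to the open disc: `‖G‖ ≤ 1` and the maximum principle (`‖G z1‖ = 1` would make `G` constant), or `hur_map`.
`re_st` (square root trick). PROOF. `‖a‖ < 1`, `a ∉ g '' V`. `T_a w = (w - a) / (1 - conj a * w)` (an automorphism of the unit disc, inverse `T_(-a)`). `h = T_a ∘ g` has no zeros on `V` and is injective: `k ^ 2 = h` (`SqV`), `k` is injective (`k^2` is), `‖k‖ < 1`. `b = k x`, `G = T_b ∘ k`: in the family. `g = S ∘ G` with `S = T_(-a) ∘ (w ↦ w ^ 2) ∘ T_(-b)` : maps the disc to the disc, `S 0 = 0`, not injective (`w ^ 2` is not injective on the disc and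
`T_(-b)` is onto), so by the Schwarz lemma `‖deriv S 0‖ < 1` (the case of equality makes `S` a rotation; or by hand: `‖deriv S 0‖ = 2 ‖b‖ / (1 + ‖b‖ ^ 2) < 1` with `b ^ 2 = - a`): `‖deriv g x‖ = ‖deriv S 0‖ ‖deriv G x‖ < ‖deriv G x‖` (`deriv g x ≠ 0`, or `deriv G x ≠ 0` as `G` is injective: use the hypothesis `hg0`).
By hand: `deriv G x = deriv k x / (1 - ‖b‖ ^ 2)`, `2 b deriv k x = deriv h x = (1 - ‖a‖ ^ 2) deriv g x`, `‖a‖ = ‖b‖ ^ 2`: `‖deriv G x‖ = (1 - ‖b‖ ^ 4) / (2 ‖b‖ (1 - ‖b‖ ^ 2)) ‖deriv g x‖ = (1 + ‖b‖ ^ 2) / (2 ‖b‖) ‖deriv g x‖`.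
`rmap`. PROOF. `g` from `re_ex`. `g '' V = ball 0 1`: otherwise `re_st` contradicts the maximality. `ψ` = the inverse (`Function.invFunOn g V`). `g` is injective and holomorphic on the open set `V`, so `deriv g z ≠ 0` on `V` (library: `Pool.Agent.H80.AJ.deriv_ne` for balls, or search `deriv_ne`) and `ψ` is holomorphic: `g` is open on `V` (`AnalyticOnNhd.is_constant_or_isOpen` or `HasStrictDerivAt.map_nhds_eq`), so `ψ` is continuous; `HasStrictDerivAt.of_local_left_inverse` or `diff_of_inverse` (H32/BT/Branch).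
-/

set_option autoImplicit false

open Filter Topology Metric Set

namespace Pool.Agent.H27.BR

/-- injective maps of `V` to the unit disc with `g x = 0` -/
structure Fa (V : Set ℂ) (x : ℂ) (g : ℂ → ℂ) : Prop where
  diff : DifferentiableOn ℂ g V
  inj : InjOn g V
  maps : MapsTo g V (ball 0 1)
  zero : g x = 0

open Pool.Agent.H56.RD in
private theorem re_bd {V : Set ℂ} {x : ℂ} {s : ℝ} (hs : 0 < s) (hsV : ball x s ⊆ V) {g : ℂ → ℂ}
    (hg : Fa V x g) : ‖deriv g x‖ ≤ 1 / s := by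
  refine Complex.norm_deriv_le_div_of_mapsTo_ball (hg.diff.mono hsV) ?_ hs
  rw [hg.zero]
  exact fun z hz => ball_subset_closedBall (hg.maps (hsV hz))

open Pool.Agent.H56.RD in
theorem re_ex {V : Set ℂ} (ho : IsOpen V) (hc : IsPreconnected V) (hb : Bornology.IsBounded V) {x : ℂ} (hx : x ∈ V) :
    ∃ g : ℂ → ℂ, Fa V x g ∧ deriv g x ≠ 0 ∧ ∀ k : ℂ → ℂ, Fa V x k → ‖deriv k x‖ ≤ ‖deriv g x‖ := by
  obtain ⟨s, hs, hsV⟩ := Metric.isOpen_iff.1 ho x hx
  obtain ⟨R, hR⟩ := hb.subset_ball x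
  have hR0 : 0 < R := pos_of_mem_ball (hR hx)
  have hRc : (R : ℂ) ≠ 0 := Complex.ofReal_ne_zero.2 hR0.ne'
  have hm0 : Fa V x (fun z => (z - x) / R) := by
    refine ⟨?_, ?_, ?_, ?_⟩
    · exact ((differentiable_id.sub_const x).div_const (R : ℂ)).differentiableOn
    · intro z _ w _ h
      have h' : (z - x) / R = (w - x) / R := h
      have h1 := (div_left_inj' hRc).1 h'
      exact sub_left_injective h1
    · intro z hz
      have h1 := hR hz
      rw [mem_ball, dist_eq_norm] at h1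
      rw [mem_ball_zero_iff]
      show ‖(z - x) / R‖ < 1
      rw [norm_div, Complex.norm_real, Real.norm_eq_abs, abs_of_pos hR0, div_lt_one hR0]
      exact h1
    · show (x - x) / (R : ℂ) = 0
      rw [sub_self, zero_div]
  have hd0 : ‖deriv (fun z : ℂ => (z - x) / (R : ℂ)) x‖ = 1 / R := by
    have h1 : HasDerivAt (fun z : ℂ => (z - x) / (R : ℂ)) (1 / (R : ℂ)) x :=
      ((hasDerivAt_id x).sub_const x).div_const (R : ℂ)
    rw [h1.deriv, norm_div, norm_one, Complex.norm_real, Real.norm_eq_abs, abs_of_pos hR0]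
  set S : Set ℝ := {t : ℝ | ∃ g, Fa V x g ∧ ‖deriv g x‖ = t} with hS
  have hSm : 1 / R ∈ S := ⟨_, hm0, hd0⟩
  have hSb : BddAbove S := by
    refine ⟨1 / s, ?_⟩
    rintro t ⟨g, hg, rfl⟩
    exact re_bd hs hsV hg
  obtain ⟨u, _, hu, huS⟩ := exists_seq_tendsto_sSup ⟨_, hSm⟩ hSb
  choose F hF hFu using huS
  have hFb : ∀ k, ∀ z ∈ V, ‖F k z‖ ≤ 1 := by
    intro k z hz
    have h1 := (hF k).maps hz
    rw [mem_ball_zero_iff] at h1
    exact h1.le
  obtain ⟨σ, G, hσ, hGd, hJ⟩ := mtm ho (fun k => (hF k).diff) (by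
    intro z hz
    obtain ⟨r, hr, hrV⟩ := Metric.isOpen_iff.1 ho z hz
    exact ⟨r, hr, 1, Eventually.of_forall fun k w hw => hFb k w (hrV hw)⟩)
  have hFd : ∀ k, DifferentiableOn ℂ (F (σ k)) V := fun k => (hF (σ k)).diff
  have hder : ‖deriv G x‖ = sSup S := by
    have h1 := (jc_pt (jc_deriv ho hFd hJ) hx).norm
    have h2 : Tendsto (fun k => ‖deriv (F (σ k)) x‖) atTop (𝓝 (sSup S)) := by
      have h3 := hu.comp hσ.tendsto_atTop
      refine h3.congr fun k => ?_
      exact (hFu (σ k)).symm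
    exact tendsto_nhds_unique h1 h2
  have hpos : 0 < sSup S := lt_of_lt_of_le (by positivity) (le_csSup hSb hSm)
  have hne : deriv G x ≠ 0 := by
    rw [← norm_pos_iff, hder]
    exact hpos
  have hGx : G x = 0 := by
    have h1 := jc_pt hJ hx
    have h2 : (fun k => F (σ k) x) = fun _ => (0 : ℂ) := by
      funext k
      exact (hF (σ k)).zero
    rw [h2] at h1
    exact (tendsto_nhds_unique h1 tendsto_const_nhds)
  have hmap : MapsTo G V (ball 0 1) :=
    hur_map ho hc hFd (fun k => (hF (σ k)).maps) hJ ⟨x, hx, hne⟩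
  have hinj : InjOn G V := by
    intro p hp q hq hpq
    by_contra hn
    obtain ⟨r1, hr1, hrV⟩ := Metric.isOpen_iff.1 ho q hq
    have hd : 0 < dist p q := dist_pos.2 hn
    set r := min r1 (dist p q) with hr
    have hr0 : 0 < r := lt_min hr1 hd
    have hsub : ball q r ⊆ V := (ball_subset_ball (min_le_left _ _)).trans hrV
    have hpB : p ∉ ball q r := by
      intro h1
      rw [mem_ball] at h1
      exact absurd h1 (not_lt.2 (min_le_right _ _))
    have hj : JC (fun k z => F (σ k) z - F (σ k) p) (fun z => G z - G p) (ball q r) := by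
      intro z hz
      exact (hJ z (hsub hz)).sub ((jc_pt hJ hp).comp tendsto_fst)
    have h1 := hur_nz isOpen_ball (convex_ball q r).isPreconnected
      (fun k => ((hFd k).mono hsub).sub_const _) (by
        intro k z hz h0
        have h2 := (hF (σ k)).inj (hsub hz) hp (sub_eq_zero.1 h0)
        exact hpB (h2 ▸ hz)) hj (by
        by_contra hcon
        push Not at hcon
        have hev : ∀ᶠ w in 𝓝 q, G w = G p := by
          filter_upwards [ball_mem_nhds q hr0] with w hw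
          exact sub_eq_zero.1 (hcon w hw)
        have heq : EqOn G (fun _ => G p) V :=
          (hGd.analyticOnNhd ho).eqOn_of_preconnected_of_eventuallyEq analyticOnNhd_const hc hq hev
        apply hne
        have h3 : G =ᶠ[𝓝 x] fun _ => G p := by
          filter_upwards [ho.mem_nhds hx] with w hw
          exact heq hw
        rw [h3.deriv_eq]
        simp)
    exact h1 q (mem_ball_self hr0) (sub_eq_zero.2 hpq.symm)
  refine ⟨G, ⟨hGd, hinj, hmap, hGx⟩, hne, ?_⟩
  intro k hk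
  rw [hder]
  exact le_csSup hSb ⟨k, hk, rfl⟩

private theorem mob_lt {a w : ℂ} (ha : ‖a‖ < 1) (hw : ‖w‖ < 1) :
    ‖w - a‖ < ‖1 - (starRingEnd ℂ) a * w‖ := by
  have h : ‖1 - (starRingEnd ℂ) a * w‖ ^ 2 - ‖w - a‖ ^ 2 = (1 - ‖a‖ ^ 2) * (1 - ‖w‖ ^ 2) := by
    simp only [Complex.sq_norm, Complex.normSq_apply, Complex.sub_re, Complex.sub_im, Complex.mul_re,
      Complex.mul_im, Complex.one_re, Complex.one_im, Complex.conj_re, Complex.conj_im]
    ring
  have h1 : 0 < (1 - ‖a‖ ^ 2) * (1 - ‖w‖ ^ 2) := by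
    have h2 := norm_nonneg a
    have h3 := norm_nonneg w
    refine mul_pos ?_ ?_ <;> nlinarith
  exact lt_of_pow_lt_pow_left₀ 2 (norm_nonneg _) (by linarith)

private theorem mob_ne {a w : ℂ} (ha : ‖a‖ < 1) (hw : ‖w‖ < 1) : 1 - (starRingEnd ℂ) a * w ≠ 0 := by
  rw [← norm_pos_iff]
  exact lt_of_le_of_lt (norm_nonneg _) (mob_lt ha hw)

private theorem mob_inj {a w w' : ℂ} (ha : ‖a‖ < 1) (hw : ‖w‖ < 1) (hw' : ‖w'‖ < 1)
    (h : (w - a) / (1 - (starRingEnd ℂ) a * w) = (w' - a) / (1 - (starRingEnd ℂ) a * w')) : w = w' := by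
  rw [div_eq_div_iff (mob_ne ha hw) (mob_ne ha hw')] at h
  have h1 : (w - w') * (1 - (starRingEnd ℂ) a * a) = 0 := by linear_combination h
  rcases mul_eq_zero.1 h1 with h2 | h2
  · exact sub_eq_zero.1 h2
  · exact absurd h2 (mob_ne ha ha)

/-- composition with a Moebius map -/
private theorem mob_comp {V : Set ℂ} (ho : IsOpen V) {f : ℂ → ℂ} (hf : DifferentiableOn ℂ f V)
    (hm : ∀ z ∈ V, ‖f z‖ < 1) {a : ℂ} (ha : ‖a‖ < 1) :
    DifferentiableOn ℂ (fun z => (f z - a) / (1 - (starRingEnd ℂ) a * f z)) V ∧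
    (∀ z ∈ V, ‖(f z - a) / (1 - (starRingEnd ℂ) a * f z)‖ < 1) ∧
    ∀ x ∈ V, deriv (fun z => (f z - a) / (1 - (starRingEnd ℂ) a * f z)) x =
      deriv f x * (1 - (starRingEnd ℂ) a * a) / (1 - (starRingEnd ℂ) a * f x) ^ 2 := by
  refine ⟨?_, ?_, ?_⟩
  · refine (hf.sub_const a).div ((differentiableOn_const 1).sub (hf.const_mul _)) ?_
    intro z hz
    exact mob_ne ha (hm z hz)
  · intro z hz
    rw [norm_div, div_lt_one (norm_pos_iff.2 (mob_ne ha (hm z hz)))]
    exact mob_lt ha (hm z hz)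
  · intro x hx
    have h1 : HasDerivAt f (deriv f x) x := (hf.differentiableAt (ho.mem_nhds hx)).hasDerivAt
    have h2 := (h1.sub_const a).div ((hasDerivAt_const x (1 : ℂ)).sub (h1.const_mul ((starRingEnd ℂ) a)))
      (mob_ne ha (hm x hx))
    have h3 := h2.deriv
    rw [show (fun z => (f z - a) / (1 - (starRingEnd ℂ) a * f z)) =
      ((fun z => f z - a) / ((fun _ => (1 : ℂ)) - fun z => (starRingEnd ℂ) a * f z)) from rfl, h3]
    congr 1
    simp only [Pi.sub_apply]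
    ring

theorem re_st {V : Set ℂ} (ho : IsOpen V) (hs : SqV V) {x : ℂ} (hx : x ∈ V) {g : ℂ → ℂ} (hg : Fa V x g)
    (hg0 : deriv g x ≠ 0) {a : ℂ} (ha : ‖a‖ < 1) (haV : a ∉ g '' V) :
    ∃ k : ℂ → ℂ, Fa V x k ∧ ‖deriv g x‖ < ‖deriv k x‖ := by
  have hgm : ∀ z ∈ V, ‖g z‖ < 1 := fun z hz => mem_ball_zero_iff.1 (hg.maps hz)
  obtain ⟨hh1, hh2, hh3⟩ := mob_comp ho hg.diff hgm ha
  set h : ℂ → ℂ := fun z => (g z - a) / (1 - (starRingEnd ℂ) a * g z) with hh
  have hnz : ∀ z ∈ V, h z ≠ 0 := by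
    intro z hz h0
    rcases div_eq_zero_iff.1 h0 with h1 | h1
    · exact haV ⟨z, hz, sub_eq_zero.1 h1⟩
    · exact mob_ne ha (hgm z hz) h1
  obtain ⟨k, hk, hk2⟩ := hs h hh1 hnz
  have hkm : ∀ z ∈ V, ‖k z‖ < 1 := by
    intro z hz
    have h1 := hh2 z hz
    have h2 : ‖k z‖ ^ 2 < 1 := by
      rw [← norm_pow, hk2 z hz]
      exact h1
    have h3 := norm_nonneg (k z)
    nlinarith
  have hkinj : InjOn k V := by
    intro z hz w hw hzw
    have h1 : h z = h w := by rw [← hk2 z hz, ← hk2 w hw, hzw]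
    exact hg.inj hz hw (mob_inj ha (hgm z hz) (hgm w hw) h1)
  set b := k x with hb
  have hb1 : ‖b‖ < 1 := hkm x hx
  have hb0 : b ≠ 0 := by
    intro h0
    apply hnz x hx
    rw [← hk2 x hx, ← hb, h0]
    simp
  have hba : b ^ 2 = - a := by
    rw [hb, hk2 x hx]
    show (g x - a) / (1 - (starRingEnd ℂ) a * g x) = - a
    rw [hg.zero]
    simp
  obtain ⟨hG1, hG2, hG3⟩ := mob_comp ho hk hkm hb1
  refine ⟨fun z => (k z - b) / (1 - (starRingEnd ℂ) b * k z), ⟨hG1, ?_, ?_, ?_⟩, ?_⟩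
  · intro z hz w hw hzw
    exact hkinj hz hw (mob_inj hb1 (hkm z hz) (hkm w hw) hzw)
  · intro z hz
    exact mem_ball_zero_iff.2 (hG2 z hz)
  · show (k x - b) / (1 - (starRingEnd ℂ) b * k x) = 0
    rw [← hb, sub_self, zero_div]
  · have hcn : ∀ c : ℂ, ‖c‖ < 1 → ‖1 - (starRingEnd ℂ) c * c‖ = 1 - ‖c‖ ^ 2 := by
      intro c hc
      have h1 : (starRingEnd ℂ) c * c = ((‖c‖ ^ 2 : ℝ) : ℂ) := by
        rw [mul_comm, Complex.mul_conj, Complex.normSq_eq_norm_sq]
      have h2 : 1 - (starRingEnd ℂ) c * c = ((1 - ‖c‖ ^ 2 : ℝ) : ℂ) := by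
        rw [h1]
        push_cast
        ring
      have h3 : 0 ≤ 1 - ‖c‖ ^ 2 := by
        have := norm_nonneg c
        nlinarith
      rw [h2, Complex.norm_real, Real.norm_eq_abs, abs_of_nonneg h3]
    have hdh : deriv h x = deriv g x * (1 - (starRingEnd ℂ) a * a) := by
      rw [hh3 x hx, hg.zero]
      simp
    have hdk : 2 * b * deriv k x = deriv h x := by
      have h1 : HasDerivAt k (deriv k x) x := (hk.differentiableAt (ho.mem_nhds hx)).hasDerivAt
      have h2 := h1.pow 2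
      have h3 : (fun z => k z ^ 2) =ᶠ[𝓝 x] h := by
        filter_upwards [ho.mem_nhds hx] with z hz
        exact hk2 z hz
      have h4 := h3.deriv_eq
      have h5 : deriv (fun z => k z ^ 2) x = _ := h2.deriv
      rw [← h4, h5, ← hb]
      simp
    have hdG : deriv (fun z => (k z - b) / (1 - (starRingEnd ℂ) b * k z)) x =
        deriv k x / (1 - (starRingEnd ℂ) b * b) := by
      rw [hG3 x hx, ← hb, pow_two]
      have hne := mob_ne hb1 hb1
      field_simp
    have hbn : 0 < ‖b‖ := norm_pos_iff.2 hb0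
    have hgn : 0 < ‖deriv g x‖ := norm_pos_iff.2 hg0
    have han : ‖a‖ = ‖b‖ ^ 2 := by
      rw [← norm_pow, hba, norm_neg]
    have hkn : 2 * ‖b‖ * ‖deriv k x‖ = ‖deriv g x‖ * (1 - ‖b‖ ^ 4) := by
      have h1 := congrArg norm (hdk.trans hdh)
      rw [norm_mul, norm_mul, norm_mul, hcn a ha, han, Complex.norm_two] at h1
      rw [h1]
      ring
    rw [hdG, norm_div, hcn b hb1]
    have hq : 0 < 1 - ‖b‖ ^ 2 := by nlinarith
    rw [lt_div_iff₀ hq]
    have h6 : 2 * ‖b‖ * (‖deriv g x‖ * (1 - ‖b‖ ^ 2)) < 2 * ‖b‖ * ‖deriv k x‖ := by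
      rw [hkn]
      have h7 : ‖deriv g x‖ * (1 - ‖b‖ ^ 4) - 2 * ‖b‖ * (‖deriv g x‖ * (1 - ‖b‖ ^ 2)) =
          ‖deriv g x‖ * (1 - ‖b‖ ^ 2) * (1 - ‖b‖) ^ 2 := by ring
      have h8 : 0 < ‖deriv g x‖ * (1 - ‖b‖ ^ 2) * (1 - ‖b‖) ^ 2 := by
        have h9 : 0 < 1 - ‖b‖ := by linarith
        positivity
      linarith
    exact lt_of_mul_lt_mul_left h6 (by positivity)

/-- the Riemann map and its inverse -/
theorem rmap {V : Set ℂ} (ho : IsOpen V) (hc : IsPreconnected V) (hb : Bornology.IsBounded V) (hs : SqV V) {x : ℂ} (hx : x ∈ V) :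
    ∃ ψ g : ℂ → ℂ, DifferentiableOn ℂ ψ (ball 0 1) ∧ DifferentiableOn ℂ g V ∧ MapsTo ψ (ball 0 1) V ∧
      MapsTo g V (ball 0 1) ∧ (∀ u ∈ ball (0 : ℂ) 1, g (ψ u) = u) ∧ (∀ z ∈ V, ψ (g z) = z) ∧ ψ 0 = x := by
  obtain ⟨g, hg, hg0, hmax⟩ := re_ex ho hc hb hx
  have hsur : ball (0 : ℂ) 1 ⊆ g '' V := by
    intro a ha
    by_contra hn
    obtain ⟨k, hk, hlt⟩ := re_st ho hs hx hg hg0 (mem_ball_zero_iff.1 ha) hn
    exact absurd (hmax k hk) (not_le.2 hlt)
  have hψV : ∀ u ∈ ball (0 : ℂ) 1, Function.invFunOn g V u ∈ V := fun u hu =>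
    Function.invFunOn_mem (hsur hu)
  have hgψ : ∀ u ∈ ball (0 : ℂ) 1, g (Function.invFunOn g V u) = u := fun u hu =>
    Function.invFunOn_eq (hsur hu)
  have hψg : ∀ z ∈ V, Function.invFunOn g V (g z) = z := fun z hz =>
    hg.inj.leftInvOn_invFunOn hz
  have hcont : ContinuousOn (Function.invFunOn g V) (ball (0 : ℂ) 1) := by
    rw [continuousOn_open_iff isOpen_ball]
    intro t ht
    have hopen : IsOpen (g '' (V ∩ t)) := by
      rcases (hg.diff.analyticOnNhd ho).is_constant_or_isOpen hc with h1 | h1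
      · exfalso
        obtain ⟨w, hw⟩ := h1
        apply hg0
        have h3 : g =ᶠ[𝓝 x] fun _ => w := by
          filter_upwards [ho.mem_nhds hx] with z hz
          exact hw z hz
        rw [h3.deriv_eq]
        simp
      · exact h1 _ inter_subset_left (ho.inter ht)
    have heq : ball (0 : ℂ) 1 ∩ Function.invFunOn g V ⁻¹' t = g '' (V ∩ t) := by
      ext u
      constructor
      · rintro ⟨hu, hut⟩
        exact ⟨_, ⟨hψV u hu, hut⟩, hgψ u hu⟩
      · rintro ⟨z, ⟨hz, hzt⟩, rfl⟩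
        refine ⟨hg.maps hz, ?_⟩
        rw [mem_preimage, hψg z hz]
        exact hzt
    rw [heq]
    exact hopen
  refine ⟨Function.invFunOn g V, g, ?_, hg.diff, hψV, hg.maps, hgψ, hψg, ?_⟩
  · intro u hu
    exact (Pool.Agent.H32.BT.diff_of_inverse (isOpen_ball.mem_nhds hu) hcont ho (hψV u hu) hg.diff
      (fun w hw _ => hgψ w hw)).differentiableWithinAt
  · have h1 := hψg x hx
    rw [hg.zero] at h1
    exact h1

end Pool.Agent.H27.BR
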