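import Pool.Agent.H27.BR.TP
import Pool.Agent.H27.BR.DXB
import Pool.Agent.H27.BR.RE

/-!
# THEOREM UD, chapter BR (gap discs): uniformly disconnected sets have gap discs with uniform constants

`gd_mono`: clear (`GD.inn`: a larger disc; `GD.col`: a smaller collar).
`gd_one`. PROOF. `ε = 1 / (8 C)`, so `ε ≤ 1 / 8`. `C' = 4 / ε`, so `2 / C' = ε / 2`. `Λ`: a finite set with `closedBall (0 : ℂ) 1 ⊆ ⋃ q ∈ Λ, ball q ε` (`IsCompact.finite_cover_balls` / total boundedness). For a pair `(P, A)` as in the statement its CODE is `S = {q ∈ Λ | ∃ a ∈ A, ‖a - q‖ < ε}`. There are finitely many codes, so (by `gd_mono`, taking the maximum of finitely many `θ < 1`, induction on a finite set of codes) it is enough to find for every `S ⊆ Λ` a `θ < 1`, `θ > 0`, good for all pairs with the code `S`.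
Fix `S`; suppose some pair has the code `S` (otherwise `θ = 1 / 2`). `K = ⋃ q ∈ S, closedBall q (2 ε)`, compact. `0 ∈ A`, `0 ∈ ball q ε` for some `q ∈ Λ`, so `q ∈ S`, so `ball 0 ε ⊆ closedBall q (2 ε) ⊆ K`, `0 ∈ interior K`. `K ⊆ closedBall 0 (1 + 3 ε)` (`q ∈ S`: `‖q‖ ≤ ‖a‖ + ε < 1 + ε`). `V` from `fillx` with `x = 0`: `V ⊆ closedBall 0 (1 + 3 ε) ⊆ ball 0 2`. `SqV V` from `sq_of`; `rmap`: `ψ, g` with `ψ 0 = 0`.
`V` and `ψ` depend only on `S`. `Kc = {z | ε / 2 ≤ infDist z Vᶜ}`: closed, contained in `V` (`infDist z Vᶜ = 0` for `z ∈ Vᶜ`; `Vᶜ` is nonempty and closed), bounded, so compact. `g '' Kc` is a compact subset of `ball 0 1`: `θ < 1`, `θ > 0` with `‖g z‖ < θ` on `Kc`.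
For every pair `(P, A)` with the code `S` `GD θ C' P 0 2 ψ`: `diff`, `inj` (left inverse `g`), `out` (`ψ '' ball 0 1 ⊆ V ⊆ ball 0 2`). `inn`: `z ∈ ball 0 (ε / 2)`: `ball 0 ε ⊆ V` (`ball 0 ε ⊆ interior K` is preconnected, meets `V` in `0` and does not meet `frontier V ⊆ frontier K`, which is disjoint from `interior K`), so `infDist z Vᶜ ≥ ε / 2`, `z ∈ Kc`, `z = ψ (g z)`, `‖g z‖ < θ`.
`col`: let `θ < ‖u‖ < 1` and `p = ψ u ∈ P`. Claim: `ball p ε ⊆ V`. Then `p ∈ Kc` and `‖u‖ = ‖g p‖ < θ`: contradiction. PROOF of the claim: `p ∈ V`; it is enough that `‖z - p‖ ≥ ε` for all `z ∈ frontier V ⊆ frontier K` (the ball is preconnected and meets `V`: `IsPreconnected.subset_of..frontier`). `z ∈ K` (closed): `‖z - q0‖ ≤ 2 ε` for some `q0 ∈ S`, and `z ∉ interior K`: `‖z - q‖ ≥ 2 ε` for all `q ∈ S`.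
If `p ∈ A`: `‖p‖ < 1`, so `p ∈ ball q ε` for some `q ∈ Λ`, `q ∈ S`: `‖z - p‖ ≥ 2 ε - ε`. If `p ∉ A`: `a ∈ A` with `‖a - q0‖ < ε`, `‖a - p‖ ≥ 1 / C = 8 ε`: `‖z - p‖ ≥ 8 ε - ε - 2 ε = 5 ε`.
`ug_of`: scaling. `x ∈ P`, `0 < r < r0`: `A` from `UDm` at the scale `r / 2`. `P1 = {w | x + (r / 2) w ∈ P}`, `A1` in the same way: `gd_one` (`C` replaced by `max C 1`): `ψ`; then `u ↦ x + (r / 2) * ψ u` is a gap disc for `P` at `x` with the radius `r` (`2 * (r / 2) = r`).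
-/

set_option autoImplicit false

open Filter Topology Metric Set

namespace Pool.Agent.H27.BR

open Pool.Agent.H56.UD (GD UG)

theorem gd_mono {θ θ' C r : ℝ} {P : Set ℂ} {x : ℂ} {ψ : ℂ → ℂ} (h : GD θ C P x r ψ) (h1 : θ ≤ θ') : GD θ' C P x r ψ :=
  ⟨h.diff, h.inj, h.inn.trans (image_mono (ball_subset_ball h1)), h.out,
    fun u hu hu1 => h.col u (h1.trans_lt hu) hu1⟩

private theorem ball_sub {V : Set ℂ} (ho : IsOpen V) {x : ℂ} (hx : x ∈ V) {r : ℝ} (hr : 0 < r)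
    (h : ∀ z ∈ frontier V, r ≤ ‖z - x‖) : ball x r ⊆ V := by
  refine IsPreconnected.subset_left_of_subset_union (v := (closure V)ᶜ) ho isClosed_closure.isOpen_compl ?_ ?_
    ⟨x, mem_ball_self hr, hx⟩ (convex_ball x r).isPreconnected
  · exact disjoint_compl_right.mono_left subset_closure
  · intro z hz
    by_cases h1 : z ∈ V
    · exact Or.inl h1
    · right
      intro h2
      have h3 : z ∈ frontier V := by
        rw [ho.frontier_eq]
        exact ⟨h2, h1⟩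
      have h4 := h z h3
      rw [mem_ball_iff_norm] at hz
      linarith

/-- the hypotheses on the pairs -/
private def Pr (C : ℝ) (P A : Set ℂ) : Prop := A ⊆ P ∧ (0 : ℂ) ∈ A ∧
    (∀ a ∈ A, ‖a‖ < 1) ∧ (∀ a ∈ A, ∀ p ∈ P, p ∉ A → 1 ≤ C * ‖a - p‖)

/-- the pair has the code `S` -/
private def Cod (Λ S : Finset ℂ) (ε : ℝ) (A : Set ℂ) : Prop := ∀ q, q ∈ S ↔ q ∈ Λ ∧ ∃ a ∈ A, ‖a - q‖ < ε

private theorem one_code {C ε : ℝ} (hC : 1 ≤ C) (hε : ε = 1 / (8 * C)) {Λ : Finset ℂ}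
    (hΛ : ∀ z : ℂ, ‖z‖ ≤ 1 → ∃ q ∈ Λ, ‖z - q‖ < ε) (S : Finset ℂ) :
    ∃ θ : ℝ, 0 < θ ∧ θ < 1 ∧ ∀ P A : Set ℂ, Pr C P A → Cod Λ S ε A → ∃ ψ, GD θ (4 / ε) P 0 2 ψ := by
  have hC0 : 0 < C := by linarith
  have hε0 : 0 < ε := by
    rw [hε]
    positivity
  have hε8 : ε ≤ 1 / 8 := by
    rw [hε]
    apply one_div_le_one_div_of_le (by norm_num)
    linarith
  have hεC : 1 / C = 8 * ε := by
    rw [hε]
    field_simp
  by_cases hex : ∃ P A : Set ℂ, Pr C P A ∧ Cod Λ S ε A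
  swap
  · refine ⟨1 / 2, by norm_num, by norm_num, fun P A h1 h2 => ?_⟩
    exact absurd ⟨P, A, h1, h2⟩ hex
  obtain ⟨P0, A0, ⟨hA1, hA2, hA3, hA4⟩, hcod⟩ := hex
  obtain ⟨K, hK⟩ : ∃ K : Set ℂ, K = ⋃ q ∈ S, closedBall q (2 * ε) := ⟨_, rfl⟩
  have hKm : ∀ z, z ∈ K ↔ ∃ q ∈ S, ‖z - q‖ ≤ 2 * ε := by
    intro z
    rw [hK]
    simp only [Set.mem_iUnion, mem_closedBall_iff_norm, exists_prop]
  have hKc : IsCompact K := by
    rw [hK]
    exact S.isCompact_biUnion fun q _ => isCompact_closedBall q (2 * ε)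
  have h0K : (0 : ℂ) ∈ interior K := by
    obtain ⟨q, hq, hq2⟩ := hΛ 0 (by rw [norm_zero]; norm_num)
    have hqS : q ∈ S := (hcod q).2 ⟨hq, 0, hA2, hq2⟩
    refine mem_interior.2 ⟨ball 0 ε, fun z hz => ?_, isOpen_ball, mem_ball_self hε0⟩
    refine (hKm z).2 ⟨q, hqS, ?_⟩
    rw [mem_ball_zero_iff] at hz
    have h1 : z - q = z + (0 - q) := by ring
    rw [h1]
    refine (norm_add_le _ _).trans ?_
    linarith
  have hKb : K ⊆ closedBall 0 (1 + 3 * ε) := by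
    intro z hz
    obtain ⟨q, hq, hzq⟩ := (hKm z).1 hz
    obtain ⟨-, a, ha, haq⟩ := (hcod q).1 hq
    rw [mem_closedBall_zero_iff]
    have h1 : z = (z - q) + (a - (a - q)) := by ring
    have h2 := hA3 a ha
    rw [h1]
    refine (norm_add_le _ _).trans ?_
    have h3 := norm_sub_le a (a - q)
    linarith
  obtain ⟨V, hVo, hVc, h0V, hVcc, hVf, hVb⟩ := fillx hKc h0K
  have hVb1 : V ⊆ closedBall 0 (1 + 3 * ε) := hVb 0 _ hKb
  have hVbd : Bornology.IsBounded V := isBounded_closedBall.subset hVb1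
  have hV2 : V ⊆ ball 0 2 := by
    intro z hz
    have h1 := hVb1 hz
    rw [mem_closedBall_zero_iff] at h1
    rw [mem_ball_zero_iff]
    linarith
  have hsq : SqV V := fun h hh h0 => sq_of hVo hVc hVbd hVcc hh h0
  obtain ⟨ψ, g, hψ, hg, hψV, hgV, hgψ, hψg, hψ0⟩ := rmap hVo hVc hVbd hsq h0V
  have hVne : (Vᶜ : Set ℂ).Nonempty := by
    refine ⟨2, fun h1 => ?_⟩
    have h2 := hV2 h1
    rw [mem_ball_zero_iff] at h2
    norm_num at h2
  obtain ⟨Kc, hKcd⟩ : ∃ Kc : Set ℂ, Kc = {z | ε / 2 ≤ infDist z Vᶜ} := ⟨_, rfl⟩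
  have hKcm : ∀ z, z ∈ Kc ↔ ε / 2 ≤ infDist z Vᶜ := by
    intro z
    rw [hKcd]
    rfl
  have hKcV : Kc ⊆ V := by
    intro z hz
    by_contra hzV
    have h1 := (hKcm z).1 hz
    rw [infDist_zero_of_mem hzV] at h1
    linarith
  have hKcc : IsCompact Kc := by
    refine Metric.isCompact_of_isClosed_isBounded ?_ (hVbd.subset hKcV)
    rw [hKcd]
    exact isClosed_le continuous_const (continuous_infDist_pt _)
  have hball : ∀ p : ℂ, p ∈ V → ∀ r : ℝ, 0 < r → ball p r ⊆ V → r ≤ infDist p Vᶜ := by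
    intro p _ r _ hb
    refine (le_infDist hVne).2 fun y hy => ?_
    by_contra hlt
    push Not at hlt
    rw [dist_comm] at hlt
    exact hy (hb hlt)
  have hfr0 : ∀ z ∈ frontier V, ∃ q ∈ S, ‖z - q‖ ≤ 2 * ε := by
    intro z hz
    exact (hKm z).1 (hKc.isClosed.frontier_subset (hVf hz))
  have hfr1 : ∀ z ∈ frontier V, ∀ q ∈ S, 2 * ε ≤ ‖z - q‖ := by
    intro z hz q hq
    by_contra hlt
    push Not at hlt
    have h1 : z ∉ interior K := (hVf hz).2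
    refine h1 (mem_interior.2 ⟨ball q (2 * ε), fun y hy => ?_, isOpen_ball, mem_ball_iff_norm.2 hlt⟩)
    exact (hKm y).2 ⟨q, hq, (mem_ball_iff_norm.1 hy).le⟩
  have hb0 : ball (0 : ℂ) ε ⊆ V := by
    obtain ⟨q, hq, hq2⟩ := hΛ 0 (by rw [norm_zero]; norm_num)
    have hqS : q ∈ S := (hcod q).2 ⟨hq, 0, hA2, hq2⟩
    refine ball_sub hVo h0V hε0 fun z hz => ?_
    have h1 := hfr1 z hz q hqS
    have h2 : z - q = (z - 0) + (0 - q) := by ring
    have h3 := norm_add_le (z - 0) (0 - q)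
    rw [← h2] at h3
    linarith
  obtain ⟨θ, hθ0, hθ1, hθ⟩ : ∃ θ : ℝ, 0 < θ ∧ θ < 1 ∧ ∀ z ∈ Kc, ‖g z‖ < θ := by
    rcases Kc.eq_empty_or_nonempty with he | hne
    · exact ⟨1 / 2, by norm_num, by norm_num, fun z hz => by rw [he] at hz; exact absurd hz (Set.notMem_empty z)⟩
    · obtain ⟨z0, hz0, hmax⟩ := hKcc.exists_isMaxOn hne ((hg.continuousOn.mono hKcV).norm)
      have h1 : ‖g z0‖ < 1 := mem_ball_zero_iff.1 (hgV (hKcV hz0))
      refine ⟨(‖g z0‖ + 1) / 2, by positivity, by linarith, fun z hz => ?_⟩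
      have h2 : ‖g z‖ ≤ ‖g z0‖ := hmax hz
      linarith
  refine ⟨θ, hθ0, hθ1, fun P A hPA hcodA => ⟨ψ, ?_⟩⟩
  obtain ⟨hB1, hB2, hB3, hB4⟩ := hPA
  refine ⟨hψ, ?_, ?_, ?_, ?_⟩
  · intro a ha b hb hab
    rw [← hgψ a ha, ← hgψ b hb, hab]
  · intro z hz
    have h1 : (2 : ℝ) / (4 / ε) = ε / 2 := by
      field_simp
      norm_num
    rw [h1, mem_ball_zero_iff] at hz
    have hzV : z ∈ V := hb0 (by rw [mem_ball_zero_iff]; linarith)
    have hzK : z ∈ Kc := by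
      refine (hKcm z).2 (hball z hzV _ (half_pos hε0) fun y hy => hb0 ?_)
      rw [mem_ball_iff_norm] at hy
      rw [mem_ball_zero_iff]
      have h2 : y = (y - z) + z := by ring
      rw [h2]
      refine (norm_add_le _ _).trans_lt ?_
      linarith
    exact ⟨g z, mem_ball_zero_iff.2 (hθ z hzK), hψg z hzV⟩
  · rintro _ ⟨u, hu, rfl⟩
    exact hV2 (hψV hu)
  · intro u hu1 hu2 hpP
    have hub : u ∈ ball (0 : ℂ) 1 := mem_ball_zero_iff.2 hu2
    have hpV : ψ u ∈ V := hψV hub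
    have hsub : ball (ψ u) ε ⊆ V := by
      refine ball_sub hVo hpV hε0 fun z hz => ?_
      by_cases hpA : ψ u ∈ A
      · obtain ⟨q, hq, hq2⟩ := hΛ (ψ u) (hB3 _ hpA).le
        have hqS : q ∈ S := (hcodA q).2 ⟨hq, ψ u, hpA, hq2⟩
        have h1 := hfr1 z hz q hqS
        have h2 : z - q = (z - ψ u) + (ψ u - q) := by ring
        have h3 := norm_add_le (z - ψ u) (ψ u - q)
        rw [← h2] at h3
        linarith
      · obtain ⟨q, hq, hq2⟩ := hfr0 z hz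
        obtain ⟨-, a, ha, haq⟩ := (hcodA q).1 hq
        have h1 := hB4 a ha (ψ u) hpP hpA
        have h2 : 8 * ε ≤ ‖a - ψ u‖ := by
          rw [← hεC, div_le_iff₀ hC0]
          linarith
        have h3 : a - ψ u = (a - q) + ((z - ψ u) - (z - q)) := by ring
        have h4 := norm_add_le (a - q) ((z - ψ u) - (z - q))
        rw [← h3] at h4
        have h5 := norm_sub_le (z - ψ u) (z - q)
        linarith
    have hpK : ψ u ∈ Kc := by
      refine (hKcm _).2 ?_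
      have h1 := hball _ hpV ε hε0 hsub
      linarith
    have h1 := hθ _ hpK
    rw [hgψ u hub] at h1
    linarith

theorem gd_one {C : ℝ} (hC : 1 ≤ C) : ∃ θ C' : ℝ, 0 < θ ∧ θ < 1 ∧ 1 ≤ C' ∧ ∀ P A : Set ℂ, A ⊆ P → (0 : ℂ) ∈ A →
    (∀ a ∈ A, ‖a‖ < 1) → (∀ a ∈ A, ∀ p ∈ P, p ∉ A → 1 ≤ C * ‖a - p‖) → ∃ ψ, GD θ C' P 0 2 ψ := by
  classical
  obtain ⟨ε, hε⟩ : ∃ ε : ℝ, ε = 1 / (8 * C) := ⟨_, rfl⟩
  have hC0 : 0 < C := by linarith
  have hε0 : 0 < ε := by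
    rw [hε]
    positivity
  have hε8 : ε ≤ 1 / 8 := by
    rw [hε]
    apply one_div_le_one_div_of_le (by norm_num)
    linarith
  obtain ⟨t, -, htf, htc⟩ := (isCompact_closedBall (0 : ℂ) 1).finite_cover_balls hε0
  have hΛ : ∀ z : ℂ, ‖z‖ ≤ 1 → ∃ q ∈ htf.toFinset, ‖z - q‖ < ε := by
    intro z hz
    have h1 := htc (mem_closedBall_zero_iff.2 hz)
    simp only [Set.mem_iUnion, mem_ball_iff_norm, exists_prop] at h1
    obtain ⟨q, hq, hq2⟩ := h1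
    exact ⟨q, htf.mem_toFinset.2 hq, hq2⟩
  choose θ hθ0 hθ1 hθ using fun S : Finset ℂ => one_code hC hε hΛ S
  obtain ⟨S0, hS0, hmax⟩ := Finset.exists_max_image htf.toFinset.powerset θ ⟨∅, Finset.empty_mem_powerset _⟩
  refine ⟨θ S0, 4 / ε, hθ0 _, hθ1 _, ?_, fun P A h1 h2 h3 h4 => ?_⟩
  · rw [le_div_iff₀ hε0]
    linarith
  · obtain ⟨S, hS⟩ : ∃ S : Finset ℂ, S = htf.toFinset.filter (fun q => ∃ a ∈ A, ‖a - q‖ < ε) := ⟨_, rfl⟩
    have hcod : Cod htf.toFinset S ε A := by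
      intro q
      rw [hS, Finset.mem_filter]
    obtain ⟨ψ, hψ⟩ := hθ S P A ⟨h1, h2, h3, h4⟩ hcod
    refine ⟨ψ, gd_mono hψ (hmax S ?_)⟩
    rw [Finset.mem_powerset, hS]
    exact Finset.filter_subset _ _

theorem ug_of {C r0 : ℝ} {P : Set ℂ} (h : UDm C r0 P) : ∃ θ C' : ℝ, 0 < θ ∧ θ < 1 ∧ 1 ≤ C' ∧ UG θ C' r0 P := by
  obtain ⟨θ, C', hθ0, hθ1, hC', hall⟩ := gd_one (C := max C 1) (le_max_right _ _)
  refine ⟨θ, C', hθ0, hθ1, hC', fun x hx r hr hr0 => ?_⟩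
  obtain ⟨A, hAP, hxA, hA1, hA2⟩ := h x hx (r / 2) (half_pos hr) (by linarith)
  have hrc : ((r / 2 : ℝ) : ℂ) ≠ 0 := by
    exact_mod_cast (half_pos hr).ne'
  have hrn : ‖((r / 2 : ℝ) : ℂ)‖ = r / 2 := by
    rw [Complex.norm_real, Real.norm_of_nonneg (half_pos hr).le]
  obtain ⟨ψ, hψ⟩ := hall {w | x + ((r / 2 : ℝ) : ℂ) * w ∈ P} {w | x + ((r / 2 : ℝ) : ℂ) * w ∈ A}
    (fun w hw => hAP hw) (by
      show x + ((r / 2 : ℝ) : ℂ) * 0 ∈ A
      rw [mul_zero, add_zero]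
      exact hxA) (by
      intro a ha
      have h1 := hA1 _ ha
      rw [add_sub_cancel_left, norm_mul, hrn] at h1
      have h2 := half_pos hr
      by_contra h3
      push Not at h3
      nlinarith) (by
      intro a ha p hp hpA
      have h1 := hA2 _ ha _ hp hpA
      have h2 : (x + ((r / 2 : ℝ) : ℂ) * a) - (x + ((r / 2 : ℝ) : ℂ) * p) = ((r / 2 : ℝ) : ℂ) * (a - p) := by ring
      rw [h2, norm_mul, hrn] at h1
      have h3 := half_pos hr
      have h4 : 1 ≤ C * ‖a - p‖ := by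
        by_contra h5
        push Not at h5
        nlinarith
      exact h4.trans (mul_le_mul_of_nonneg_right (le_max_left _ _) (norm_nonneg _)))
  refine ⟨fun u => x + ((r / 2 : ℝ) : ℂ) * ψ u, ?_, ?_, ?_, ?_, ?_⟩
  · exact (hψ.diff.const_mul _).const_add _
  · intro a ha b hb hab
    exact hψ.inj ha hb (mul_left_cancel₀ hrc (add_left_cancel hab))
  · intro y hy
    rw [mem_ball_iff_norm] at hy
    have h1 : (y - x) / ((r / 2 : ℝ) : ℂ) ∈ ball (0 : ℂ) (2 / C') := by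
      rw [mem_ball_zero_iff, norm_div, hrn, div_lt_iff₀ (half_pos hr)]
      have h2 : 2 / C' * (r / 2) = r / C' := by ring
      rw [h2]
      exact hy
    obtain ⟨u, hu, hu2⟩ := hψ.inn h1
    refine ⟨u, hu, ?_⟩
    show x + ((r / 2 : ℝ) : ℂ) * ψ u = y
    rw [hu2, mul_div_cancel₀ _ hrc]
    ring
  · rintro _ ⟨u, hu, rfl⟩
    have h1 := hψ.out ⟨u, hu, rfl⟩
    rw [mem_ball_zero_iff] at h1
    rw [mem_ball_iff_norm]
    show ‖x + ((r / 2 : ℝ) : ℂ) * ψ u - x‖ < r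
    rw [add_sub_cancel_left, norm_mul, hrn]
    have h2 := half_pos hr
    nlinarith
  · intro u hu1 hu2 hP
    exact hψ.col u hu1 hu2 hP

end Pool.Agent.H27.BR
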