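import Pool.Agent.H27.BR.PSA

/-!
# THEOREM UD, chapter BR: a level of the backward orbit with three points

`f = Rf u` on the sphere, `g = gg a b`, `a = pol u.1`, `b = pol u.2`, `J = JC u`.
`pre3`. PROOF. Let `x ∈ JS f` and suppose `#(f^[k])⁻¹{x} ≤ 2` for all `k`. The number is not decreasing in `k` (`f` is surjective: `rf_surj`): it is constant for `k ≥ k0`: so every point of `(f^[k])⁻¹{x}`, `k ≥ k0`, has exactly one preimage, which is then a critical point (`2 ≤ d`: a point with exactly one preimage is a critical value: degree `d ≥ 2`; see `bwd_fin`/`trap_crit`, H47/RJ, where this is used). So `⋃ k > k0, (f^[k])⁻¹{x}` is contained in the finite set of the critical points (`crit_finite`), and backward invariant: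
by `bwd_fin`, `trap_crit` it is in `FS f`, but it is in `JS f` (`js_iff`) and not empty. (Another way: `T = ⋃ k, (f^[k])⁻¹{x}` is backward invariant; if it is finite `bwd_fin`, `trap_crit` give `x ∈ FS f`. So it is infinite; it has a point `z ∈ (f^[k])⁻¹{x}` which is not on the forward orbit of a critical point, or directly count.)
-/

set_option autoImplicit false

open Filter Topology Polynomial Metric Set MeasureTheory

namespace Pool.Agent.H27.BR

open Pool.Agent.H44.Fatou (rat rat_continuous rat_coe rat_coe_of_ne pt crit_coe)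
open Pool.Agent.H32.BT Pool.Agent.H79.Eul Pool.Agent.H79.Par
open Pool.Agent.H35.EX Pool.Agent.H56.HR Pool.Agent.H44.RC Pool.Agent.H47.RJ
open Pool.Agent.H47.NN Pool.Agent.H44.ND Pool.Agent.H79.ES
open Pool.Agent.H64.NC Pool.Agent.H61.TT Pool.Agent.H57.CP Pool.Agent.H3.NC

variable {d : ℕ} {u : E d} {T : Set (OnePoint ℂ)}

private theorem sg_inf {V : Set (OnePoint ℂ)} {y : OnePoint ℂ} (hV : IsOpen V) (hy : y ∈ V) :
    V.Infinite := by
  have h1 : Dense (range ((↑) : ℂ → OnePoint ℂ)) := OnePoint.denseRange_coe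
  obtain ⟨w, hwV, z, rfl⟩ := h1.inter_open_nonempty V hV ⟨y, hy⟩
  have h2 : ((↑) : ℂ → OnePoint ℂ) ⁻¹' V ∈ 𝓝 z :=
    (hV.preimage OnePoint.continuous_coe).mem_nhds hwV
  have h3 := infinite_of_mem_nhds z h2
  exact (h3.image OnePoint.coe_injective.injOn).mono (image_preimage_subset _ _)

/-- the only preimage of a point is critical -/
private theorem sg_crit (hd : 2 ≤ d) (hcop : IsCoprime (pol u.1) (pol u.2))
    (hdeg : max (pol u.1).natDegree (pol u.2).natDegree = d) {x : OnePoint ℂ}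
    (hu : ∀ z, Rf u z = Rf u x → z = x) : IsCrit (Rf u) x := by
  intro hcrit
  obtain ⟨U, hU, hUi⟩ := hcrit
  have hcont : Continuous (Rf u) := rat_continuous hcop
  obtain ⟨U', hU'U, hU'o, hxU'⟩ := _root_.mem_nhds_iff.1 hU
  have hK : IsCompact (Rf u '' U'ᶜ) := (hU'o.isClosed_compl.isCompact).image hcont
  obtain ⟨V, hV⟩ : ∃ V, V = (Rf u '' U'ᶜ)ᶜ := ⟨_, rfl⟩
  have hVo : IsOpen V := by
    rw [hV]
    exact hK.isClosed.isOpen_compl
  have hxV : Rf u x ∈ V := by
    rw [hV]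
    rintro ⟨z, hz, hzx⟩
    rw [hu z hzx] at hz
    exact hz hxU'
  obtain ⟨y, hyV, hy⟩ := cnt_ge (by omega) hcop hdeg 1 (sg_inf hVo hxV)
  have h3 : {z | (Rf u)^[1] z = y}.ncard ≤ 1 := by
    rw [Set.ncard_le_one_iff (cnt_le (by omega) hcop hdeg 1 y).1]
    have h4 : ∀ z : OnePoint ℂ, z ∈ {z | (Rf u)^[1] z = y} → z ∈ U' ∧ Rf u z = y := by
      intro z hz
      have hz' : Rf u z = y := hz
      refine ⟨?_, hz'⟩
      by_contra hzU
      rw [hV] at hyV
      exact hyV ⟨z, hzU, hz'⟩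
    intro a b ha hb
    obtain ⟨a1, a2⟩ := h4 a ha
    obtain ⟨b1, b2⟩ := h4 b hb
    exact hUi (hU'U a1) (hU'U b1) (a2.trans b2.symm)
  rw [pow_one] at hy
  omega

theorem pre3 (h : GA u T) {x : OnePoint ℂ} (hx : x ∈ JS (Rf u)) :
    ∃ (k : ℕ) (e : Fin 3 → OnePoint ℂ), Function.Injective e ∧ ∀ i, (Rf u)^[k] (e i) = x := by
  classical
  have hd := h.hd
  have hcop := h.cop
  have hdeg := h.deg
  have hsurj : Function.Surjective (Rf u) := rf_surj (by omega) hcop hdeg
  by_contra hcon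
  push Not at hcon
  obtain ⟨L, hL⟩ : ∃ L : ℕ → Set (OnePoint ℂ), L = fun k => {z | (Rf u)^[k] z = x} := ⟨_, rfl⟩
  have hmem : ∀ k z, z ∈ L k ↔ (Rf u)^[k] z = x := by
    intro k z
    rw [hL]
    exact Iff.rfl
  have hLf : ∀ k, (L k).Finite := by
    intro k
    rw [hL]
    exact (cnt_le (by omega) hcop hdeg k x).1
  have hL2 : ∀ k, (L k).ncard ≤ 2 := by
    intro k
    by_contra h1
    push Not at h1
    obtain ⟨a, b, c, ha, hb, hc, hab, hac, hbc⟩ := (Set.two_lt_ncard_iff (hLf k)).1 h1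
    obtain ⟨i, hi⟩ := hcon k ![a, b, c] (by
      intro i j hij
      fin_cases i <;> fin_cases j <;> simp_all)
    apply hi
    fin_cases i
    · exact (hmem k a).1 ha
    · exact (hmem k b).1 hb
    · exact (hmem k c).1 hc
  have hstep : ∀ k z, Rf u z ∈ L k ↔ z ∈ L (k + 1) := by
    intro k z
    rw [hmem, hmem, Function.iterate_succ_apply]
  have himg : ∀ k, Rf u '' L (k + 1) = L k := by
    intro k
    ext y
    constructor
    · rintro ⟨z, hz, rfl⟩
      exact (hstep k z).2 hz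
    · intro hy
      obtain ⟨z, rfl⟩ := hsurj y
      exact ⟨z, (hstep k z).1 hy, rfl⟩
  have hmono : Monotone fun k => (L k).ncard := by
    apply monotone_nat_of_le_succ
    intro k
    have h1 := Set.ncard_image_le (f := Rf u) (hLf (k + 1))
    rwa [himg k] at h1
  obtain ⟨k0, hk0⟩ : ∃ k0, ∀ k, (L k).ncard ≤ (L k0).ncard := by
    by_contra hc
    push Not at hc
    obtain ⟨a, ha⟩ := hc 0
    obtain ⟨b, hb⟩ := hc a
    obtain ⟨c, hc'⟩ := hc b
    have := hL2 c
    omega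
  have hinj : ∀ k, k0 ≤ k → InjOn (Rf u) (L (k + 1)) := by
    intro k hk
    rw [← Set.ncard_image_iff (hLf _), himg k]
    have h1 : (L k0).ncard ≤ (L k).ncard := hmono hk
    have h2 := hk0 (k + 1)
    have h3 : (L k).ncard ≤ (L (k + 1)).ncard := hmono (Nat.le_succ k)
    omega
  obtain ⟨S, hS⟩ : ∃ S : Set (OnePoint ℂ), S = {z | ∃ k, k0 ≤ k ∧ z ∈ L (k + 1)} := ⟨_, rfl⟩
  have hSc : ∀ z ∈ S, IsCrit (Rf u) z := by
    intro z hz
    rw [hS] at hz
    obtain ⟨k, hk, hzk⟩ := hz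
    refine sg_crit hd hcop hdeg fun z' hz' => hinj k hk ?_ hzk hz'
    rw [← hstep, hz', hstep]
    exact hzk
  have hSf : S.Finite := by
    refine (crit_finite hcop (by omega)).subset fun z hz => ?_
    exact hSc z hz
  have hSb : ∀ z, Rf u z ∈ S → z ∈ S := by
    intro z hz
    rw [hS] at hz ⊢
    obtain ⟨k, hk, hzk⟩ := hz
    exact ⟨k + 1, by omega, (hstep _ _).1 hzk⟩
  obtain ⟨hm, hc⟩ := bwd_fin hd hcop hdeg hSf hSb
  obtain ⟨N, -, hN2, -, hN4, -⟩ := trap_crit hd hcop hdeg hSf hm hc one_pos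
  obtain ⟨z, hz⟩ := (hsurj.iterate (k0 + 1)) x
  have h1 : z ∈ S := by
    rw [hS]
    exact ⟨k0, le_rfl, (hmem _ _).2 hz⟩
  have h2 : z ∈ FS (Rf u) := hN4 (hN2 h1)
  have h3 : z ∈ JS (Rf u) := (js_iff (by omega) hcop hdeg (k0 + 1) z).1 (by
    rw [hz]
    exact hx)
  exact h3 h2

end Pool.Agent.H27.BR
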