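import Pool.Agent.H27.BR.PSE1
import Pool.Agent.H27.BR.PSE2
import Pool.Agent.H83.UP.USO

/-!
# THEOREM UD, chapter BR: the Julia set is covered by the images of its open subsets, for ALL large times

`f = Rf u` on the sphere, `g = gg a b`, `a = pol u.1`, `b = pol u.2`, `J = JC u`.
`ev1`. PROOF. `y` periodic in `J`, `x ∈ JS f`: `k` and three different points `e i` with `f^[k] (e i) = x` (`pre3`). If `n ≥ k` and `x ∉ f^[n] '' (ball y ρ)` then `f^[n - k]` omits the `e i` on `ball y ρ`, so `‖tD (n - k) y‖ ≤ C` (`om3`): only for finitely many `n` (`tdi`).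
`ps_leo`. PROOF. `O ∩ J` contains a periodic point `y` (`uso_per`, H83/UP/USO), `g^[p] y = y`, `0 < p`. `y` is repelling (`GA.rep`): there is a ball `B = ball y ρ ⊆ O` with `b ≠ 0` on the orbits up to time `p` and `B ⊆ g^[p] '' B` (local inverse of `g^[p]` at `y`: `y` is an attracting fixed point of it, derivative of modulus `< 1`; see `rep`-lemmas in H44/NR, H91). In the sphere let `B' = coe '' B` (open). For `i < p` the open sets
`f^[p j + i] '' B'` are increasing in `j`; by `ev1` every `x ∈ JS f` is in `f^[p j + i] '' B'` for large `j`; `JS f` is compact: `JS f ⊆ f^[p j + i] '' B'` for all `j ≥ j0` (all `i < p`). `N = p (j0 + 1)`. Finally `x ∈ J`, `f^[n] z = x`, `z ∈ B`: `z ∈ J` (`js_iff`) and `g^[n] z = x` (`GA.git`).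
-/

set_option autoImplicit false

open Filter Topology Polynomial Metric Set MeasureTheory

namespace Pool.Agent.H27.BR

open Pool.Agent.H44.Fatou (rat rat_continuous rat_coe rat_coe_of_ne pt crit_coe)
open Pool.Agent.H32.BT Pool.Agent.H79.Eul Pool.Agent.H79.Par
open Pool.Agent.H35.EX Pool.Agent.H56.HR Pool.Agent.H44.RC Pool.Agent.H47.RJ
open Pool.Agent.H47.NN Pool.Agent.H44.ND Pool.Agent.H79.ES
open Pool.Agent.H64.NC Pool.Agent.H61.TT Pool.Agent.H57.CP Pool.Agent.H3.NC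

variable {d : ℕ} {u : E d} {T : Set (OnePoint ℂ)}

private theorem pse_exp {G : ℂ → ℂ} {m y : ℂ} (hG : HasStrictDerivAt G m y) (hm : 1 < ‖m‖) (hy : G y = y) {ρ0 : ℝ}
    (hρ0 : 0 < ρ0) : ∃ ρ : ℝ, 0 < ρ ∧ ρ ≤ ρ0 ∧ ball y ρ ⊆ G '' ball y ρ := by
  have hm0 : m ≠ 0 := by
    intro h0
    rw [h0, norm_zero] at hm
    linarith
  obtain ⟨L, hL⟩ : ∃ L : ℂ → ℂ, L = hG.localInverse G m y hm0 := ⟨_, rfl⟩
  have h1 : HasStrictDerivAt L m⁻¹ (G y) := by rw [hL]; exact hG.to_localInverse hm0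
  have h2 : ∀ᶠ z in 𝓝 (G y), G (L z) = z := by
    rw [hL]
    exact (hG.hasStrictFDerivAt_equiv hm0).eventually_right_inverse
  have h3 : L (G y) = y := by
    rw [hL]
    exact (hG.hasStrictFDerivAt_equiv hm0).localInverse_apply_image
  rw [hy] at h1 h2 h3
  have hc : 0 < 1 - ‖m⁻¹‖ := by
    rw [norm_inv]
    have := inv_lt_one_of_one_lt₀ hm
    linarith
  have h4 := (hasDerivAt_iff_isLittleO.1 h1.hasDerivAt).def hc
  obtain ⟨δ, hδ, h5⟩ := Metric.mem_nhds_iff.1 (h2.and h4)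
  refine ⟨min δ ρ0, lt_min hδ hρ0, min_le_right _ _, fun z hz => ⟨L z, ?_, ?_⟩⟩
  · obtain ⟨-, h6⟩ := h5 (ball_subset_ball (min_le_left _ _) hz)
    rw [h3] at h6
    have h7 : ‖L z - y‖ ≤ ‖z - y‖ := by
      calc ‖L z - y‖ = ‖(L z - y - (z - y) • m⁻¹) + (z - y) • m⁻¹‖ := by rw [sub_add_cancel]
        _ ≤ ‖L z - y - (z - y) • m⁻¹‖ + ‖(z - y) • m⁻¹‖ := norm_add_le _ _
        _ ≤ (1 - ‖m⁻¹‖) * ‖z - y‖ + ‖z - y‖ * ‖m⁻¹‖ := by
          rw [norm_smul]
          linarith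
        _ = ‖z - y‖ := by ring
    rw [mem_ball, dist_eq_norm] at hz ⊢
    exact lt_of_le_of_lt h7 hz
  · exact (h5 (ball_subset_ball (min_le_left _ _) hz)).1

private theorem pse_git {a b : Polynomial ℂ} {n : ℕ} {z : ℂ} (hb : ∀ j < n, b.eval ((Pool.Agent.H61.TT.gg a b)^[j] z) ≠ 0) :
    (rat a b)^[n] (z : OnePoint ℂ) = (((Pool.Agent.H61.TT.gg a b)^[n] z : ℂ) : OnePoint ℂ) := by
  induction n with
  | zero => rfl
  | succ n ih =>
    rw [Function.iterate_succ_apply', Function.iterate_succ_apply', ih fun j hj => hb j (by omega),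
      rat_coe_of_ne (hb n (by omega))]
    rfl

theorem ev1 (h : GA u T) {y : ℂ} (hy : y ∈ JC u) {p : ℕ} (hp : 0 < p) (hpy : (Pool.Agent.H61.TT.gg (pol u.1) (pol u.2))^[p] y = y)
    {ρ : ℝ} (hρ : 0 < ρ) {x : OnePoint ℂ} (hx : x ∈ JS (Rf u)) :
    ∀ᶠ n in atTop, ∃ z ∈ ball y ρ, (Rf u)^[n] (z : OnePoint ℂ) = x := by
  obtain ⟨k, e, he, hke⟩ := pre3 h hx
  obtain ⟨C, hC⟩ := om3 h hy hρ he
  obtain ⟨m0, hm0⟩ := (eventually_atTop.1 ((tdi h hy hp hpy).eventually_gt_atTop C))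
  refine eventually_atTop.2 ⟨k + m0, fun n hn => ?_⟩
  by_contra hcon
  push Not at hcon
  obtain ⟨m, rfl⟩ := Nat.exists_eq_add_of_le hn
  have h1 := hC (m0 + m) fun z hz i hzi => ?_
  · exact absurd h1 (not_le.2 (hm0 _ (by omega)))
  · apply hcon z hz
    rw [show k + m0 + m = k + (m0 + m) by ring, Function.iterate_add_apply, hzi]
    exact hke i

theorem ps_leo (h : GA u T) : ∀ O : Set ℂ, IsOpen O → (O ∩ JC u).Nonempty →
    ∃ N : ℕ, ∀ n ≥ N, JC u ⊆ (Pool.Agent.H61.TT.gg (pol u.1) (pol u.2))^[n] '' (O ∩ JC u) := by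
  rintro O hO ⟨y0, hy0O, hy0J⟩
  obtain ⟨ρ0, hρ0, hsub0⟩ := Metric.isOpen_iff.1 hO y0 hy0O
  obtain ⟨y, hyJ, hyn, p, hp, hpy⟩ := Pool.Agent.H83.UP.uso_per h hy0J hρ0
  have hyO : y ∈ O := hsub0 (mem_ball_iff_norm.2 hyn)
  obtain ⟨ρ1, hρ1, hsub1⟩ := Metric.isOpen_iff.1 hO y hyO
  have hbo : ∀ i : ℕ, (pol u.2).eval ((Pool.Agent.H61.TT.gg (pol u.1) (pol u.2))^[i] y) ≠ 0 := fun i => h.bne (h.git hyJ i).1
  have hev : ∀ᶠ z in 𝓝 y, ∀ j ∈ Finset.range p, (pol u.2).eval ((Pool.Agent.H61.TT.gg (pol u.1) (pol u.2))^[j] z) ≠ 0 := by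
    rw [Filter.eventually_all_finset]
    intro j _
    have h1 : ContinuousAt (Pool.Agent.H61.TT.gg (pol u.1) (pol u.2))^[j] y :=
      (bra_it (a := pol u.1) (b := pol u.2) (n := j) (z := y) fun i _ => hbo i).hasDerivAt.continuousAt
    exact ((pol u.2).continuous.continuousAt.comp h1).eventually_ne (hbo j)
  obtain ⟨ρ2, hρ2, hsub2⟩ := Metric.mem_nhds_iff.1 hev
  obtain ⟨ρ, hρ, hρle, hexp⟩ := pse_exp (bra_it (a := pol u.1) (b := pol u.2) (n := p) (z := y) fun i _ => hbo i)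
    (h.rep y hyJ p hp hpy) hpy (lt_min hρ1 hρ2)
  obtain ⟨B, hB⟩ : ∃ B : Set (OnePoint ℂ), B = (fun z : ℂ => (z : OnePoint ℂ)) '' ball y ρ := ⟨_, rfl⟩
  have hBo : IsOpen B := by
    rw [hB]
    exact OnePoint.isOpenEmbedding_coe.isOpenMap _ isOpen_ball
  have hBp : B ⊆ (Rf u)^[p] '' B := by
    rw [hB]
    rintro _ ⟨w, hw, rfl⟩
    obtain ⟨z, hz, hzw⟩ := hexp hw
    refine ⟨(z : OnePoint ℂ), ⟨z, hz, rfl⟩, ?_⟩
    have h1 := hsub2 (ball_subset_ball (hρle.trans (min_le_right _ _)) hz)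
    have h2 : (rat (pol u.1) (pol u.2))^[p] (z : OnePoint ℂ) = _ := pse_git fun j hj => h1 j (Finset.mem_range.2 hj)
    show (rat (pol u.1) (pol u.2))^[p] (z : OnePoint ℂ) = _
    rw [h2, hzw]
  have hmono : ∀ n : ℕ, (Rf u)^[n] '' B ⊆ (Rf u)^[n + p] '' B := by
    intro n
    rw [Function.iterate_add, Set.image_comp]
    exact Set.image_mono hBp
  have hmono2 : ∀ n k : ℕ, (Rf u)^[n] '' B ⊆ (Rf u)^[n + p * k] '' B := by
    intro n k
    induction k with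
    | zero => exact subset_rfl
    | succ k ih =>
      refine ih.trans ?_
      have := hmono (n + p * k)
      rwa [show n + p * k + p = n + p * (k + 1) by ring] at this
  have hop : IsOpenMap (Rf u) := rat_open h.cop (by rw [h.deg]; have := h.hd; omega)
  obtain ⟨U, hU⟩ : ∃ U : ℕ → Set (OnePoint ℂ), U = fun k => ⋂ i ∈ Finset.range p, (Rf u)^[p * k + i] '' B := ⟨_, rfl⟩
  have hUo : ∀ k, IsOpen (U k) := by
    intro k
    rw [hU]
    exact isOpen_biInter_finset fun i _ => Pool.Agent.H91.Fatou.open_iterate hop _ _ hBo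
  have hUm : Monotone U := by
    refine monotone_nat_of_le_succ fun k => ?_
    rw [hU]
    refine Set.iInter₂_mono fun i _ => ?_
    have := hmono (p * k + i)
    rwa [show p * k + i + p = p * (k + 1) + i by ring] at this
  have hcov : JS (Rf u) ⊆ ⋃ k, U k := by
    intro x hx
    obtain ⟨N0, hN0⟩ := eventually_atTop.1 (ev1 h hyJ hp hpy hρ hx)
    rw [mem_iUnion]
    refine ⟨N0, ?_⟩
    rw [hU]
    refine Set.mem_iInter₂.2 fun i _ => ?_
    obtain ⟨z, hz, hzx⟩ := hN0 (p * N0 + i) (by nlinarith)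
    refine ⟨(z : OnePoint ℂ), ?_, hzx⟩
    rw [hB]
    exact ⟨z, hz, rfl⟩
  obtain ⟨K, hK⟩ := (js_closed (Rf u)).isCompact.elim_directed_cover U hUo hcov hUm.directed_le
  refine ⟨p * K, fun n hn x hx => ?_⟩
  have h1 : (x : OnePoint ℂ) ∈ (Rf u)^[n] '' B := by
    have h2 : K ≤ n / p := by
      rw [Nat.le_div_iff_mul_le hp]
      rw [mul_comm]
      exact hn
    have h3 : (x : OnePoint ℂ) ∈ U (n / p) := hUm h2 (hK hx)
    rw [hU] at h3
    have h4 := Set.mem_iInter₂.1 h3 (n % p) (Finset.mem_range.2 (Nat.mod_lt _ hp))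
    rwa [Nat.div_add_mod] at h4
  rw [hB] at h1
  obtain ⟨_, ⟨z, hz, rfl⟩, hzx⟩ := h1
  have hzJ : z ∈ JC u := by
    intro hzF
    have h5 := (fs_iff (v := u) (by have := h.hd; omega) h.cop h.deg n (z : OnePoint ℂ)).2 hzF
    rw [hzx] at h5
    exact hx h5
  refine ⟨z, ⟨hsub1 (ball_subset_ball (hρle.trans (min_le_left _ _)) hz), hzJ⟩, ?_⟩
  have h6 := (h.git hzJ n).2
  rw [hzx] at h6
  exact (OnePoint.coe_injective h6).symm

end Pool.Agent.H27.BR
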