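import Pool.Agent.H27.BR.PSA
import Pool.Agent.H91.Fatou.Branch

/-!
# THEOREM UD, chapter BR: lifts of maps to `thickening δ J \ P` under the iterates

PROOF. `δ ≤ δ0`, so `H t ∈ NJ J δ0` (`nj_th`). `f = Rf u = rat a b` (`a = pol u.1`, `b = pol u.2`), `g = gg a b`. (1) For `t ∈ S` the point `(H t : OnePoint ℂ)` is in `Reg f k` (H91/Fatou/Branch): let `f^[k] w = H t`, `i < k`, and suppose `c = f^[i] w` is critical (`Crit f c`, not injective near `c`: the same as `IsCrit`). `f^[k - i] c = H t`, `k - i > 0`. By `Geo.fc` (the second alternative is impossible, `H t ∈ NJ J δ0`) `c = z ∈ J` with `Cr a b z`;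
`z ∈ (pre a b)^[k - i] {H t}` (`g_pre`, H18/UP/BAS), so `H t = g^[k - i] z ∈ PJ` (`p_cr`): contradiction.
(2) Lift: `f^[k]` is a covering map on `Reg f k` (`cover_iterate`, H91/Fatou/Branch; `f` continuous and open: `rat_continuous`, `rat_open`). As in `exists_branch` (same file; there the map `ψ` is continuous on all of `ℂ`; here `t ↦ (H t : OnePoint ℂ)` is only continuous on `S`: work with the subtype `S` (convex, so simply connected and locally path connected) in the same way, or first compose with a homeomorphism; copy the proof):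
a continuous `G0 : S → OnePoint ℂ` with `f^[k] (G0 t) = H t`, `G0 q = z`.
(3) `G0 t` is in the plane (`g_fin` with `i = 0`): `G0 t = (G t : OnePoint ℂ)`, `G` continuous on `S` (`OnePoint.isOpenEmbedding_coe`). `G t ∈ (pre a b)^[k] {H t}` (`g_pre`), so `G t ∈ dm .. k` (`dm_pre`, `pre_mono`) and `g^[k] (G t) = H t`. Also `z ∈ dm` gives `f^[k] z = H q` (`g_rat`).
(4) `G` is holomorphic: at `t ∈ S` `g^[k]` has the strict derivative `tD a b k (G t)` at `G t` (`bra_it`, see `g_diff`), `≠ 0` (no critical point on the orbit: `tD` is the product of `dg`, `dg = ww / b ^ 2`; `ww (g^[i] (G t)) = 0` would give a critical point (`crit_iff`), excluded by (1)). So near `G t` `g^[k]` has a holomorphic local inverse `ι` (`HasStrictDerivAt.localInverse`), and `G s = ι (H s)` for `s` near `t` (continuity of `G`): differentiable.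
-/

set_option autoImplicit false

open Filter Topology Polynomial Metric Set MeasureTheory

namespace Pool.Agent.H27.BR

open Pool.Agent.H44.Fatou (rat rat_continuous rat_coe rat_coe_of_ne pt crit_coe)
open Pool.Agent.H32.BT Pool.Agent.H79.Eul Pool.Agent.H79.Par
open Pool.Agent.H35.EX Pool.Agent.H56.HR Pool.Agent.H44.RC Pool.Agent.H47.RJ
open Pool.Agent.H47.NN Pool.Agent.H44.ND Pool.Agent.H79.ES
open Pool.Agent.H64.NC Pool.Agent.H61.TT Pool.Agent.H57.CP Pool.Agent.H3.NC
open Pool.Agent.H18.UP (NJ PJ Cr Geo)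
open Pool.Agent.H56.UD (dm)

variable {d : ℕ} {a b : Polynomial ℂ} {J : Set ℂ} {δ0 : ℝ}

private theorem psl_reg (hG : Geo d a b J δ0) {k : ℕ} {w : ℂ} (hw : w ∈ NJ J δ0) (hP : w ∉ PJ a b J) {x : OnePoint ℂ}
    (hx : (rat a b)^[k] x = (w : OnePoint ℂ)) : ∀ i < k, ¬ IsCrit (rat a b) ((rat a b)^[i] x) := by
  intro i hi hc
  have h1 : (rat a b)^[k - i] ((rat a b)^[i] x) = (w : OnePoint ℂ) := by
    rw [← Function.iterate_add_apply, Nat.sub_add_cancel hi.le]
    exact hx
  rcases hG.fc _ hc with ⟨z, hz, he, hcr⟩ | h2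
  · rw [he] at h1
    have h3 := (Pool.Agent.H18.UP.g_pre hG hw).1 h1
    apply hP
    have h4 : (Pool.Agent.H61.TT.gg a b)^[k - i] z = w := (mem_pre.1 h3).2
    rw [← h4]
    exact Pool.Agent.H18.UP.p_cr hz hcr (by omega) (Pool.Agent.H18.UP.pre_mono (subset_univ _) h3)
  · exact h2 (k - i) (by omega) w hw h1

private theorem psl_tD (hG : Geo d a b J δ0) {k : ℕ} {z w : ℂ} (hw : w ∈ NJ J δ0) (hP : w ∉ PJ a b J)
    (hz : z ∈ (pre a b)^[k] {w}) : tD a b k z ≠ 0 := by
  have h1 := psl_reg hG hw hP ((Pool.Agent.H18.UP.g_pre hG hw).2 hz)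
  have h2 := (mem_pre.1 hz).1
  unfold tD
  refine Finset.prod_ne_zero_iff.2 fun i hi => ?_
  have hi' := Finset.mem_range.1 hi
  refine div_ne_zero (fun h0 => ?_) (pow_ne_zero 2 (h2 i hi'))
  refine h1 i hi' ?_
  rw [rat_it h2 i hi'.le]
  exact (Pool.Agent.H18.UP.crit_iff hG (h2 i hi')).2 h0

theorem ps_lift (hG : Geo d a b J δ0) {δ : ℝ} (hδ : δ ≤ δ0) (k : ℕ) (S : Set ℂ) (H : ℂ → ℂ) (q z : ℂ) (hS : Convex ℝ S)
    (hSo : IsOpen S) (hH : DifferentiableOn ℂ H S) (hP : ∀ t ∈ S, H t ∈ thickening δ J ∧ H t ∉ PJ a b J) (hq : q ∈ S)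
    (hz : z ∈ dm (Pool.Agent.H61.TT.gg a b) {z | b.eval z ≠ 0} J δ k) (he : (Pool.Agent.H61.TT.gg a b)^[k] z = H q) :
    ∃ G : ℂ → ℂ, DifferentiableOn ℂ G S ∧ G q = z ∧
      ∀ t ∈ S, G t ∈ dm (Pool.Agent.H61.TT.gg a b) {z | b.eval z ≠ 0} J δ k ∧ (Pool.Agent.H61.TT.gg a b)^[k] (G t) = H t := by
  classical
  have hdeg : 1 ≤ max a.natDegree b.natDegree := by
    rw [hG.rt.deg]
    have := hG.rt.hd
    omega
  have hf : Continuous (rat a b) := rat_continuous hG.rt.cop
  have ho : IsOpenMap (rat a b) := rat_open hG.rt.cop hdeg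
  have hN : ∀ t ∈ S, H t ∈ NJ J δ0 := by
    intro t ht
    rw [nj_th]
    exact thickening_mono hδ J (hP t ht).1
  have hreg : ∀ t ∈ S, ((H t : ℂ) : OnePoint ℂ) ∈ Pool.Agent.H91.Fatou.Reg (rat a b) k := by
    intro t ht x hx i hi
    exact psl_reg hG (hN t ht) (hP t ht).2 hx i hi
  have hx0 : (rat a b)^[k] (z : OnePoint ℂ) = ((H q : ℂ) : OnePoint ℂ) := by
    rw [dm_pre] at hz
    rw [Pool.Agent.H18.UP.g_rat hG hz, he]
  have h1 : ContractibleSpace S := hS.contractibleSpace ⟨q, hq⟩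
  have h2 : LocallyPathConnectedSpace S := hSo.locallyPathConnectedSpace
  have hHc : Continuous (fun t : S => ((H t : ℂ) : OnePoint ℂ)) :=
    OnePoint.continuous_coe.comp (continuousOn_iff_continuous_domRestrict.1 hH.continuousOn)
  let ψ' : C(S, OnePoint ℂ) := ⟨fun t => ((H t : ℂ) : OnePoint ℂ), hHc⟩
  obtain ⟨F, ⟨hF1, hF2⟩, -⟩ := (Pool.Agent.H91.Fatou.cover_iterate hf ho k).existsUnique_continuousMap_lifts ψ'
    (a₀ := ⟨q, hq⟩) (e₀ := (z : OnePoint ℂ)) hx0 (fun a => hreg a a.2)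
  have hF : ∀ t : S, (rat a b)^[k] (F t) = ((H t : ℂ) : OnePoint ℂ) := fun t => congrFun hF2 t
  have hfin : ∀ t : S, ∃ y : ℂ, F t = (y : OnePoint ℂ) := by
    intro t
    obtain ⟨y, hy⟩ := Pool.Agent.H18.UP.g_fin hG (hN t t.2) (hF t) 0 (Nat.zero_le _)
    exact ⟨y, hy⟩
  choose g hg using hfin
  have hgc : Continuous g := by
    rw [OnePoint.isOpenEmbedding_coe.isInducing.continuous_iff]
    have h3 : ((fun y : ℂ => (y : OnePoint ℂ)) ∘ g) = F := by
      funext t
      exact (hg t).symm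
    exact h3 ▸ F.continuous
  have hgp : ∀ t : S, g t ∈ (pre a b)^[k] {H t} := by
    intro t
    refine (Pool.Agent.H18.UP.g_pre hG (hN t t.2)).1 ?_
    rw [← hg t]
    exact hF t
  refine ⟨fun t => if h : t ∈ S then g ⟨t, h⟩ else 0, ?_, ?_, ?_⟩
  · have hGc : ContinuousOn (fun t => if h : t ∈ S then g ⟨t, h⟩ else 0) S := by
      rw [continuousOn_iff_continuous_domRestrict]
      have : S.domRestrict (fun t => if h : t ∈ S then g ⟨t, h⟩ else 0) = g := by
        funext t
        simp [Set.domRestrict]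
      rw [this]
      exact hgc
    set G : ℂ → ℂ := fun t => if h : t ∈ S then g ⟨t, h⟩ else 0 with hGd
    have hGp : ∀ t ∈ S, G t ∈ (pre a b)^[k] {H t} := by
      intro t ht
      have h4 := hgp ⟨t, ht⟩
      rw [hGd]
      simp only [ht, dif_pos]
      exact h4
    intro t ht
    have h4 := hGp t ht
    have h5 : HasStrictDerivAt (Pool.Agent.H61.TT.gg a b)^[k] (tD a b k (G t)) (G t) := bra_it (mem_pre.1 h4).1
    have h6 := h5.hasStrictFDerivAt_equiv (psl_tD hG (hN t ht) (hP t ht).2 h4)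
    have h7 := h6.eventually_left_inverse
    have h8 := h6.to_localInverse.differentiableAt
    have h9 : (Pool.Agent.H61.TT.gg a b)^[k] (G t) = H t := (mem_pre.1 h4).2
    rw [h9] at h8
    have h10 : DifferentiableAt ℂ H t := hH.differentiableAt (hSo.mem_nhds ht)
    have h11 := h8.comp t h10
    refine (h11.congr_of_eventuallyEq ?_).differentiableWithinAt
    have h12 := (hGc.continuousAt (hSo.mem_nhds ht)).eventually h7
    filter_upwards [h12, hSo.mem_nhds ht] with s hs hs2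
    have h13 : (Pool.Agent.H61.TT.gg a b)^[k] (G s) = H s := (mem_pre.1 (hGp s hs2)).2
    rw [h13] at hs
    exact hs.symm
  · simp only [hq, dif_pos]
    have h4 := hg ⟨q, hq⟩
    rw [hF1] at h4
    exact (OnePoint.coe_injective h4).symm
  · intro t ht
    simp only [ht, dif_pos]
    have h4 := mem_pre.1 (hgp ⟨t, ht⟩)
    refine ⟨⟨h4.1, ?_⟩, h4.2⟩
    have h5 : (Pool.Agent.H61.TT.gg a b)^[k] (g ⟨t, ht⟩) = H t := h4.2
    rw [h5]
    exact (hP t ht).1

end Pool.Agent.H27.BR
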