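import Pool.Agent.H27.BR.PSA
import Pool.Agent.H18.UP.SQC
import Pool.Agent.H32.BT.Branch

/-!
# THEOREM UD, chapter BR: square root coordinates at the critical points and local branches

`ps_nf`. PROOF. `sqc` (H18/UP/SQC): `δ1`; for `c ∈ J`, `Cr a b c`: `χ` on `ball c δ1` holomorphic, injective, `χ c = 0`, `gg z = gg c + χ z ^ 2`, `b z ≠ 0` there. `χ '' ball c δ1` is open (injective holomorphic; `deriv χ ≠ 0`), so it contains `ball 0 ρ_c`; `η c` = inverse of `χ` on `ball 0 ρ_c` (holomorphic, injective, `η c 0 = c`). Finitely many `c` (`cr_fin`): `ρ` = the minimum of the `ρ_c` (or `1` if there are none).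
`ps_loc`. PROOF. `f = rat a b` on the sphere (compact), continuous. Let `y0 ∈ J`. Claim: there is `s > 0` such that the conclusion holds with `ball y (s / 2)` for all `y ∈ J ∩ ball y0 (s / 2)` (in place of `ball y δ1`), and for all smaller radii. Then compactness of `J` (`hJc`) gives `δ1` (finite subcover, the minimum; the first alternative restricts to smaller balls around the same centre, the second too).
The fibre `F = f⁻¹{y0}` is finite (`f` is a nonconstant rational map: `rat_fiber_finite`-like in H44/H32/H91; or compact and discrete), `∞ ∉ F` (`Geo.inf` with `n = 1`), all its points `z` have `b z ≠ 0` and are in `J` (`Geo.back`). For `z ∈ F` with `ww z ≠ 0`: `gg` has a holomorphic local inverse `g_z` on a ball `ball y0 s_z` with values in a neighbourhood `N_z` of `z` (open) such that `g_z (gg x) = x` for `x ∈ N_z` with `gg x ∈ ball y0 s_z`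
(`HasStrictDerivAt.localInverse`). For `z = c ∈ F` with `Cr a b c`: `N_c = η c '' ball 0 ρ` (open neighbourhood of `c`), `s_c = ρ ^ 2 / 8` (`y0 = gg c`, so `ball y (s_c) ⊆ ball (gg c) (ρ ^ 2 / 4)` for `y ∈ ball y0 s_c`). The complement of `⋃ N_z` in the sphere is compact and its image under `f` is compact, does not contain `y0`: so it is disjoint from `ball y0 s'` (in the sphere: coercion).
`s = min (s', s_z, δ)`: if `y ∈ J ∩ ball y0 (s / 2)`, `z' ∈ U`, `gg z' ∈ ball y (s / 2) ⊆ ball y0 s` then `z' ∈ N_z` for some `z ∈ F`: first alternative with `g_z` restricted to `ball y (s / 2)` (`g_z (gg z') = z'`, `gg (g_z w) = w`, `b (g_z w) ≠ 0`) or second alternative.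
-/

set_option autoImplicit false

open Filter Topology Polynomial Metric Set MeasureTheory

namespace Pool.Agent.H27.BR

open Pool.Agent.H44.Fatou (rat rat_continuous rat_coe rat_coe_of_ne pt crit_coe)
open Pool.Agent.H32.BT Pool.Agent.H79.Eul Pool.Agent.H79.Par
open Pool.Agent.H35.EX Pool.Agent.H56.HR Pool.Agent.H44.RC Pool.Agent.H47.RJ
open Pool.Agent.H64.NC Pool.Agent.H61.TT Pool.Agent.H57.CP Pool.Agent.H3.NC
open Pool.Agent.H18.UP (NJ PJ Cr Geo)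

variable {d : ℕ} {a b : Polynomial ℂ} {J : Set ℂ} {δ0 : ℝ}

/-- square root coordinates -/
def NFc (a b : Polynomial ℂ) (J : Set ℂ) (η : ℂ → ℂ → ℂ) (ρ : ℝ) : Prop := ∀ c ∈ {c | c ∈ J ∧ Cr a b c},
  DifferentiableOn ℂ (η c) (ball 0 ρ) ∧ InjOn (η c) (ball 0 ρ) ∧ η c 0 = c ∧
  ∀ v ∈ ball (0 : ℂ) ρ, b.eval (η c v) ≠ 0 ∧ Pool.Agent.H61.TT.gg a b (η c v) = Pool.Agent.H61.TT.gg a b c + v ^ 2

private theorem psn_open {V : Set ℂ} (hV : IsOpen V) (hc : IsPreconnected V) {f : ℂ → ℂ}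
    (hf : DifferentiableOn ℂ f V) (hi : InjOn f V) : ∀ s ⊆ V, IsOpen s → IsOpen (f '' s) := by
  rcases V.eq_empty_or_nonempty with he | ⟨c, hcV⟩
  · intro s hs _
    rw [he, subset_empty_iff] at hs
    rw [hs, image_empty]
    exact isOpen_empty
  rcases (hf.analyticOnNhd hV).is_constant_or_isOpen hc with ⟨w, hw⟩ | h1
  · exfalso
    obtain ⟨R, hR, hb⟩ := Metric.isOpen_iff.1 hV c hcV
    have h2 : c + ((R / 2 : ℝ) : ℂ) ∈ ball c R := by
      rw [mem_ball_iff_norm, add_sub_cancel_left, Complex.norm_real,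
        Real.norm_of_nonneg (by positivity)]
      linarith
    have h3 := hi hcV (hb h2) ((hw _ hcV).trans (hw _ (hb h2)).symm)
    have h4 : ((R / 2 : ℝ) : ℂ) = 0 := by linear_combination -h3
    have h5 : R / 2 = 0 := by exact_mod_cast h4
    linarith
  · exact h1

private theorem psn_hol {V : Set ℂ} (hV : IsOpen V) (hc : IsPreconnected V) {f : ℂ → ℂ}
    (hf : DifferentiableOn ℂ f V) (hi : InjOn f V) :
    DifferentiableOn ℂ (Function.invFunOn f V) (f '' V) := by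
  have hopen := psn_open hV hc hf hi
  obtain ⟨k, hk⟩ : ∃ k, k = Function.invFunOn f V := ⟨_, rfl⟩
  rw [← hk]
  have hkmem : ∀ w ∈ f '' V, k w ∈ V := fun w hw => by
    rw [hk]
    exact Function.invFunOn_mem hw
  have hkeq : ∀ w ∈ f '' V, f (k w) = w := fun w hw => by
    rw [hk]
    exact Function.invFunOn_eq hw
  have hkg : ∀ y ∈ V, k (f y) = y := by
    intro y hy
    have hw : f y ∈ f '' V := mem_image_of_mem f hy
    exact hi (hkmem _ hw) hy (hkeq _ hw)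
  have hkc : ContinuousOn k (f '' V) := by
    rintro w ⟨y, hy, rfl⟩
    apply ContinuousAt.continuousWithinAt
    rw [ContinuousAt, hkg y hy]
    intro N hN
    obtain ⟨N', hN'N, hN'o, hyN'⟩ := _root_.mem_nhds_iff.1 hN
    have h1 : IsOpen (f '' (N' ∩ V)) := hopen _ inter_subset_right (hN'o.inter hV)
    have h2 : f y ∈ f '' (N' ∩ V) := mem_image_of_mem f ⟨hyN', hy⟩
    rw [Filter.mem_map]
    filter_upwards [h1.mem_nhds h2] with v hv
    obtain ⟨x, hx, rfl⟩ := hv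
    show k (f x) ∈ N
    rw [hkg x hx.2]
    exact hN'N hx.1
  intro w hw
  exact (Pool.Agent.H32.BT.diff_of_inverse ((hopen _ subset_rfl hV).mem_nhds hw) hkc hV
    (hkmem w hw) hf (fun v hv _ => hkeq v hv)).differentiableWithinAt

/-- the inverse of an injective holomorphic function on a disc -/
private theorem psn_inv {c : ℂ} {r : ℝ} {f : ℂ → ℂ} (hr : 0 < r) (hf : DifferentiableOn ℂ f (ball c r)) (hi : InjOn f (ball c r)) :
    ∃ (s : ℝ) (k : ℂ → ℂ), 0 < s ∧ DifferentiableOn ℂ k (ball (f c) s) ∧ InjOn k (ball (f c) s) ∧ k (f c) = c ∧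
      (∀ x ∈ ball c r, k (f x) = x) ∧ ∀ w ∈ ball (f c) s, k w ∈ ball c r ∧ f (k w) = w := by
  have hop := psn_open isOpen_ball (convex_ball c r).isPreconnected hf hi _ subset_rfl isOpen_ball
  have hc : f c ∈ f '' ball c r := mem_image_of_mem f (mem_ball_self hr)
  obtain ⟨s, hs, hsb⟩ := Metric.isOpen_iff.1 hop _ hc
  have hm : ∀ w ∈ f '' ball c r, Function.invFunOn f (ball c r) w ∈ ball c r := fun w hw => Function.invFunOn_mem hw
  have he : ∀ w ∈ f '' ball c r, f (Function.invFunOn f (ball c r) w) = w := fun w hw => Function.invFunOn_eq hw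
  have hk : ∀ x ∈ ball c r, Function.invFunOn f (ball c r) (f x) = x := by
    intro x hx
    have hw : f x ∈ f '' ball c r := mem_image_of_mem f hx
    exact hi (hm _ hw) hx (he _ hw)
  refine ⟨s, Function.invFunOn f (ball c r), hs, ?_, ?_, hk c (mem_ball_self hr), hk, fun w hw => ⟨hm w (hsb hw), he w (hsb hw)⟩⟩
  · exact (psn_hol isOpen_ball (convex_ball c r).isPreconnected hf hi).mono hsb
  · intro w hw w' hw' h
    rw [← he w (hsb hw), ← he w' (hsb hw'), h]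

theorem ps_nf (hG : Geo d a b J δ0) : ∃ (η : ℂ → ℂ → ℂ) (ρ : ℝ), 0 < ρ ∧ NFc a b J η ρ := by
  obtain ⟨δ1, hδ1, hsq⟩ := Pool.Agent.H18.UP.sqc hG
  have hfin : {c : ℂ | c ∈ J ∧ Cr a b c}.Finite := (Pool.Agent.H18.UP.cr_fin hG).subset fun c hc => hc.2
  have h1 : ∀ c : ℂ, ∃ (η : ℂ → ℂ) (ρ : ℝ), 0 < ρ ∧ (c ∈ {c : ℂ | c ∈ J ∧ Cr a b c} →
      DifferentiableOn ℂ η (ball 0 ρ) ∧ InjOn η (ball 0 ρ) ∧ η 0 = c ∧
      ∀ v ∈ ball (0 : ℂ) ρ, b.eval (η v) ≠ 0 ∧ Pool.Agent.H61.TT.gg a b (η v) = Pool.Agent.H61.TT.gg a b c + v ^ 2) := by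
    intro c
    by_cases hc : c ∈ {c : ℂ | c ∈ J ∧ Cr a b c}
    · obtain ⟨χ, hχ⟩ := hsq c hc.1 hc.2 δ1 hδ1 le_rfl
      obtain ⟨s, k, hs, k1, k2, k3, -, k4⟩ := psn_inv hχ.hr hχ.diff hχ.inj
      rw [hχ.zero] at k1 k2 k3 k4
      refine ⟨k, s, hs, fun _ => ⟨k1, k2, k3, fun v hv => ?_⟩⟩
      obtain ⟨k5, k6⟩ := k4 v hv
      refine ⟨hχ.fin _ k5, ?_⟩
      rw [hχ.sq _ k5, k6]
    · exact ⟨fun _ => 0, 1, one_pos, fun h => absurd h hc⟩
  choose η ρ hρ h1 using h1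
  have h2 : ∀ᶠ s in 𝓝[>] (0 : ℝ), ∀ c ∈ {c : ℂ | c ∈ J ∧ Cr a b c}, s ≤ ρ c := by
    rw [Filter.eventually_all_finite hfin]
    intro c _
    filter_upwards [Ioo_mem_nhdsGT (hρ c)] with s hs
    exact hs.2.le
  obtain ⟨s, h3, h4⟩ := (h2.and self_mem_nhdsWithin).exists
  have hs : 0 < s := h4
  refine ⟨η, s, hs, fun c hc => ?_⟩
  obtain ⟨k1, k2, k3, k4⟩ := h1 c hc
  have hb : ball (0 : ℂ) s ⊆ ball 0 (ρ c) := ball_subset_ball (h3 c hc)
  exact ⟨k1.mono hb, k2.mono hb, k3, fun v hv => k4 v (hb hv)⟩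

/-- the alternatives on one ball -/
private def Alt (a b : Polynomial ℂ) (J : Set ℂ) (η : ℂ → ℂ → ℂ) (ρ : ℝ) (z y : ℂ) (s : ℝ) : Prop :=
    (∃ g : ℂ → ℂ, DifferentiableOn ℂ g (ball y s) ∧ g (Pool.Agent.H61.TT.gg a b z) = z ∧
      ∀ w ∈ ball y s, g w ∈ {z | b.eval z ≠ 0} ∧ Pool.Agent.H61.TT.gg a b (g w) = w) ∨
    (∃ c ∈ {c | c ∈ J ∧ Cr a b c}, ball y s ⊆ ball (Pool.Agent.H61.TT.gg a b c) (ρ ^ 2 / 4) ∧ z ∈ η c '' ball 0 ρ)

private theorem alt_mono {η : ℂ → ℂ → ℂ} {ρ : ℝ} {z y y' : ℂ} {s s' : ℝ} (h : Alt a b J η ρ z y s) (hb : ball y' s' ⊆ ball y s) :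
    Alt a b J η ρ z y' s' := by
  rcases h with ⟨g, h1, h2, h3⟩ | ⟨c, h1, h2, h3⟩
  · exact Or.inl ⟨g, h1.mono hb, h2, fun w hw => h3 w (hb hw)⟩
  · exact Or.inr ⟨c, h1, hb.trans h2, h3⟩

private theorem psn_loc (hG : Geo d a b J δ0) {η : ℂ → ℂ → ℂ} {ρ : ℝ} (hρ : 0 < ρ) (hη : NFc a b J η ρ) {y0 : ℂ} (hy0 : y0 ∈ J) :
    ∃ s : ℝ, 0 < s ∧ ∀ z ∈ {z | b.eval z ≠ 0}, Pool.Agent.H61.TT.gg a b z ∈ ball y0 s → Alt a b J η ρ z y0 s := by
  by_contra hcon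
  push Not at hcon
  have h1 : ∀ n : ℕ, ∃ z : ℂ, b.eval z ≠ 0 ∧ Pool.Agent.H61.TT.gg a b z ∈ ball y0 (1 / ((n : ℝ) + 1)) ∧
      ¬ Alt a b J η ρ z y0 (1 / ((n : ℝ) + 1)) := by
    intro n
    obtain ⟨z, h2, h3, h4⟩ := hcon (1 / ((n : ℝ) + 1)) (by positivity)
    exact ⟨z, h2, h3, h4⟩
  choose z hzb hzy hza using h1
  have hrat : ∀ n, rat a b (z n : OnePoint ℂ) = ((Pool.Agent.H61.TT.gg a b (z n) : ℂ) : OnePoint ℂ) := fun n =>
    rat_coe_of_ne (hzb n)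
  have hs0 : Tendsto (fun n : ℕ => 1 / ((n : ℝ) + 1)) atTop (𝓝 0) := tendsto_one_div_add_atTop_nhds_zero_nat
  have hlim : Tendsto (fun n => Pool.Agent.H61.TT.gg a b (z n)) atTop (𝓝 y0) := by
    rw [tendsto_iff_dist_tendsto_zero]
    exact squeeze_zero (fun n => dist_nonneg) (fun n => (mem_ball.1 (hzy n)).le) hs0
  obtain ⟨x, hx⟩ := exists_clusterPt_of_compactSpace (map (fun n => (z n : OnePoint ℂ)) atTop)
  have hfr : ∀ U ∈ 𝓝 x, ∃ᶠ n in atTop, (z n : OnePoint ℂ) ∈ U := fun U hU =>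
    Filter.frequently_map.1 (hx.frequently hU)
  have hrx : rat a b x = (y0 : OnePoint ℂ) := by
    by_contra hne
    obtain ⟨U, W, hU, hW, hxU, hyW, hUW⟩ := t2_separation hne
    have h2 : rat a b ⁻¹' U ∈ 𝓝 x := ((rat_continuous hG.rt.cop).isOpen_preimage U hU).mem_nhds hxU
    have h3 := hfr _ h2
    have h4 : ∀ᶠ n in atTop, rat a b (z n : OnePoint ℂ) ∈ W := by
      have h5 : Tendsto (fun n => ((Pool.Agent.H61.TT.gg a b (z n) : ℂ) : OnePoint ℂ)) atTop (𝓝 (y0 : OnePoint ℂ)) :=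
        (OnePoint.continuous_coe.tendsto y0).comp hlim
      filter_upwards [h5 (hW.mem_nhds hyW)] with n hn
      rw [hrat]
      exact hn
    obtain ⟨n, h5, h6⟩ := (h3.and_eventually h4).exists
    exact hUW.le_bot ⟨h5, h6⟩
  have hyN : y0 ∈ NJ J δ0 := ⟨y0, hy0, mem_ball_self hG.hδ⟩
  have hxi : x ≠ OnePoint.infty := by
    rintro rfl
    exact hG.inf 1 y0 hyN hrx
  obtain ⟨x0, rfl⟩ := OnePoint.ne_infty_iff_exists.1 hxi
  have hpre : x0 ∈ (pre a b)^[1] {y0} := (Pool.Agent.H18.UP.g_pre hG hyN).1 hrx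
  have hbx : b.eval x0 ≠ 0 := (mem_pre.1 hpre).1 0 one_pos
  have hgx : Pool.Agent.H61.TT.gg a b x0 = y0 := (mem_pre.1 hpre).2
  have hxJ : x0 ∈ J := hG.back x0 hbx (by rw [hgx]; exact hy0)
  have hfr' : ∀ r : ℝ, 0 < r → ∃ᶠ n in atTop, z n ∈ ball x0 r := by
    intro r hr
    have h2 := hfr _ ((OnePoint.isOpenEmbedding_coe.isOpenMap _ isOpen_ball).mem_nhds
      (mem_image_of_mem _ (mem_ball_self hr)))
    refine h2.mono fun n hn => ?_
    obtain ⟨w, hw, hwn⟩ := hn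
    rwa [OnePoint.coe_injective hwn] at hw
  by_cases hw : (ww a b).eval x0 = 0
  · -- a critical point
    have hcS : x0 ∈ {c | c ∈ J ∧ Cr a b c} := ⟨hxJ, hbx, hw⟩
    obtain ⟨k1, k2, k3, -⟩ := hη x0 hcS
    have hop := psn_open isOpen_ball (convex_ball (0 : ℂ) ρ).isPreconnected k1 k2 _ subset_rfl isOpen_ball
    have hx0 : x0 ∈ η x0 '' ball 0 ρ := ⟨0, mem_ball_self hρ, k3⟩
    obtain ⟨r, hr, hrb⟩ := Metric.isOpen_iff.1 hop _ hx0
    have h2 : ∀ᶠ n : ℕ in atTop, 1 / ((n : ℝ) + 1) < ρ ^ 2 / 4 := hs0.eventually_lt_const (by positivity)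
    obtain ⟨n, h3, h4⟩ := ((hfr' r hr).and_eventually h2).exists
    refine hza n (Or.inr ⟨x0, hcS, ?_, hrb h3⟩)
    rw [hgx]
    exact ball_subset_ball h4.le
  · -- a regular point
    have hd0 : dg a b x0 ≠ 0 := div_ne_zero hw (pow_ne_zero 2 hbx)
    have h2 := (hasStrictDerivAt_gg (a := a) (b := b) hbx).hasStrictFDerivAt_equiv hd0
    have h3 := h2.eventually_left_inverse
    have h4 : ∀ᶠ x in 𝓝 x0, b.eval x ≠ 0 := b.continuous.continuousAt.eventually_ne hbx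
    obtain ⟨r, hr, hrb⟩ := Metric.eventually_nhds_iff_ball.1 (h3.and h4)
    have hi : InjOn (Pool.Agent.H61.TT.gg a b) (ball x0 r) := by
      intro x hx y hy hxy
      rw [← (hrb x hx).1, ← (hrb y hy).1, hxy]
    have hdf : DifferentiableOn ℂ (Pool.Agent.H61.TT.gg a b) (ball x0 r) := fun x hx =>
      (hasStrictDerivAt_gg (a := a) (b := b) (hrb x hx).2).hasDerivAt.differentiableAt.differentiableWithinAt
    obtain ⟨s, k, hs, k1, -, -, k2, k3⟩ := psn_inv hr hdf hi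
    rw [hgx] at k1 k3
    have h5 : ∀ᶠ n : ℕ in atTop, 1 / ((n : ℝ) + 1) < s := hs0.eventually_lt_const hs
    obtain ⟨n, h6, h7⟩ := ((hfr' r hr).and_eventually h5).exists
    have hbb : ball y0 (1 / ((n : ℝ) + 1)) ⊆ ball y0 s := ball_subset_ball h7.le
    refine hza n (Or.inl ⟨k, k1.mono hbb, k2 _ h6, fun w hw => ⟨(hrb _ (k3 w (hbb hw)).1).2, (k3 w (hbb hw)).2⟩⟩)

theorem ps_loc (hG : Geo d a b J δ0) (hJc : IsCompact J) {η : ℂ → ℂ → ℂ} {ρ : ℝ} (hρ : 0 < ρ) (hη : NFc a b J η ρ) {δ : ℝ}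
    (hδ : 0 < δ) : ∃ δ1 : ℝ, 0 < δ1 ∧ δ1 ≤ δ ∧ ∀ y ∈ J, ∀ z ∈ {z | b.eval z ≠ 0}, Pool.Agent.H61.TT.gg a b z ∈ ball y δ1 →
    (∃ g : ℂ → ℂ, DifferentiableOn ℂ g (ball y δ1) ∧ g (Pool.Agent.H61.TT.gg a b z) = z ∧
      ∀ w ∈ ball y δ1, g w ∈ {z | b.eval z ≠ 0} ∧ Pool.Agent.H61.TT.gg a b (g w) = w) ∨
    (∃ c ∈ {c | c ∈ J ∧ Cr a b c}, ball y δ1 ⊆ ball (Pool.Agent.H61.TT.gg a b c) (ρ ^ 2 / 4) ∧ z ∈ η c '' ball 0 ρ) := by
  have h1 : ∀ y : J, ∃ s : ℝ, 0 < s ∧ ∀ z ∈ {z | b.eval z ≠ 0}, Pool.Agent.H61.TT.gg a b z ∈ ball (y : ℂ) s →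
      Alt a b J η ρ z y s := fun y => psn_loc hG hρ hη y.2
  choose s hs h1 using h1
  obtain ⟨δ2, hδ2, h2⟩ := lebesgue_number_lemma_of_metric (c := fun y : J => ball (y : ℂ) (s y)) hJc
    (fun y => isOpen_ball) (fun y hy => mem_iUnion.2 ⟨⟨y, hy⟩, mem_ball_self (hs _)⟩)
  refine ⟨min δ δ2, lt_min hδ hδ2, min_le_left _ _, fun y hy z hz hzy => ?_⟩
  obtain ⟨i, hi⟩ := h2 y hy
  have h3 : ball y (min δ δ2) ⊆ ball (i : ℂ) (s i) := (ball_subset_ball (min_le_right _ _)).trans hi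
  exact alt_mono (h1 i z hz (h3 hzy)) h3

end Pool.Agent.H27.BR
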