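import Pool.Agent.H27.BR.PSA
import Pool.Agent.H18.UP.FNG

/-!
# THEOREM UD, chapter BR: transfer of uniform disconnectedness from the sphere to the chart

`P' = PJ` is contained in `JC u ⊆ closedBall 0 R`; on it `chord z w ≤ ‖z - w‖ ≤ (1 + R ^ 2) chord z w`. `UDs` at `φ⁻¹ x` with the radius `r / (K (1 + R ^ 2))`.
-/

set_option autoImplicit false

open Filter Topology Polynomial Metric Set MeasureTheory

namespace Pool.Agent.H27.BR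

open Pool.Agent.H44.Fatou (rat rat_continuous rat_coe rat_coe_of_ne pt crit_coe)
open Pool.Agent.H32.BT Pool.Agent.H79.Eul Pool.Agent.H79.Par
open Pool.Agent.H35.EX Pool.Agent.H56.HR Pool.Agent.H44.RC Pool.Agent.H47.RJ
open Pool.Agent.H47.NN Pool.Agent.H44.ND Pool.Agent.H79.ES
open Pool.Agent.H64.NC Pool.Agent.H61.TT Pool.Agent.H57.CP Pool.Agent.H3.NC
open Pool.Agent.H18.UP (NJ PJ Cr Geo CU)

variable {d : ℕ}

theorem chord_cmp {R : ℝ} {z w : ℂ} (hz : ‖z‖ ≤ R) (hw : ‖w‖ ≤ R) :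
    ‖z - w‖ ≤ (1 + R ^ 2) * chord (z : OnePoint ℂ) (w : OnePoint ℂ) := by
  have h1 : chord (z : OnePoint ℂ) (w : OnePoint ℂ) =
      ‖z - w‖ / (√(1 + ‖z‖ ^ 2) * √(1 + ‖w‖ ^ 2)) := rfl
  have hn : ∀ u : ℂ, ‖u‖ ≤ R → √(1 + ‖u‖ ^ 2) ≤ √(1 + R ^ 2) := by
    intro u hu
    refine Real.sqrt_le_sqrt ?_
    have := norm_nonneg u
    nlinarith
  have hp : ∀ u : ℂ, 0 < √(1 + ‖u‖ ^ 2) := fun u => Real.sqrt_pos.2 (by positivity)
  have h4 : √(1 + ‖z‖ ^ 2) * √(1 + ‖w‖ ^ 2) ≤ 1 + R ^ 2 := by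
    refine (mul_le_mul (hn z hz) (hn w hw) (hp w).le (Real.sqrt_nonneg _)).trans (le_of_eq ?_)
    exact Real.mul_self_sqrt (by positivity)
  rw [h1, mul_div_assoc', le_div_iff₀ (mul_pos (hp z) (hp w)), mul_comm]
  exact mul_le_mul_of_nonneg_right h4 (norm_nonneg _)

theorem udm_of {v u : E d} {φ : OnePoint ℂ ≃ₜ OnePoint ℂ} {K δ0 : ℝ} (h : CU v u φ K (JC u) δ0) {R : ℝ}
    (hR : ∀ z ∈ JC u, ‖z‖ ≤ R) (hU : UDs (Pool.Agent.H18.UP.PS (Rf v))) :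
    ∃ C : ℝ, ∀ r0 : ℝ, UDm C r0 (PJ (pol u.1) (pol u.2) (JC u)) := by
  obtain ⟨C, hC, hU⟩ := hU
  have hK : 0 < K := one_pos.trans_le h.K1
  have hB : 0 < 1 + R ^ 2 := by positivity
  have hPJ := pj_sub h.geo
  refine ⟨C * K ^ 2 * (1 + R ^ 2), fun r0 x hx r hr _ => ?_⟩
  obtain ⟨x', hx'⟩ := φ.surjective (x : OnePoint ℂ)
  have hxP : x' ∈ Pool.Agent.H18.UP.PS (Rf v) := by
    rw [← Pool.Agent.H18.UP.ps_conj h, hx']
    exact (Pool.Agent.H18.UP.ps_pj h x).2 hx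
  obtain ⟨A, hAP, hxA, hA1, hA2⟩ := hU x' hxP (r / (K * (1 + R ^ 2))) (by positivity)
  refine ⟨{z | z ∈ PJ (pol u.1) (pol u.2) (JC u) ∧ φ.symm (z : OnePoint ℂ) ∈ A}, fun z hz => hz.1, ⟨hx, ?_⟩, ?_, ?_⟩
  · rw [← hx', φ.symm_apply_apply]
    exact hxA
  · rintro z ⟨hz, hzA⟩
    have h1 := hA1 _ hzA
    have h2 : chord (x : OnePoint ℂ) (z : OnePoint ℂ) ≤ K * chord x' (φ.symm (z : OnePoint ℂ)) := by
      have h3 := (h.bil x' (φ.symm (z : OnePoint ℂ))).1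
      rwa [hx', φ.apply_symm_apply] at h3
    have h3 := chord_cmp (hR x (hPJ hx)) (hR z (hPJ hz))
    rw [norm_sub_rev]
    refine h3.trans_lt ?_
    have h4 : (1 + R ^ 2) * chord (x : OnePoint ℂ) (z : OnePoint ℂ) ≤ (1 + R ^ 2) * (K * chord x' (φ.symm (z : OnePoint ℂ))) :=
      mul_le_mul_of_nonneg_left h2 hB.le
    refine h4.trans_lt ?_
    rw [lt_div_iff₀ (by positivity)] at h1
    calc (1 + R ^ 2) * (K * chord x' (φ.symm (z : OnePoint ℂ))) = chord x' (φ.symm (z : OnePoint ℂ)) * (K * (1 + R ^ 2)) := by ring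
      _ < r := h1
  · rintro a ⟨ha, haA⟩ p hp hpA
    have hp' : φ.symm (p : OnePoint ℂ) ∈ Pool.Agent.H18.UP.PS (Rf v) := by
      rw [← Pool.Agent.H18.UP.ps_conj h, φ.apply_symm_apply]
      exact (Pool.Agent.H18.UP.ps_pj h p).2 hp
    have h1 := hA2 _ haA _ hp' (fun h0 => hpA ⟨hp, h0⟩)
    have h2 : chord (φ.symm (a : OnePoint ℂ)) (φ.symm (p : OnePoint ℂ)) ≤ K * chord (a : OnePoint ℂ) (p : OnePoint ℂ) := by
      have h3 := (h.bil (φ.symm (a : OnePoint ℂ)) (φ.symm (p : OnePoint ℂ))).2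
      rwa [φ.apply_symm_apply, φ.apply_symm_apply] at h3
    have h3 : chord (a : OnePoint ℂ) (p : OnePoint ℂ) ≤ ‖a - p‖ := Pool.Agent.H57.CF.upf_le a p
    rw [div_le_iff₀ (by positivity)] at h1
    have h4 : chord (φ.symm (a : OnePoint ℂ)) (φ.symm (p : OnePoint ℂ)) ≤ K * ‖a - p‖ :=
      h2.trans (mul_le_mul_of_nonneg_left h3 hK.le)
    calc r ≤ C * chord (φ.symm (a : OnePoint ℂ)) (φ.symm (p : OnePoint ℂ)) * (K * (1 + R ^ 2)) := h1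
      _ ≤ C * (K * ‖a - p‖) * (K * (1 + R ^ 2)) := by gcongr
      _ = C * K ^ 2 * (1 + R ^ 2) * ‖a - p‖ := by ring

end Pool.Agent.H27.BR
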