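import Pool.Agent.H27.BR.CH
import Pool.Agent.H27.BR.PSL
import Pool.Agent.H27.BR.PSE3
import Pool.Agent.H27.BR.PSN
import Pool.Agent.H27.BR.FC
import Pool.Agent.H27.BR.UDT
import Pool.Agent.H83.UP.ALL
import Pool.Agent.H64.JS.CNK

/-!
# THEOREM UD, chapter BR: the planar setting `PS` in a chart, the bridge

`ps_ga`: `PS` from `GA` and `Geo`. `geo_cd`: `Geo` in a chart `CD`. `bridge`: `PS` in the chart, and uniform disconnectedness on the sphere gives gap discs in the chart.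
-/

set_option autoImplicit false

open Filter Topology Polynomial Metric Set MeasureTheory

namespace Pool.Agent.H27.BR

open Pool.Agent.H44.Fatou (rat rat_continuous rat_coe rat_coe_of_ne pt crit_coe)
open Pool.Agent.H32.BT Pool.Agent.H79.Eul Pool.Agent.H79.Par
open Pool.Agent.H35.EX Pool.Agent.H56.HR Pool.Agent.H44.RC Pool.Agent.H47.RJ
open Pool.Agent.H47.NN Pool.Agent.H44.ND Pool.Agent.H79.ES
open Pool.Agent.H64.NC Pool.Agent.H61.TT Pool.Agent.H57.CP Pool.Agent.H3.NC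
open Pool.Agent.H18.UP (NJ PJ Cr Geo CU)
open Pool.Agent.H56.UD (dm UG)

variable {d : ℕ} {u : E d} {T : Set (OnePoint ℂ)} {δ0 : ℝ}

theorem ps_ga (h : GA u T) (hG : Geo d (pol u.1) (pol u.2) (JC u) δ0) {c : ℂ} (hcJ : c ∈ JC u)
    (hcr : Cr (pol u.1) (pol u.2) c) : ∃ (δ : ℝ) (η : ℂ → ℂ → ℂ) (ρ : ℝ),
    Pool.Agent.H56.UD.PS (Pool.Agent.H61.TT.gg (pol u.1) (pol u.2)) {z | (pol u.2).eval z ≠ 0} (JC u)
      (PJ (pol u.1) (pol u.2) (JC u)) {c | c ∈ JC u ∧ Cr (pol u.1) (pol u.2) c} δ η ρ := by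
  obtain ⟨δb, R0, hδb, hbd⟩ := ps_bd h
  obtain ⟨η, ρ, hρ, hη⟩ := ps_nf hG
  have hδ : 0 < min δb δ0 := lt_min hδb hG.hδ
  have hpre : ∀ z : ℂ, (pol u.2).eval z ≠ 0 → z ∈ (pre (pol u.1) (pol u.2))^[1] univ := fun z hz =>
    mem_pre.2 ⟨fun i hi => by
      obtain rfl : i = 0 := by omega
      exact hz, mem_univ _⟩
  refine ⟨min δb δ0, η, ρ, hδ, isOpen_ne_fun (pol u.2).continuous continuous_const, ?_, jc_comp h, jc_nt h ⟨c, hcJ⟩,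
    fun z hz => h.bne hz, fun z hz => h.jg hz, fun z hz => hG.back z hz, jc_int h, isClosed_closure, ?_, pj_sub hG, ?_, ?_,
    ?_, ps_leo h, ?_, fun c hc => hc.1, ?_, hρ, hη, ps_loc hG (jc_comp h) hρ hη hδ⟩
  · exact (pol u.1).differentiable.differentiableOn.div (pol u.2).differentiable.differentiableOn fun z hz => hz
  · exact ⟨_, Pool.Agent.H18.UP.p_cr hcJ hcr one_pos (hpre c hcr.1)⟩
  · intro z hz
    exact Pool.Agent.H18.UP.p_inv hG hz (n := 1) (hpre z (h.bne (pj_sub hG hz)))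
  · refine ⟨R0, fun k => ?_⟩
    refine Subset.trans ?_ (hbd k)
    rw [dm_pre, dm_pre]
    exact Pool.Agent.H18.UP.pre_mono (thickening_mono (min_le_left _ _) _)
  · exact fun k S H q z hS hSo hH hP hq hz he => ps_lift hG (min_le_right _ _) k S H q z hS hSo hH hP hq hz he
  · exact (Pool.Agent.H18.UP.cr_fin hG).subset fun c hc => hc.2
  · intro c hc
    exact Pool.Agent.H18.UP.p_cr hc.1 hc.2 one_pos (hpre c hc.2.1)

theorem geo_cd {v : E d} {φ : OnePoint ℂ ≃ₜ OnePoint ℂ} {K : ℝ} {D : ℕ} (h : CD v u φ K T D) {c : ℂ}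
    (hc : IsCrit (Rf u) (c : OnePoint ℂ)) (hcJ : (c : OnePoint ℂ) ∈ JS (Rf u)) :
    ∃ δ0 : ℝ, Geo d (pol u.1) (pol u.2) (JC u) δ0 := by
  obtain ⟨δ0, hG, -⟩ := Pool.Agent.H83.UP.all_ga h.ga h.hD h.wd hc hcJ h.lg h.mot
  exact ⟨δ0, hG⟩

theorem cu_cd {v : E d} {φ : OnePoint ℂ ≃ₜ OnePoint ℂ} {K : ℝ} {D : ℕ} (h : CD v u φ K T D)
    (hG : Geo d (pol u.1) (pol u.2) (JC u) δ0) : CU v u φ K (JC u) δ0 := by
  have hinf : OnePoint.infty ∉ JS (Rf u) := fun hn => hn h.ga.fi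
  refine ⟨Pool.Agent.H18.UP.k_one h.bil, h.bil, h.conj, hG, fun z => Iff.rfl, fun c _ hc => ?_, Or.inr hinf⟩
  have h1 : c ≠ OnePoint.infty := fun e => hinf (e ▸ hc)
  obtain ⟨z, hz⟩ := OnePoint.ne_infty_iff_exists.1 h1
  exact ⟨z, hz.symm⟩

/-- the bridge -/
theorem bridge {v : E d} {φ : OnePoint ℂ ≃ₜ OnePoint ℂ} {K : ℝ} {D : ℕ} (h : CD v u φ K T D) {c : ℂ}
    (hc : IsCrit (Rf u) (c : OnePoint ℂ)) (hcJ : (c : OnePoint ℂ) ∈ JS (Rf u)) :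
    ∃ (P Cr : Set ℂ) (δ ρ : ℝ) (η : ℂ → ℂ → ℂ),
      Pool.Agent.H56.UD.PS (Pool.Agent.H61.TT.gg (pol u.1) (pol u.2)) {z | (pol u.2).eval z ≠ 0} (JC u) P Cr δ η ρ ∧
      (UDs (Pool.Agent.H64.JS.KJ {c | IsCrit (Rf v) c} (JS (Rf v)) (Rf v)) →
        ∃ θ C r0 : ℝ, 0 < θ ∧ θ < 1 ∧ 1 ≤ C ∧ 0 < r0 ∧ UG θ C r0 P) := by
  obtain ⟨δ0, hG⟩ := geo_cd h hc hcJ
  have hb : (pol u.2).eval c ≠ 0 := h.ga.bne hcJ
  have hcr : Cr (pol u.1) (pol u.2) c := ⟨hb, (Pool.Agent.H18.UP.crit_iff hG hb).1 hc⟩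
  obtain ⟨δ, η, ρ, hPS⟩ := ps_ga h.ga hG hcJ hcr
  refine ⟨_, _, δ, ρ, η, hPS, fun hU => ?_⟩
  obtain ⟨R, hR⟩ := (jc_comp h.ga).isBounded.exists_norm_le
  obtain ⟨C, hC⟩ := udm_of (cu_cd h hG) hR hU
  obtain ⟨θ, C', h1, h2, h3, h4⟩ := ug_of (hC 1)
  exact ⟨θ, C', 1, h1, h2, h3, one_pos, h4⟩

end Pool.Agent.H27.BR
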