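import Mathlib

/-!
# THEOREM UD, chapter BR (gap discs): integrals over polygons and primitives

A polygon is a list of oriented segments `(a, b)`. `sg g a b`: the integral of `g` over the segment. `ig g L`: the integral of `g` over the list. `bd F L`: the sum of the `F b - F a`. `Ad V L`: all segments are in `V`. `Cy L`: `L` is a cycle: `bd F L = 0` for all functions `F`.
PROOFS. `ig_prim`: fundamental theorem of calculus on each segment: `t ↦ G (a + t (b - a))` has the derivative `(b - a) * g (a + t (b - a))` (`intervalIntegral.integral_eq_sub_of_hasDerivAt`; `g` is continuous on the segment as it is the derivative of `G` near the segment: `hg`).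
`join`: the set of the `z ∈ V` for which such a list `L` exists (`bd F L = F z - F x` for all `F`) contains `x` (empty list); it is open in `V` and its complement in `V` is open: if `ball z ε ⊆ V` then `z'` in the ball is reachable iff `z` is (add the segment `(z, z')` or `(z', z)`; balls are convex). `V` is preconnected: it is all of `V` (`IsPreconnected.subset_of_closure_inter_subset` or `isPreconnected_iff_subset_of_disjoint`).
`prim`: fix `x ∈ V` (if `V` is empty there is nothing to prove); `F z = ig g (L z)` with `L z` from `join` (choice). For `z, z' ∈ V` with `segment ℝ z z' ⊆ V`: the list `L z' ++ (z', z) :: reverse of L z` (all segments reversed: `(b, a)`) is a cycle in `V`, so `F z' - F z = sg g z z'` (`sg g b a = - sg g a b`). On `ball z ε ⊆ V` `g` has a primitive `G` (`DifferentiableOn.isExactOn_ball`, Mathlib.Analysis.Complex.HasPrimitives), so `F = F z + G - G z` on the ball (`ig_prim` for one segment): `HasDerivAt F (g z) z`.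
-/

set_option autoImplicit false

open Filter Topology Metric Set

namespace Pool.Agent.H27.BR

/-- the integral over a segment -/
noncomputable def sg (g : ℂ → ℂ) (a b : ℂ) : ℂ := (b - a) * ∫ t in (0 : ℝ)..1, g (a + t * (b - a))

/-- the integral over a list of segments -/
noncomputable def ig (g : ℂ → ℂ) (L : List (ℂ × ℂ)) : ℂ := (L.map fun p => sg g p.1 p.2).sum

/-- the boundary -/
def bd (F : ℂ → ℂ) (L : List (ℂ × ℂ)) : ℂ := (L.map fun p => F p.2 - F p.1).sum

/-- the segments are in `V` -/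
def Ad (V : Set ℂ) (L : List (ℂ × ℂ)) : Prop := ∀ p ∈ L, segment ℝ p.1 p.2 ⊆ V

/-- cycles -/
def Cy (L : List (ℂ × ℂ)) : Prop := ∀ F : ℂ → ℂ, bd F L = 0

private theorem sgm {a b : ℂ} {t : ℝ} (h0 : 0 ≤ t) (h1 : t ≤ 1) : a + t * (b - a) ∈ segment ℝ a b := by
  rw [segment_eq_image']
  exact ⟨t, ⟨h0, h1⟩, by
    show a + t • (b - a) = a + t * (b - a)
    rw [Complex.real_smul]⟩

private theorem sg_prim {V : Set ℂ} {g G : ℂ → ℂ} (hG : ∀ z ∈ V, HasDerivAt G (g z) z) (hg : ContinuousOn g V)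
    {a b : ℂ} (h : segment ℝ a b ⊆ V) : sg g a b = G b - G a := by
  have hm : ∀ t ∈ Set.uIcc (0 : ℝ) 1, a + t * (b - a) ∈ V := by
    intro t ht
    rw [Set.uIcc_of_le zero_le_one] at ht
    exact h (sgm ht.1 ht.2)
  have hc : Continuous fun t : ℝ => a + (t : ℂ) * (b - a) := by fun_prop
  have hd : ∀ t ∈ Set.uIcc (0 : ℝ) 1,
      HasDerivAt (fun t : ℝ => G (a + t * (b - a))) ((b - a) * g (a + t * (b - a))) t := by
    intro t ht
    have h1 : HasDerivAt (fun t : ℝ => a + (t : ℂ) * (b - a)) (1 * (b - a)) t :=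
      ((hasDerivAt_id t).ofReal_comp.mul_const (b - a)).const_add a
    rw [one_mul] at h1
    exact HasDerivAt.scomp t (hG _ (hm t ht)) h1
  have hi : IntervalIntegrable (fun t : ℝ => (b - a) * g (a + t * (b - a))) MeasureTheory.volume 0 1 := by
    refine ContinuousOn.intervalIntegrable ?_
    exact continuousOn_const.mul (hg.comp hc.continuousOn hm)
  have h2 := intervalIntegral.integral_eq_sub_of_hasDerivAt hd hi
  unfold sg
  rw [← intervalIntegral.integral_const_mul, h2]
  simp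

private theorem sg_swap (g : ℂ → ℂ) (a b : ℂ) : sg g b a = -sg g a b := by
  unfold sg
  have h1 : ∫ t in (0 : ℝ)..1, g (b + t * (a - b)) = ∫ t in (0 : ℝ)..1, g (a + t * (b - a)) := by
    have h2 := intervalIntegral.integral_comp_sub_left (a := 0) (b := 1)
      (fun t : ℝ => g (a + (t : ℂ) * (b - a))) (1 : ℝ)
    rw [sub_self, sub_zero] at h2
    rw [← h2]
    congr 1
    funext t
    congr 1
    push_cast
    ring
  rw [h1]
  ring

private theorem ig_nil (g : ℂ → ℂ) : ig g [] = 0 := rfl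

private theorem ig_cons (g : ℂ → ℂ) (p : ℂ × ℂ) (L : List (ℂ × ℂ)) : ig g (p :: L) = sg g p.1 p.2 + ig g L := by
  unfold ig
  rw [List.map_cons, List.sum_cons]

private theorem bd_cons (F : ℂ → ℂ) (p : ℂ × ℂ) (L : List (ℂ × ℂ)) : bd F (p :: L) = F p.2 - F p.1 + bd F L := by
  unfold bd
  rw [List.map_cons, List.sum_cons]

private theorem ig_append (g : ℂ → ℂ) (L L' : List (ℂ × ℂ)) : ig g (L ++ L') = ig g L + ig g L' := by
  unfold ig
  rw [List.map_append, List.sum_append]

private theorem bd_append (F : ℂ → ℂ) (L L' : List (ℂ × ℂ)) : bd F (L ++ L') = bd F L + bd F L' := by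
  unfold bd
  rw [List.map_append, List.sum_append]

private theorem Ad_append {V : Set ℂ} {L L' : List (ℂ × ℂ)} (h : Ad V L) (h' : Ad V L') : Ad V (L ++ L') := by
  intro p hp
  rcases List.mem_append.1 hp with h1 | h1
  · exact h p h1
  · exact h' p h1

private theorem Ad_one {V : Set ℂ} {a b : ℂ} (h : segment ℝ a b ⊆ V) : Ad V [(a, b)] := by
  intro p hp
  rw [List.mem_singleton] at hp
  rw [hp]
  exact h

private def rv (L : List (ℂ × ℂ)) : List (ℂ × ℂ) := L.map fun p => (p.2, p.1)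

private theorem ig_rv (g : ℂ → ℂ) (L : List (ℂ × ℂ)) : ig g (rv L) = -ig g L := by
  induction L with
  | nil => simp [rv, ig]
  | cons p L ih =>
    have h : rv (p :: L) = (p.2, p.1) :: rv L := rfl
    rw [h, ig_cons, ig_cons, ih]
    show sg g p.2 p.1 + -ig g L = _
    rw [sg_swap]
    ring

private theorem bd_rv (F : ℂ → ℂ) (L : List (ℂ × ℂ)) : bd F (rv L) = -bd F L := by
  induction L with
  | nil => simp [rv, bd]
  | cons p L ih =>
    have h : rv (p :: L) = (p.2, p.1) :: rv L := rfl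
    rw [h, bd_cons, bd_cons, ih]
    show F p.1 - F p.2 + -bd F L = _
    ring

private theorem Ad_rv {V : Set ℂ} {L : List (ℂ × ℂ)} (h : Ad V L) : Ad V (rv L) := by
  intro p hp
  obtain ⟨q, hq, rfl⟩ := List.mem_map.1 hp
  show segment ℝ q.2 q.1 ⊆ V
  rw [segment_symm]
  exact h q hq

theorem ig_prim {V : Set ℂ} (ho : IsOpen V) {g G : ℂ → ℂ} (hG : ∀ z ∈ V, HasDerivAt G (g z) z) (hg : ContinuousOn g V)
    {L : List (ℂ × ℂ)} (hL : Ad V L) : ig g L = bd G L := by
  unfold ig bd
  congr 1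
  exact List.map_congr_left fun p hp => sg_prim hG hg (hL p hp)

theorem join {V : Set ℂ} (ho : IsOpen V) (hc : IsPreconnected V) {x z : ℂ} (hx : x ∈ V) (hz : z ∈ V) :
    ∃ L : List (ℂ × ℂ), Ad V L ∧ ∀ F : ℂ → ℂ, bd F L = F z - F x := by
  obtain ⟨u, hu⟩ : ∃ u : Set ℂ, u = {z | z ∈ V ∧ ∃ L : List (ℂ × ℂ), Ad V L ∧ ∀ F : ℂ → ℂ, bd F L = F z - F x} :=
    ⟨_, rfl⟩
  have hmem : ∀ z, z ∈ u ↔ z ∈ V ∧ ∃ L : List (ℂ × ℂ), Ad V L ∧ ∀ F : ℂ → ℂ, bd F L = F z - F x := by
    intro z
    rw [hu]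
    rfl
  have hstep : ∀ a b : ℂ, a ∈ u → b ∈ V → segment ℝ a b ⊆ V → b ∈ u := by
    intro a b ha hb hab
    obtain ⟨-, L, hL, hL2⟩ := (hmem a).1 ha
    refine (hmem b).2 ⟨hb, L ++ [(a, b)], Ad_append hL (Ad_one hab), fun F => ?_⟩
    rw [bd_append, hL2, bd_cons]
    show F a - F x + (F b - F a + bd F []) = F b - F x
    have h1 : bd F [] = 0 := rfl
    rw [h1]
    ring
  have hxu : x ∈ u := by
    refine (hmem x).2 ⟨hx, [], fun p hp => absurd hp List.not_mem_nil, fun F => ?_⟩
    have h1 : bd F [] = 0 := rfl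
    rw [h1, sub_self]
  have huo : IsOpen u := by
    rw [Metric.isOpen_iff]
    intro a ha
    obtain ⟨ε, hε, hb⟩ := Metric.isOpen_iff.1 ho a ((hmem a).1 ha).1
    refine ⟨ε, hε, fun b hb2 => hstep a b ha (hb hb2) ?_⟩
    exact ((convex_ball a ε).segment_subset (mem_ball_self hε) hb2).trans hb
  have hcl : closure u ∩ V ⊆ u := by
    rintro b ⟨hb1, hb2⟩
    obtain ⟨ε, hε, hb⟩ := Metric.isOpen_iff.1 ho b hb2
    obtain ⟨a, ha, hab⟩ := Metric.mem_closure_iff.1 hb1 ε hε
    refine hstep a b ha hb2 ?_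
    refine ((convex_ball b ε).segment_subset ?_ (mem_ball_self hε)).trans hb
    rw [mem_ball']
    exact hab
  have hsub := hc.subset_of_closure_inter_subset huo ⟨x, hx, hxu⟩ hcl
  exact ((hmem z).1 (hsub hz)).2

theorem prim {V : Set ℂ} (ho : IsOpen V) (hc : IsPreconnected V) {g : ℂ → ℂ} (hg : DifferentiableOn ℂ g V)
    (h0 : ∀ L : List (ℂ × ℂ), Ad V L → Cy L → ig g L = 0) : ∃ F : ℂ → ℂ, ∀ z ∈ V, HasDerivAt F (g z) z := by
  rcases V.eq_empty_or_nonempty with hV | ⟨x, hx⟩
  · exact ⟨fun _ => 0, fun z hz => by rw [hV] at hz; exact absurd hz (Set.notMem_empty z)⟩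
  have hex : ∀ z : ℂ, ∃ L : List (ℂ × ℂ), z ∈ V → Ad V L ∧ ∀ F : ℂ → ℂ, bd F L = F z - F x := by
    intro z
    by_cases hz : z ∈ V
    · obtain ⟨L, hL⟩ := join ho hc hx hz
      exact ⟨L, fun _ => hL⟩
    · exact ⟨[], fun h => absurd h hz⟩
  choose L hL using hex
  have key : ∀ z z' : ℂ, z ∈ V → z' ∈ V → segment ℝ z z' ⊆ V → ig g (L z') = ig g (L z) + sg g z z' := by
    intro z z' hz hz' hs
    obtain ⟨h1, h2⟩ := hL z hz
    obtain ⟨h3, h4⟩ := hL z' hz'
    have h5 := h0 (L z ++ (z, z') :: rv (L z')) (by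
      refine Ad_append h1 (Ad_append (L := [(z, z')]) (Ad_one hs) (Ad_rv h3))) (by
      intro F
      rw [bd_append, bd_cons, bd_rv, h2, h4]
      ring)
    rw [ig_append, ig_cons, ig_rv] at h5
    linear_combination -h5
  refine ⟨fun z => ig g (L z), fun z hz => ?_⟩
  obtain ⟨ε, hε, hb⟩ := Metric.isOpen_iff.1 ho z hz
  obtain ⟨G, hG⟩ := (hg.mono hb).isExactOn_ball
  have hev : (fun w => ig g (L w)) =ᶠ[𝓝 z] fun w => G w + (ig g (L z) - G z) := by
    filter_upwards [ball_mem_nhds z hε] with w hw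
    have hs : segment ℝ z w ⊆ ball z ε := (convex_ball z ε).segment_subset (mem_ball_self hε) hw
    rw [key z w hz (hb hw) (hs.trans hb), sg_prim hG (hg.mono hb).continuousOn hs]
    ring
  exact ((hG z (mem_ball_self hε)).add_const _).congr_of_eventuallyEq hev

end Pool.Agent.H27.BR
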