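import Pool.Agent.H27.BR.CY

/-!
# THEOREM UD, chapter BR (gap discs): Cauchy integrals over cycles, winding numbers

`ig_dif`: differentiation under the integral: `g` is continuous on the segments, `w0` is not on the segments. For one segment: `∫ t in 0..1, g (a + t (b - a)) / (a + t (b - a) - w)`: `intervalIntegral.hasDerivAt_integral_of_dominated_loc_of_deriv_le` on a ball around `w0` of half the distance of `w0` to the segments (compact, closed): the derivative of the integrand in `w` is `g (..) / (.. - w) ^ 2`, bounded. The derivative is `ig (fun z => g z / (z - w0) ^ 2) L`.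
`wn_lc`: the derivative of `n w = ig (fun z => 1 / (z - w)) L` at every `w` off the segments is `ig (fun z => 1 / (z - w) ^ 2) L = 0` by `ig_prim` on the open set `{w}ᶜ` (primitive `z ↦ - 1 / (z - w)`) and `Cy L`. So `n` is constant on a small ball around `w0` (convex: `Convex.is_const_of_fderivWithin_eq_zero` or `IsOpen.is_const_of_deriv_eq_zero`).
`wn0`: `V` bounded with preconnected complement, `L` a cycle in `V`, `T` the union of its segments (compact, `T ⊆ V`). `n` is locally constant on the open set `Tᶜ ⊇ Vᶜ`, so constant on the preconnected set `Vᶜ` (if `n w1 ≠ n w2` for two points of `Vᶜ`: the sets `{w ∈ Tᶜ | n w = n w1}` and `{w ∈ Tᶜ | n w ≠ n w1}` are open and disjoint, cover `Vᶜ` and both meet it).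
`n w → 0` for `w → ∞` (`‖1 / (z - w)‖ ≤ 1 / (‖w‖ - R)` for `z ∈ T ⊆ ball 0 R`), and `Vᶜ` contains all `w` of large norm: `n = 0` on `Vᶜ`. `ig_le`: bound.
-/

set_option autoImplicit false

open Filter Topology Metric Set

namespace Pool.Agent.H27.BR

private theorem sgm {a b : ℂ} {t : ℝ} (h0 : 0 ≤ t) (h1 : t ≤ 1) : a + t * (b - a) ∈ segment ℝ a b := by
  rw [segment_eq_image']
  exact ⟨t, ⟨h0, h1⟩, by
    show a + t • (b - a) = a + t * (b - a)
    rw [Complex.real_smul]⟩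

private theorem ct (a b : ℂ) : Continuous fun t : ℝ => a + (t : ℂ) * (b - a) := by fun_prop

private theorem cpt (a b : ℂ) : IsCompact (segment ℝ a b) := by
  rw [segment_eq_image']
  refine isCompact_Icc.image_of_continuousOn (Continuous.continuousOn ?_)
  fun_prop

private theorem con {g : ℂ → ℂ} {a b : ℂ} (hg : ContinuousOn g (segment ℝ a b)) :
    ContinuousOn (fun t : ℝ => g (a + t * (b - a))) (Set.uIcc 0 1) := by
  refine hg.comp (ct a b).continuousOn fun t ht => ?_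
  rw [Set.uIcc_of_le zero_le_one] at ht
  exact sgm ht.1 ht.2

private theorem ig_cons (g : ℂ → ℂ) (p : ℂ × ℂ) (L : List (ℂ × ℂ)) : ig g (p :: L) = sg g p.1 p.2 + ig g L := by
  unfold ig
  rw [List.map_cons, List.sum_cons]

private theorem sg_le {g : ℂ → ℂ} {a b : ℂ} {M : ℝ} (hM : ∀ z ∈ segment ℝ a b, ‖g z‖ ≤ M) :
    ‖sg g a b‖ ≤ M * ‖b - a‖ := by
  unfold sg
  rw [norm_mul]
  have h1 : ‖∫ t in (0 : ℝ)..1, g (a + t * (b - a))‖ ≤ M * |1 - 0| := by
    refine intervalIntegral.norm_integral_le_of_norm_le_const fun t ht => ?_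
    rw [Set.uIoc_of_le zero_le_one] at ht
    exact hM _ (sgm ht.1.le ht.2)
  rw [sub_zero, abs_one, mul_one] at h1
  rw [mul_comm]
  exact mul_le_mul_of_nonneg_right h1 (norm_nonneg _)

theorem ig_le {g : ℂ → ℂ} {L : List (ℂ × ℂ)} {M : ℝ} (hM : ∀ p ∈ L, ∀ z ∈ segment ℝ p.1 p.2, ‖g z‖ ≤ M) :
    ‖ig g L‖ ≤ M * (L.map fun p => ‖p.2 - p.1‖).sum := by
  induction L with
  | nil => simp [ig]
  | cons p L ih =>
    rw [ig_cons, List.map_cons, List.sum_cons, mul_add]
    exact (norm_add_le _ _).trans (add_le_add (sg_le (hM p List.mem_cons_self))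
      (ih fun q hq => hM q (List.mem_cons_of_mem _ hq)))

theorem ig_add {f g : ℂ → ℂ} {L : List (ℂ × ℂ)} (hf : ∀ p ∈ L, ContinuousOn f (segment ℝ p.1 p.2))
    (hg : ∀ p ∈ L, ContinuousOn g (segment ℝ p.1 p.2)) : ig (fun z => f z + g z) L = ig f L + ig g L := by
  induction L with
  | nil => simp [ig]
  | cons p L ih =>
    rw [ig_cons, ig_cons, ig_cons, ih (fun q hq => hf q (List.mem_cons_of_mem _ hq))
      (fun q hq => hg q (List.mem_cons_of_mem _ hq))]
    have h1 : sg (fun z => f z + g z) p.1 p.2 = sg f p.1 p.2 + sg g p.1 p.2 := by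
      unfold sg
      rw [intervalIntegral.integral_add (con (hf p List.mem_cons_self)).intervalIntegrable
        (con (hg p List.mem_cons_self)).intervalIntegrable, mul_add]
    rw [h1]
    ring

theorem ig_smul (c : ℂ) (g : ℂ → ℂ) (L : List (ℂ × ℂ)) : ig (fun z => c * g z) L = c * ig g L := by
  induction L with
  | nil => simp [ig]
  | cons p L ih =>
    rw [ig_cons, ig_cons, ih]
    have h1 : sg (fun z => c * g z) p.1 p.2 = c * sg g p.1 p.2 := by
      unfold sg
      rw [intervalIntegral.integral_const_mul]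
      ring
    rw [h1]
    ring

theorem ig_congr {f g : ℂ → ℂ} {L : List (ℂ × ℂ)} (h : ∀ p ∈ L, ∀ z ∈ segment ℝ p.1 p.2, f z = g z) : ig f L = ig g L := by
  unfold ig
  congr 1
  refine List.map_congr_left fun p hp => ?_
  unfold sg
  congr 1
  refine intervalIntegral.integral_congr fun t ht => ?_
  rw [Set.uIcc_of_le zero_le_one] at ht
  exact h p hp _ (sgm ht.1 ht.2)

private theorem off {a b w0 : ℂ} (hw : w0 ∉ segment ℝ a b) : ∃ ε : ℝ, 0 < ε ∧ ∀ z ∈ segment ℝ a b,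
    ∀ w ∈ ball w0 (ε / 2), ε / 2 ≤ ‖z - w‖ := by
  obtain ⟨ε, hε, hb⟩ := Metric.isOpen_iff.1 (cpt a b).isClosed.isOpen_compl w0 hw
  refine ⟨ε, hε, fun z hz w hw2 => ?_⟩
  have h1 : ε ≤ ‖z - w0‖ := by
    by_contra h2
    push Not at h2
    exact hb (mem_ball_iff_norm.2 h2) hz
  rw [mem_ball_iff_norm] at hw2
  have h3 : z - w0 = (z - w) + (w - w0) := by ring
  have h4 := norm_add_le (z - w) (w - w0)
  rw [← h3] at h4
  linarith

private theorem sg_dif {g : ℂ → ℂ} {a b : ℂ} (hg : ContinuousOn g (segment ℝ a b)) {w0 : ℂ}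
    (hw : w0 ∉ segment ℝ a b) :
    HasDerivAt (fun w => sg (fun z => g z / (z - w)) a b) (sg (fun z => g z / (z - w0) ^ 2) a b) w0 := by
  obtain ⟨ε, hε, hb⟩ := off hw
  obtain ⟨M, hM⟩ := (cpt a b).exists_bound_of_continuousOn hg
  have hM0 : 0 ≤ M := (norm_nonneg _).trans (hM a (left_mem_segment ℝ a b))
  have hne : ∀ z ∈ segment ℝ a b, ∀ w ∈ ball w0 (ε / 2), z - w ≠ 0 := by
    intro z hz w hw2
    have h1 := hb z hz w hw2
    have h2 : 0 < ‖z - w‖ := by linarith
    exact norm_pos_iff.1 h2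
  have hc1 : ∀ w ∈ ball w0 (ε / 2), ContinuousOn (fun t : ℝ => g (a + t * (b - a)) / (a + t * (b - a) - w))
      (Set.uIcc 0 1) := by
    intro w hw2
    exact con (g := fun z => g z / (z - w)) (hg.div (continuousOn_id.sub continuousOn_const)
      fun z hz => hne z hz w hw2)
  have hc2 : ∀ w ∈ ball w0 (ε / 2), ContinuousOn (fun t : ℝ => g (a + t * (b - a)) / (a + t * (b - a) - w) ^ 2)
      (Set.uIcc 0 1) := by
    intro w hw2
    exact con (g := fun z => g z / (z - w) ^ 2) (hg.div ((continuousOn_id.sub continuousOn_const).pow 2)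
      fun z hz => pow_ne_zero 2 (hne z hz w hw2))
  have hw0 : w0 ∈ ball w0 (ε / 2) := mem_ball_self (half_pos hε)
  have h1 := intervalIntegral.hasDerivAt_integral_of_dominated_loc_of_deriv_le (μ := MeasureTheory.volume)
    (a := 0) (b := 1) (x₀ := w0) (s := ball w0 (ε / 2))
    (F := fun w t => g (a + (t : ℂ) * (b - a)) / (a + (t : ℂ) * (b - a) - w))
    (F' := fun w t => g (a + (t : ℂ) * (b - a)) / (a + (t : ℂ) * (b - a) - w) ^ 2)
    (bound := fun _ => M / (ε / 2) ^ 2) (ball_mem_nhds w0 (half_pos hε)) (by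
      filter_upwards [ball_mem_nhds w0 (half_pos hε)] with w hw2
      exact (intervalIntegrable_iff.1 (hc1 w hw2).intervalIntegrable).aestronglyMeasurable)
    (hc1 w0 hw0).intervalIntegrable
    (intervalIntegrable_iff.1 (hc2 w0 hw0).intervalIntegrable).aestronglyMeasurable (by
      refine MeasureTheory.ae_of_all _ fun t ht w hw2 => ?_
      rw [Set.uIoc_of_le zero_le_one] at ht
      have h2 := sgm (a := a) (b := b) ht.1.le ht.2
      have h3 := hb _ h2 w hw2
      have h4 := hM _ h2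
      rw [norm_div, norm_pow]
      have h5 : 0 < ε / 2 := half_pos hε
      gcongr)
    intervalIntegrable_const (by
      refine MeasureTheory.ae_of_all _ fun t ht w hw2 => ?_
      rw [Set.uIoc_of_le zero_le_one] at ht
      have h2 := sgm (a := a) (b := b) ht.1.le ht.2
      have h3 := hne _ h2 w hw2
      have h4 := (hasDerivAt_const w (g (a + (t : ℂ) * (b - a)))).div
        ((hasDerivAt_id w).const_sub (a + (t : ℂ) * (b - a))) h3
      refine h4.congr_deriv ?_
      simp)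
  exact h1.2.const_mul (b - a)

theorem ig_dif {g : ℂ → ℂ} {L : List (ℂ × ℂ)} (hg : ∀ p ∈ L, ContinuousOn g (segment ℝ p.1 p.2)) {w0 : ℂ}
    (hw : ∀ p ∈ L, w0 ∉ segment ℝ p.1 p.2) :
    HasDerivAt (fun w => ig (fun z => g z / (z - w)) L) (ig (fun z => g z / (z - w0) ^ 2) L) w0 := by
  induction L with
  | nil =>
    have h1 : ∀ h : ℂ → ℂ, ig h [] = 0 := fun _ => rfl
    simp only [h1]
    exact hasDerivAt_const w0 0
  | cons p L ih =>
    simp only [ig_cons]
    exact (sg_dif (hg p List.mem_cons_self) (hw p List.mem_cons_self)).add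
      (ih (fun q hq => hg q (List.mem_cons_of_mem _ hq)) (fun q hq => hw q (List.mem_cons_of_mem _ hq)))

private theorem off_open (L : List (ℂ × ℂ)) : IsOpen {w : ℂ | ∀ p ∈ L, w ∉ segment ℝ p.1 p.2} := by
  induction L with
  | nil =>
    have h : {w : ℂ | ∀ p ∈ ([] : List (ℂ × ℂ)), w ∉ segment ℝ p.1 p.2} = Set.univ := by
      ext w
      simp
    rw [h]
    exact isOpen_univ
  | cons p L ih =>
    have h : {w : ℂ | ∀ q ∈ p :: L, w ∉ segment ℝ q.1 q.2} =
        (segment ℝ p.1 p.2)ᶜ ∩ {w : ℂ | ∀ q ∈ L, w ∉ segment ℝ q.1 q.2} := by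
      ext w
      constructor
      · intro h1
        exact ⟨h1 p List.mem_cons_self, fun q hq => h1 q (List.mem_cons_of_mem _ hq)⟩
      · rintro ⟨h1, h2⟩ q hq
        rcases List.mem_cons.1 hq with h3 | h3
        · rw [h3]
          exact h1
        · exact h2 q h3
    rw [h]
    exact (cpt _ _).isClosed.isOpen_compl.inter ih

theorem wn_lc {L : List (ℂ × ℂ)} (hC : Cy L) {w0 : ℂ} (hw : ∀ p ∈ L, w0 ∉ segment ℝ p.1 p.2) :
    ∀ᶠ w in 𝓝 w0, ig (fun z => 1 / (z - w)) L = ig (fun z => 1 / (z - w0)) L := by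
  obtain ⟨ε, hε, hb⟩ := Metric.isOpen_iff.1 (off_open L) w0 hw
  have hd : ∀ w ∈ ball w0 ε, HasDerivAt (fun w => ig (fun z => 1 / (z - w)) L) 0 w := by
    intro w hwb
    have h1 := ig_dif (g := fun _ => (1 : ℂ)) (L := L) (fun p _ => continuousOn_const) (hb hwb)
    have h2 : ig (fun z => 1 / (z - w) ^ 2) L = bd (fun z => -(z - w)⁻¹) L := by
      refine ig_prim (V := {w}ᶜ) isOpen_compl_singleton (fun z hz => ?_) ?_ ?_
      · have h3 : z - w ≠ 0 := sub_ne_zero.2 hz
        have h4 := (((hasDerivAt_id z).sub_const w).fun_inv h3).neg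
        refine h4.congr_deriv ?_
        show -(-1 / (z - w) ^ 2) = 1 / (z - w) ^ 2
        rw [neg_div, neg_neg]
      · refine continuousOn_const.div ((continuousOn_id.sub continuousOn_const).pow 2) fun z hz => ?_
        exact pow_ne_zero 2 (sub_ne_zero.2 hz)
      · intro p hp z hz hzw
        rw [Set.mem_singleton_iff] at hzw
        exact hb hwb p hp (hzw ▸ hz)
    rw [h2, hC] at h1
    exact h1
  filter_upwards [ball_mem_nhds w0 hε] with w hwb
  refine IsOpen.is_const_of_deriv_eq_zero (𝕜 := ℂ) isOpen_ball (convex_ball w0 ε).isPreconnected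
    (fun v hv => (hd v hv).differentiableAt.differentiableWithinAt) (fun v hv => (hd v hv).deriv) hwb
    (mem_ball_self hε)

theorem wn0 {V : Set ℂ} (hb : Bornology.IsBounded V) (hcc : IsPreconnected Vᶜ) {L : List (ℂ × ℂ)} (hL : Ad V L) (hC : Cy L) :
    ∀ w ∈ Vᶜ, ig (fun z => 1 / (z - w)) L = 0 := by
  intro w1 hw1
  by_contra hne
  obtain ⟨n, hn⟩ : ∃ n : ℂ → ℂ, n = fun w => ig (fun z => 1 / (z - w)) L := ⟨_, rfl⟩
  have hT : ∀ w ∈ Vᶜ, ∀ p ∈ L, w ∉ segment ℝ p.1 p.2 := fun w hw p hp h => hw (hL p hp h)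
  have hlc : ∀ w0 : ℂ, (∀ p ∈ L, w0 ∉ segment ℝ p.1 p.2) → ∀ᶠ w in 𝓝 w0, n w = n w0 := by
    intro w0 hw0
    rw [hn]
    exact wn_lc hC hw0
  have hopen : ∀ S : Set ℂ, IsOpen {w : ℂ | (∀ p ∈ L, w ∉ segment ℝ p.1 p.2) ∧ n w ∈ S} := by
    intro S
    rw [isOpen_iff_mem_nhds]
    rintro w0 ⟨h1, h2⟩
    filter_upwards [hlc w0 h1, (off_open L).mem_nhds h1] with w h3 h4
    refine ⟨h4, ?_⟩
    rw [h3]
    exact h2
  have hall : Vᶜ ⊆ {w : ℂ | (∀ p ∈ L, w ∉ segment ℝ p.1 p.2) ∧ n w ∈ ({n w1} : Set ℂ)} := by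
    refine IsPreconnected.subset_left_of_subset_union (hopen {n w1}) (hopen {n w1}ᶜ) ?_ ?_ ?_ hcc
    · rw [Set.disjoint_left]
      rintro w ⟨-, h1⟩ ⟨-, h2⟩
      exact h2 h1
    · intro w hw
      by_cases h1 : n w ∈ ({n w1} : Set ℂ)
      · exact Or.inl ⟨hT w hw, h1⟩
      · exact Or.inr ⟨hT w hw, h1⟩
    · exact ⟨w1, hw1, hT w1 hw1, rfl⟩
  obtain ⟨R0, hR0⟩ := hb.subset_closedBall (0 : ℂ)
  obtain ⟨R, hR⟩ : ∃ R : ℝ, R = max R0 0 := ⟨_, rfl⟩
  have hRR : R0 ≤ R := hR ▸ le_max_left _ _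
  have hR00 : 0 ≤ R := hR ▸ le_max_right _ _
  have hVR : ∀ z ∈ V, ‖z‖ ≤ R := fun z hz => (mem_closedBall_zero_iff.1 (hR0 hz)).trans hRR
  have hn1 : 0 < ‖n w1‖ := by
    rw [hn]
    exact norm_pos_iff.2 hne
  obtain ⟨ℓ, hℓ⟩ : ∃ ℓ : ℝ, ℓ = (L.map fun p => ‖p.2 - p.1‖).sum := ⟨_, rfl⟩
  have hℓ0 : 0 ≤ ℓ := by
    rw [hℓ]
    refine List.sum_nonneg fun x hx => ?_
    obtain ⟨p, -, rfl⟩ := List.mem_map.1 hx
    exact norm_nonneg _
  obtain ⟨s, hs⟩ : ∃ s : ℝ, s = (ℓ + 1) / ‖n w1‖ := ⟨_, rfl⟩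
  have hs0 : 0 < s := by
    rw [hs]
    positivity
  have hw2 : ((R + s : ℝ) : ℂ) ∈ Vᶜ := by
    intro h1
    have h2 := hVR _ h1
    rw [Complex.norm_real, Real.norm_of_nonneg (by linarith)] at h2
    linarith
  have h3 : n ((R + s : ℝ) : ℂ) = n w1 := (hall hw2).2
  have h4 : ‖n ((R + s : ℝ) : ℂ)‖ ≤ 1 / s * ℓ := by
    rw [hn, hℓ]
    refine ig_le fun p hp z hz => ?_
    have h5 : ‖z‖ ≤ R := hVR z (hL p hp hz)
    have h6 : s ≤ ‖z - ((R + s : ℝ) : ℂ)‖ := by
      have h7 := norm_sub_norm_le ((R + s : ℝ) : ℂ) z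
      rw [Complex.norm_real, Real.norm_of_nonneg (by linarith), norm_sub_rev] at h7
      linarith
    rw [norm_div, norm_one]
    exact one_div_le_one_div_of_le hs0 h6
  rw [h3, hs, one_div_div, div_mul_eq_mul_div, le_div_iff₀ (by linarith)] at h4
  nlinarith

end Pool.Agent.H27.BR
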