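import Pool.Agent.H56.UD.Defs
import Pool.Agent.H83.UP.PD
import Pool.Agent.H83.UP.MLN
import Pool.Agent.H18.UP.FNC

/-!
# THEOREM UD, chapter BR (bridge): definitions

`CD`: a chart of `Rf v` (Julia set not the sphere): infinity in the interior of a trap (`GA`, H64/NC/NSA), Lagrange identity of degree `D`, motions of the repelling cycles in the directions `z ^ j / b ^ 2` (`MOT`, H83/UP/PD).
`UDm`: uniformly disconnected subsets of the plane; `UDs`: uniformly disconnected subsets of the sphere (David and Semmes). `SqV`: holomorphic square roots. `TJ δ`: the `δ`-neighbourhood of the Julia set.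
-/

set_option autoImplicit false

open Filter Topology Polynomial Metric Set MeasureTheory

namespace Pool.Agent.H27.BR

open Pool.Agent.H44.Fatou (rat rat_continuous rat_coe rat_coe_of_ne pt crit_coe)
open Pool.Agent.H32.BT Pool.Agent.H79.Eul Pool.Agent.H79.Par
open Pool.Agent.H35.EX Pool.Agent.H56.HR Pool.Agent.H44.RC Pool.Agent.H47.RJ
open Pool.Agent.H47.NN Pool.Agent.H44.ND Pool.Agent.H79.ES
open Pool.Agent.H64.NC Pool.Agent.H61.TT Pool.Agent.H57.CP Pool.Agent.H3.NC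
open Pool.Agent.H83.UP (MOT PP)

variable {d : ℕ}

/-- a chart -/
structure CD (v u : E d) (φ : OnePoint ℂ ≃ₜ OnePoint ℂ) (K : ℝ) (T : Set (OnePoint ℂ)) (D : ℕ) : Prop where
  bil : ∀ x y, chord (φ x) (φ y) ≤ K * chord x y ∧ chord x y ≤ K * chord (φ x) (φ y)
  conj : ∀ x, Rf u (φ x) = φ (Rf v x)
  ga : GA u T
  hD : 1 ≤ D
  wd : (Pool.Agent.H61.TT.ww (pol u.1) (pol u.2)).natDegree ≤ D + 1
  lg : ∀ x : ℂ, RegV d (pol u.1) (pol u.2) x → ∃ η : Polynomial ℂ, η.natDegree ≤ D ∧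
    ∀ z : ℂ, (pol u.2).eval z ≠ 0 → Pool.Agent.H61.TT.gg (pol u.1) (pol u.2) z ≠ x →
    ∑ y ∈ fs (pol u.1) (pol u.2) x, dg (pol u.1) (pol u.2) z / ((y - z) * dg (pol u.1) (pol u.2) y ^ 2) =
      1 / (x - Pool.Agent.H61.TT.gg (pol u.1) (pol u.2) z) + η.eval z / (pol u.2).eval z ^ 2
  mot : ∀ η : Polynomial ℂ, η.natDegree ≤ D → ∃ (r R : ℝ) (F : ℂ → ℂ → ℂ), MOT (pol u.1) (pol u.2) (PP u) η r R F

/-- uniformly disconnected below the scale `r0`, in the plane -/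
def UDm (C r0 : ℝ) (P : Set ℂ) : Prop := ∀ x ∈ P, ∀ r : ℝ, 0 < r → r < r0 → ∃ A ⊆ P, x ∈ A ∧ (∀ a ∈ A, ‖a - x‖ < r) ∧
  ∀ a ∈ A, ∀ p ∈ P, p ∉ A → r ≤ C * ‖a - p‖

/-- uniformly disconnected subsets of the sphere -/
def UDs (P : Set (OnePoint ℂ)) : Prop := ∃ C : ℝ, 0 < C ∧ ∀ x ∈ P, ∀ r : ℝ, 0 < r → ∃ A ⊆ P, x ∈ A ∧
  (∀ a ∈ A, chord x a < r) ∧ ∀ a ∈ A, ∀ p ∈ P, p ∉ A → r ≤ C * chord a p

/-- functions without zeros have square roots -/
def SqV (V : Set ℂ) : Prop := ∀ h : ℂ → ℂ, DifferentiableOn ℂ h V → (∀ z ∈ V, h z ≠ 0) →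
  ∃ k : ℂ → ℂ, DifferentiableOn ℂ k V ∧ ∀ z ∈ V, k z ^ 2 = h z

end Pool.Agent.H27.BR
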