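import Pool.Agent.H27.BR.Defs

/-!
# THEOREM UD, chapter BR: the Julia set in the chart, basic facts

`jc_comp`, `jc_nt`, `jc_int`: the Julia set `JC u` is compact, without isolated points, with empty interior. `dm_pre`: dictionary. `ps_bd`: bound for the backward orbits.
PROOFS. `jc_comp`: `GA.cl`, `GA.bd` with `n = 0`. `jc_nt`: `js_perfect` (H47/RJ/JPF). `jc_int`: if a ball `B` is in `JC u` then all images of `B` (in the sphere) are in `JS (Rf u)`; `exc_fin` (H47/RJ/COV): they cover the sphere up to finitely many points; `FS (Rf u)` is open and contains infinity, so it is infinite: contradiction. `dm_pre`: `mem_pre`. `nj_th`: definitions.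
`ps_bd`: `GA.bd`. `pj_sub`: as `fnd_J` (private in H18/UP/FND). `cd_bk`: `fs_iff`.
-/

set_option autoImplicit false

open Filter Topology Polynomial Metric Set MeasureTheory

namespace Pool.Agent.H27.BR

open Pool.Agent.H44.Fatou (rat rat_continuous rat_coe rat_coe_of_ne pt crit_coe)
open Pool.Agent.H32.BT Pool.Agent.H79.Eul Pool.Agent.H79.Par
open Pool.Agent.H35.EX Pool.Agent.H56.HR Pool.Agent.H44.RC Pool.Agent.H47.RJ
open Pool.Agent.H47.NN Pool.Agent.H44.ND Pool.Agent.H79.ES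
open Pool.Agent.H64.NC Pool.Agent.H61.TT Pool.Agent.H57.CP Pool.Agent.H3.NC
open Pool.Agent.H18.UP (NJ PJ Cr Geo)
open Pool.Agent.H56.UD (dm)

variable {d : ℕ} {u : E d} {T : Set (OnePoint ℂ)} {δ0 : ℝ}

theorem jc_comp (h : GA u T) : IsCompact (JC u) := by
  obtain ⟨δ, R0, hδ, hbd⟩ := h.bd
  refine (isCompact_closedBall (0 : ℂ) R0).of_isClosed_subset h.cl fun z hz => ?_
  obtain ⟨z', hz', hz1⟩ := hbd 0 (z : OnePoint ℂ) ⟨z, hz, z, mem_ball_self hδ, rfl⟩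
  rw [OnePoint.coe_injective hz', mem_closedBall_zero_iff]
  exact hz1

theorem jc_nt (h : GA u T) (hn : (JC u).Nonempty) : (JC u).Nontrivial := by
  obtain ⟨y, hy⟩ := hn
  have h1 := Pool.Agent.H47.RJ.js_perfect (v := u) h.hd h.cop h.deg (y := (y : OnePoint ℂ)) hy one_pos
  obtain ⟨x, hx, hxy⟩ := h1.exists_notMem_finite (finite_singleton (y : OnePoint ℂ))
  have hxi : x ≠ OnePoint.infty := by
    rintro rfl
    exact hx.1 h.fi
  obtain ⟨z, rfl⟩ := OnePoint.ne_infty_iff_exists.1 hxi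
  refine ⟨y, hy, z, hx.1, fun e => hxy ?_⟩
  rw [e]
  rfl

theorem jc_int (h : GA u T) : interior (JC u) = ∅ := by
  rw [eq_empty_iff_forall_notMem]
  intro y hy
  have hBo : IsOpen (((↑) : ℂ → OnePoint ℂ) '' interior (JC u)) :=
    OnePoint.isOpenEmbedding_coe.isOpenMap _ isOpen_interior
  have hfin := Pool.Agent.H47.RJ.exc_fin (v := u) h.hd h.cop h.deg hBo
    ⟨(y : OnePoint ℂ), ⟨y, hy, rfl⟩, (interior_subset hy : y ∈ JC u)⟩
  have hsub : FS (Rf u) ⊆ {x | ∀ j : ℕ, x ∉ (Rf u)^[j] '' (((↑) : ℂ → OnePoint ℂ) '' interior (JC u))} := by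
    rintro x hx j ⟨_, ⟨z, hz, rfl⟩, rfl⟩
    exact h.js j (x := (z : OnePoint ℂ)) (interior_subset hz : z ∈ JC u) hx
  have hFo : IsOpen (FS (Rf u)) := Pool.Agent.H47.RJ.fs_open _
  have hpre : IsOpen {z : ℂ | (z : OnePoint ℂ) ∈ FS (Rf u)} := hFo.preimage OnePoint.continuous_coe
  obtain ⟨R, hR, hRT⟩ := h.rad
  have h1 : ((R + 1 : ℝ) : ℂ) ∈ {z : ℂ | (z : OnePoint ℂ) ∈ FS (Rf u)} := by
    refine h.af _ (h.tr.att _ (hRT _ ?_))
    rw [Complex.norm_real, Real.norm_eq_abs, abs_of_pos (by linarith)]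
    linarith
  have hinf : {z : ℂ | (z : OnePoint ℂ) ∈ FS (Rf u)}.Infinite :=
    infinite_of_mem_nhds _ (hpre.mem_nhds h1)
  refine hinf ((hfin.subset hsub).preimage OnePoint.coe_injective.injOn)

theorem nj_th (J : Set ℂ) (δ : ℝ) : NJ J δ = thickening δ J := by
  ext w
  rw [mem_thickening_iff]
  rfl

theorem dm_pre {a b : Polynomial ℂ} {J : Set ℂ} {δ : ℝ} {k : ℕ} :
    dm (Pool.Agent.H61.TT.gg a b) {z | b.eval z ≠ 0} J δ k = (pre a b)^[k] (thickening δ J) := by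
  ext z
  rw [mem_pre]
  rfl

theorem ps_bd (h : GA u T) : ∃ δ R0 : ℝ, 0 < δ ∧ ∀ k : ℕ,
    dm (Pool.Agent.H61.TT.gg (pol u.1) (pol u.2)) {z | (pol u.2).eval z ≠ 0} (JC u) δ k ⊆ ball 0 R0 := by
  obtain ⟨δ, R0, hδ, hbd⟩ := h.bd
  refine ⟨δ, R0 + 1, hδ, fun k z hz => ?_⟩
  rw [dm_pre, mem_pre] at hz
  obtain ⟨h1, h2⟩ := hz
  obtain ⟨y, hy, hyz⟩ := mem_thickening_iff.1 h2
  have h3 : (Rf u)^[k] (z : OnePoint ℂ) = (((Pool.Agent.H61.TT.gg (pol u.1) (pol u.2))^[k] z : ℂ) : OnePoint ℂ) :=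
    rat_it h1 k le_rfl
  obtain ⟨z', hz', hz1⟩ := hbd k (z : OnePoint ℂ) ⟨y, hy, _, mem_ball.2 hyz, h3⟩
  rw [OnePoint.coe_injective hz', mem_ball_zero_iff]
  linarith

theorem pj_sub {a b : Polynomial ℂ} {J : Set ℂ} (h : Geo d a b J δ0) : PJ a b J ⊆ J := by
  refine closure_minimal ?_ h.Jc
  rintro y ⟨c, hc, -, n, -, hcn, rfl⟩
  have h1 := (mem_pre.1 hcn).1
  have h2 : ∀ i ≤ n, (Pool.Agent.H61.TT.gg a b)^[i] c ∈ J := by
    intro i
    induction i with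
    | zero => exact fun _ => hc
    | succ i ih =>
      intro hi
      rw [Function.iterate_succ_apply']
      exact h.Ji _ (ih (by omega)) (h1 i (by omega))
  exact h2 n le_rfl

end Pool.Agent.H27.BR
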