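import Pool.Agent.H27.BR.PSA
import Pool.Agent.H84.TE.LAN3
import Pool.Agent.H79.Par.PerFin

/-!
# THEOREM UD, chapter BR: iterates which omit three values have bounded derivatives

`f = Rf u` on the sphere, `g = gg a b`, `a = pol u.1`, `b = pol u.2`, `J = JC u`.
`om3`. PROOF. `e i = pt (α i) (β i)`, `(α i, β i) ≠ 0`, `α i β j - α j β i ≠ 0` for `i ≠ j` (see `m3_ch`, H47/RJ/M3M, which does exactly this for the iterates: copy): `lan3` (H84/TE/LAN3) with constant functions at the centre `y`, radius `ρ`, applied to the polynomials `(R_n, S_n) = perRS a b n` (`perRS_spec`: `f^[n] z = pt (R_n z) (S_n z)`, not both zero): `C` with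
`‖R_n' S_n - R_n S_n'‖ ≤ C (‖R_n‖ ^ 2 + ‖S_n‖ ^ 2)` at `y`, for all `n` such that `f^[n]` omits the `e i` on the ball. `y ∈ J`: the orbit is in `J` (`GA.git`), bounded by `R0`: `S_n y ≠ 0`, `‖R_n y‖ ≤ R0 ‖S_n y‖`; near `y` `g^[n] = R_n / S_n`, so `tD a b n y = (R_n' S_n - R_n S_n') / S_n ^ 2` (`g_diff`-like, `bra_it`): `‖tD a b n y‖ ≤ C (1 + R0 ^ 2)`.
`tdi`. PROOF. `y ∈ J` periodic: `tD (p k + i) y = (tD p y) ^ k * tD i y` for `i < p`; `1 < ‖tD p y‖` (`GA.rep`); `tD i y ≠ 0` as it divides `tD p y` (product over the cycle).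
-/

set_option autoImplicit false

open Filter Topology Polynomial Metric Set MeasureTheory

namespace Pool.Agent.H27.BR

open Pool.Agent.H44.Fatou (rat rat_continuous rat_coe rat_coe_of_ne pt crit_coe)
open Pool.Agent.H32.BT Pool.Agent.H79.Eul Pool.Agent.H79.Par
open Pool.Agent.H35.EX Pool.Agent.H56.HR Pool.Agent.H44.RC Pool.Agent.H47.RJ
open Pool.Agent.H47.NN Pool.Agent.H44.ND Pool.Agent.H79.ES
open Pool.Agent.H64.NC Pool.Agent.H61.TT Pool.Agent.H57.CP Pool.Agent.H3.NC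

variable {d : ℕ} {u : E d} {T : Set (OnePoint ℂ)}

private theorem p1_eq {x y x' y' : ℂ} (h : x ≠ 0 ∨ y ≠ 0) (h' : x' ≠ 0 ∨ y' ≠ 0)
    (he : x * y' = x' * y) : pt x y = pt x' y' := by
  apply Pool.Agent.H91.Fatou.chord_eq_zero
  rw [Pool.Agent.H91.Fatou.chord_pt h h', he, sub_self, norm_zero, zero_div]

/-- the derivative of the iterate in homogeneous coordinates -/
private theorem p1_td (h : GA u T) {y : ℂ} (hy : y ∈ JC u) (n : ℕ) :
    (perRS (pol u.1) (pol u.2) n).2.eval y ≠ 0 ∧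
    (perRS (pol u.1) (pol u.2) n).1.eval y = (Pool.Agent.H61.TT.gg (pol u.1) (pol u.2))^[n] y *
      (perRS (pol u.1) (pol u.2) n).2.eval y ∧
    tD (pol u.1) (pol u.2) n y * (perRS (pol u.1) (pol u.2) n).2.eval y ^ 2 =
      deriv (fun z => (perRS (pol u.1) (pol u.2) n).1.eval z) y * (perRS (pol u.1) (pol u.2) n).2.eval y -
      (perRS (pol u.1) (pol u.2) n).1.eval y * deriv (fun z => (perRS (pol u.1) (pol u.2) n).2.eval z) y := by
  have hbne : ∀ i, (pol u.2).eval ((Pool.Agent.H61.TT.gg (pol u.1) (pol u.2))^[i] y) ≠ 0 := fun i =>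
    h.bne (h.git hy i).1
  have hmem : y ∈ (pre (pol u.1) (pol u.2))^[n] univ := mem_pre.2 ⟨fun i _ => hbne i, mem_univ _⟩
  have hopen : IsOpen ((pre (pol u.1) (pol u.2))^[n] (univ : Set ℂ)) := Pool.Agent.H18.UP.pre_open isOpen_univ
  have key : ∀ z ∈ (pre (pol u.1) (pol u.2))^[n] (univ : Set ℂ),
      (perRS (pol u.1) (pol u.2) n).2.eval z ≠ 0 ∧ (Pool.Agent.H61.TT.gg (pol u.1) (pol u.2))^[n] z =
        (perRS (pol u.1) (pol u.2) n).1.eval z / (perRS (pol u.1) (pol u.2) n).2.eval z := by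
    intro z hz
    have h1 := rat_it (mem_pre.1 hz).1 n le_rfl
    rw [(perRS_spec h.cop z n).2] at h1
    unfold pt at h1
    split_ifs at h1 with h2
    · exact absurd h1 (OnePoint.infty_ne_coe _)
    · exact ⟨h2, (OnePoint.coe_injective h1).symm⟩
  obtain ⟨hS, hg⟩ := key y hmem
  refine ⟨hS, ?_, ?_⟩
  · rw [hg, div_mul_cancel₀ _ hS]
  · have h1 := (bra_it (a := pol u.1) (b := pol u.2) (n := n) (z := y) fun i _ => hbne i).hasDerivAt
    have h2 : HasDerivAt (fun z => (perRS (pol u.1) (pol u.2) n).1.eval z)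
        (deriv (fun z => (perRS (pol u.1) (pol u.2) n).1.eval z) y) y :=
      (Polynomial.differentiable _ y).hasDerivAt
    have h3 : HasDerivAt (fun z => (perRS (pol u.1) (pol u.2) n).2.eval z)
        (deriv (fun z => (perRS (pol u.1) (pol u.2) n).2.eval z) y) y :=
      (Polynomial.differentiable _ y).hasDerivAt
    have h4 := h2.div h3 hS
    have h5 : (Pool.Agent.H61.TT.gg (pol u.1) (pol u.2))^[n] =ᶠ[𝓝 y]
        fun z => (perRS (pol u.1) (pol u.2) n).1.eval z / (perRS (pol u.1) (pol u.2) n).2.eval z := by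
      filter_upwards [hopen.mem_nhds hmem] with z hz
      exact (key z hz).2
    have h6 := h1.unique (h4.congr_of_eventuallyEq h5)
    rw [h6, div_mul_cancel₀ _ (pow_ne_zero 2 hS)]

theorem om3 (h : GA u T) {y : ℂ} (hy : y ∈ JC u) {ρ : ℝ} (hρ : 0 < ρ) {e : Fin 3 → OnePoint ℂ} (he : Function.Injective e) :
    ∃ C : ℝ, ∀ n : ℕ, (∀ z ∈ ball y ρ, ∀ i, (Rf u)^[n] (z : OnePoint ℂ) ≠ e i) → ‖tD (pol u.1) (pol u.2) n y‖ ≤ C := by
  choose p hps hpe using fun i => Pool.Agent.H91.Fatou.exists_rep (e i)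
  have hpne : ∀ i, (p i).1 ≠ 0 ∨ (p i).2 ≠ 0 := fun i => Pool.Agent.H91.Fatou.ne_of_sphere (hps i)
  have hD : ∀ i j, i ≠ j → (p i).1 * (p j).2 - (p j).1 * (p i).2 ≠ 0 := by
    intro i j hij h0
    apply hij
    apply he
    rw [← hpe i, ← hpe j]
    exact p1_eq (hpne i) (hpne j) (sub_eq_zero.1 h0)
  obtain ⟨C, hC⟩ := Pool.Agent.H84.TE.lan3 (x := y) hρ (α := fun i _ => (p i).1)
    (β := fun i _ => (p i).2) (fun i => differentiableOn_const _) (fun i => differentiableOn_const _)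
    (fun i j hij z _ => hD i j hij)
  obtain ⟨δ0, R0, hδ0, hbd⟩ := h.bd
  have hJ : ∀ z ∈ JC u, ‖z‖ ≤ R0 := by
    intro z hz
    obtain ⟨z', h1, h2⟩ := hbd 0 (z : OnePoint ℂ) ⟨z, hz, z, mem_ball_self hδ0, rfl⟩
    rwa [← OnePoint.coe_injective h1] at h2
  refine ⟨|C| * (R0 ^ 2 + 1), fun n hn => ?_⟩
  obtain ⟨hS, hR, ht⟩ := p1_td h hy n
  have h1 := hC (fun t => (perRS (pol u.1) (pol u.2) n).1.eval t)
    (fun t => (perRS (pol u.1) (pol u.2) n).2.eval t)
    (Polynomial.differentiable _).differentiableOn (Polynomial.differentiable _).differentiableOn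
    (by
      intro i t ht h0
      apply hn t ht i
      have h2 : (Rf u)^[n] (t : OnePoint ℂ) = pt ((perRS (pol u.1) (pol u.2) n).1.eval t)
        ((perRS (pol u.1) (pol u.2) n).2.eval t) := (perRS_spec h.cop t n).2
      rw [h2, ← hpe i]
      refine p1_eq (perRS_spec h.cop t n).1 (hpne i) ?_
      linear_combination h0)
  rw [← ht, norm_mul, norm_pow, hR, norm_mul, mul_pow] at h1
  have hS2 : 0 < ‖(perRS (pol u.1) (pol u.2) n).2.eval y‖ ^ 2 := by
    have := norm_pos_iff.2 hS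
    positivity
  have h2 := hJ _ (h.git hy n).1
  have h3 : ‖(Pool.Agent.H61.TT.gg (pol u.1) (pol u.2))^[n] y‖ ^ 2 ≤ R0 ^ 2 :=
    pow_le_pow_left₀ (norm_nonneg _) h2 2
  have h4 : ‖tD (pol u.1) (pol u.2) n y‖ * ‖(perRS (pol u.1) (pol u.2) n).2.eval y‖ ^ 2 ≤
      |C| * (R0 ^ 2 + 1) * ‖(perRS (pol u.1) (pol u.2) n).2.eval y‖ ^ 2 := by
    refine h1.trans ?_
    calc C * (‖(Pool.Agent.H61.TT.gg (pol u.1) (pol u.2))^[n] y‖ ^ 2 *
          ‖(perRS (pol u.1) (pol u.2) n).2.eval y‖ ^ 2 + ‖(perRS (pol u.1) (pol u.2) n).2.eval y‖ ^ 2)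
        ≤ |C| * (‖(Pool.Agent.H61.TT.gg (pol u.1) (pol u.2))^[n] y‖ ^ 2 *
          ‖(perRS (pol u.1) (pol u.2) n).2.eval y‖ ^ 2 + ‖(perRS (pol u.1) (pol u.2) n).2.eval y‖ ^ 2) :=
          mul_le_mul_of_nonneg_right (le_abs_self C) (by positivity)
      _ = |C| * ((‖(Pool.Agent.H61.TT.gg (pol u.1) (pol u.2))^[n] y‖ ^ 2 + 1) *
          ‖(perRS (pol u.1) (pol u.2) n).2.eval y‖ ^ 2) := by ring
      _ ≤ |C| * ((R0 ^ 2 + 1) * ‖(perRS (pol u.1) (pol u.2) n).2.eval y‖ ^ 2) := by gcongr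
      _ = _ := by ring
  exact le_of_mul_le_mul_right h4 hS2

theorem tdi (h : GA u T) {y : ℂ} (hy : y ∈ JC u) {p : ℕ} (hp : 0 < p) (hpy : (Pool.Agent.H61.TT.gg (pol u.1) (pol u.2))^[p] y = y) :
    Tendsto (fun n => ‖tD (pol u.1) (pol u.2) n y‖) atTop atTop := by
  have hrep := h.rep y hy p hp hpy
  have hk : ∀ k : ℕ, (Pool.Agent.H61.TT.gg (pol u.1) (pol u.2))^[p * k] y = y ∧
      tD (pol u.1) (pol u.2) (p * k) y = tD (pol u.1) (pol u.2) p y ^ k := by
    intro k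
    induction k with
    | zero =>
      refine ⟨rfl, ?_⟩
      rw [mul_zero, pow_zero]
      unfold tD
      rw [Finset.range_zero, Finset.prod_empty]
    | succ k ih =>
      refine ⟨?_, ?_⟩
      · rw [Nat.mul_succ, Function.iterate_add_apply, hpy, ih.1]
      · rw [Nat.mul_succ, tD_add, ih.1, ih.2, pow_succ]
  have hne : ∀ i < p, tD (pol u.1) (pol u.2) i y ≠ 0 := by
    intro i hi h0
    have h1 := tD_add (a := pol u.1) (b := pol u.2) i (p - i) y
    rw [Nat.add_sub_cancel' hi.le, h0, zero_mul] at h1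
    rw [h1, norm_zero] at hrep
    linarith
  obtain ⟨i0, hi0, hmin⟩ := Finset.exists_min_image (Finset.range p) (fun i => ‖tD (pol u.1) (pol u.2) i y‖)
    ⟨0, Finset.mem_range.2 hp⟩
  have hpos : 0 < ‖tD (pol u.1) (pol u.2) i0 y‖ := norm_pos_iff.2 (hne i0 (Finset.mem_range.1 hi0))
  have hT1 : Tendsto (fun n : ℕ => ‖tD (pol u.1) (pol u.2) p y‖ ^ (n / p) * ‖tD (pol u.1) (pol u.2) i0 y‖)
      atTop atTop :=
    ((tendsto_pow_atTop_atTop_of_one_lt hrep).comp (Nat.tendsto_div_const_atTop hp.ne')).atTop_mul_const hpos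
  refine tendsto_atTop_mono (fun n => ?_) hT1
  have h1 : tD (pol u.1) (pol u.2) n y = tD (pol u.1) (pol u.2) p y ^ (n / p) *
      tD (pol u.1) (pol u.2) (n % p) y := by
    have h2 := tD_add (a := pol u.1) (b := pol u.2) (p * (n / p)) (n % p) y
    rw [Nat.div_add_mod, (hk _).1, (hk _).2] at h2
    exact h2
  rw [h1, norm_mul, norm_pow]
  exact mul_le_mul_of_nonneg_left (hmin _ (Finset.mem_range.2 (Nat.mod_lt _ hp))) (by positivity)

end Pool.Agent.H27.BR
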