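import Mathlib

/-!
# THEOREM UD, chapter BR (gap discs): the domain `V` around a point of the interior of a compact set `K`

PROOF. `K` is nonempty; choose `R0 > 0` with `K ⊆ closedBall 0 R0`. The set `O = (closedBall 0 R0)ᶜ` is connected and unbounded (image of the convex set `{(s, t) : R0 < s}` under `s * exp (t I)`). Let `W` be the connected component of `Kᶜ` which contains `O` (`connectedComponentIn Kᶜ z0`, `z0 ∈ O`), `E = closure W`: `W` is open (components of open sets of `ℂ` are open: `IsOpen.connectedComponentIn`) and connected, `E` is closed and connected.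
`x ∉ E`: `interior K` is open and disjoint from `W`. `V = connectedComponentIn Eᶜ x`: open, preconnected, `x ∈ V`.
FRONTIER. Let `z ∈ frontier V`, so `z ∈ closure V`, `z ∉ V`. If `z ∉ E` the component of `z` in `Eᶜ` is open, so it meets `V`, so it is `V`: contradiction. So `z ∈ E = closure W`. `z ∉ W`: `W` is open and disjoint from `V`. `z ∈ K`: otherwise the component of `z` in `Kᶜ` is open and meets `W`, so it is `W`. `z ∉ interior K` as `interior K` is disjoint from `closure W`. So `z ∈ K \ interior K = frontier K`.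
COMPLEMENT. `Vᶜ` is preconnected: fix `e ∈ E`. Every `z ∈ Vᶜ` is in a connected subset of `Vᶜ` which contains `e` (`isPreconnected_of_forall`): if `z ∈ E` take `E`. Otherwise let `V'` be the component of `z` in `Eᶜ`: open, disjoint from `V` (two components are equal or disjoint), so `closure V'` is disjoint from `V`; `closure V'` meets `E`: otherwise `closure V'` is a connected subset of `Eᶜ`, so `closure V' = V'` is open and closed, `V' = univ` (`ℂ` is connected), but `E` is nonempty. So `E ∪ closure V'` is connected (`IsPreconnected.union`).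
BALLS. Let `K ⊆ closedBall c R`. `(closedBall c R)ᶜ` is connected (`R ≥ 0` as `K` is nonempty), disjoint from `K` and meets `O` (both contain all points of large norm), so it is contained in `W ⊆ E`. So `V ⊆ Eᶜ ⊆ closedBall c R`.
-/

set_option autoImplicit false

open Filter Topology Metric Set

namespace Pool.Agent.H27.BR

theorem out_con (c : ℂ) (R : ℝ) (hR : 0 ≤ R) : IsPreconnected (closedBall c R)ᶜ := by
  have h1 : Convex ℝ {p : ℝ × ℝ | R < p.1} :=
    (convex_Ioi R).is_linear_preimage (LinearMap.fst ℝ ℝ ℝ).isLinear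
  have h2 : (closedBall c R)ᶜ =
      (fun p : ℝ × ℝ => c + (p.1 : ℂ) * Complex.exp ((p.2 : ℂ) * Complex.I)) '' {p | R < p.1} := by
    ext z
    constructor
    · intro hz
      have h3 : R < ‖z - c‖ := by
        by_contra h
        exact hz (by
          rw [mem_closedBall, dist_eq_norm]
          exact not_lt.1 h)
      refine ⟨(‖z - c‖, (z - c).arg), h3, ?_⟩
      change c + ((‖z - c‖ : ℝ) : ℂ) * Complex.exp (((z - c).arg : ℂ) * Complex.I) = z
      rw [Complex.norm_mul_exp_arg_mul_I, add_sub_cancel]
    · rintro ⟨⟨s, t⟩, hs, rfl⟩ hz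
      have hs' : R < s := hs
      rw [mem_closedBall, dist_eq_norm, add_sub_cancel_left, norm_mul, Complex.norm_exp_ofReal_mul_I,
        mul_one, Complex.norm_real, Real.norm_eq_abs, abs_of_pos (lt_of_le_of_lt hR hs')] at hz
      exact absurd hs' (not_lt.2 hz)
  rw [h2]
  refine h1.isPreconnected.image _ (Continuous.continuousOn ?_)
  exact continuous_const.add ((Complex.continuous_ofReal.comp continuous_fst).mul
    (Complex.continuous_exp.comp ((Complex.continuous_ofReal.comp continuous_snd).mul
      continuous_const)))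

/-- components of open sets are relatively closed -/
private theorem comp_cl {F : Set ℂ} (hF : IsOpen F) {x z : ℂ} (hz : z ∈ F)
    (h : z ∈ closure (connectedComponentIn F x)) : z ∈ connectedComponentIn F x := by
  obtain ⟨y, hy1, hy2⟩ := mem_closure_iff.1 h _ hF.connectedComponentIn (mem_connectedComponentIn hz)
  rw [connectedComponentIn_eq hy2, ← connectedComponentIn_eq hy1]
  exact mem_connectedComponentIn hz

private theorem big_pt (a b : ℝ) (c : ℂ) : ∃ p : ℂ, p ∉ closedBall (0 : ℂ) a ∧ p ∉ closedBall c b := by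
  obtain ⟨t, ht⟩ : ∃ t : ℝ, t = |a| + |b| + ‖c‖ + 1 := ⟨_, rfl⟩
  have ha := le_abs_self a
  have hb := le_abs_self b
  have ha0 := abs_nonneg a
  have hb0 := abs_nonneg b
  have hc0 := norm_nonneg c
  have ht0 : 0 < t := by linarith
  have hn : ‖(t : ℂ)‖ = t := by rw [Complex.norm_real, Real.norm_eq_abs, abs_of_pos ht0]
  refine ⟨(t : ℂ), ?_, ?_⟩
  · rw [mem_closedBall, dist_zero_right, hn]
    linarith
  · rw [mem_closedBall, dist_eq_norm]
    have h1 := norm_sub_norm_le (t : ℂ) c
    rw [hn] at h1
    linarith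

theorem fillx {K : Set ℂ} (hK : IsCompact K) {x : ℂ} (hx : x ∈ interior K) : ∃ V : Set ℂ, IsOpen V ∧ IsPreconnected V ∧
    x ∈ V ∧ IsPreconnected Vᶜ ∧ frontier V ⊆ frontier K ∧ ∀ (c : ℂ) (R : ℝ), K ⊆ closedBall c R → V ⊆ closedBall c R := by
  have hxK : x ∈ K := interior_subset hx
  have hKo : IsOpen Kᶜ := hK.isClosed.isOpen_compl
  obtain ⟨R1, hR1⟩ := hK.isBounded.subset_closedBall (0 : ℂ)
  obtain ⟨R0, hR0⟩ : ∃ R0, R0 = max R1 0 := ⟨_, rfl⟩
  have hKR : K ⊆ closedBall 0 R0 := hR1.trans (closedBall_subset_closedBall (hR0 ▸ le_max_left _ _))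
  have hR00 : 0 ≤ R0 := hR0 ▸ le_max_right _ _
  obtain ⟨z0, hz0, -⟩ := big_pt R0 0 0
  have hOK : (closedBall (0 : ℂ) R0)ᶜ ⊆ Kᶜ := compl_subset_compl.2 hKR
  obtain ⟨W, hW⟩ : ∃ W, W = connectedComponentIn Kᶜ z0 := ⟨_, rfl⟩
  have hOW : (closedBall (0 : ℂ) R0)ᶜ ⊆ W := by
    rw [hW]
    exact (out_con 0 R0 hR00).subset_connectedComponentIn hz0 hOK
  have hWo : IsOpen W := by
    rw [hW]
    exact hKo.connectedComponentIn
  have hWK : W ⊆ Kᶜ := by
    rw [hW]
    exact connectedComponentIn_subset _ _
  have hWc : IsPreconnected W := by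
    rw [hW]
    exact isPreconnected_connectedComponentIn
  obtain ⟨E, hE⟩ : ∃ E, E = closure W := ⟨_, rfl⟩
  have hEc : IsClosed E := by
    rw [hE]
    exact isClosed_closure
  have hEp : IsPreconnected E := by
    rw [hE]
    exact hWc.closure
  have hWE : W ⊆ E := by
    rw [hE]
    exact subset_closure
  have hz0E : z0 ∈ E := hWE (hOW hz0)
  have hEo : IsOpen Eᶜ := hEc.isOpen_compl
  have hint : ∀ z ∈ E, z ∉ interior K := by
    intro z hz hzi
    rw [hE] at hz
    obtain ⟨y, hy1, hy2⟩ := mem_closure_iff.1 hz _ isOpen_interior hzi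
    exact hWK hy2 (interior_subset hy1)
  have hxE : x ∈ Eᶜ := fun h => hint x h hx
  obtain ⟨V, hV⟩ : ∃ V, V = connectedComponentIn Eᶜ x := ⟨_, rfl⟩
  have hVo : IsOpen V := by
    rw [hV]
    exact hEo.connectedComponentIn
  have hVE : V ⊆ Eᶜ := by
    rw [hV]
    exact connectedComponentIn_subset _ _
  have hVW : ∀ z ∈ V, z ∉ W := fun z hz h => hVE hz (hWE h)
  refine ⟨V, hVo, ?_, ?_, ?_, ?_, ?_⟩
  · rw [hV]
    exact isPreconnected_connectedComponentIn
  · rw [hV]
    exact mem_connectedComponentIn hxE
  · refine isPreconnected_of_forall z0 fun z hz => ?_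
    by_cases hzE : z ∈ E
    · exact ⟨E, fun y hy h => hVE h hy, hz0E, hzE, hEp⟩
    · obtain ⟨V', hV'⟩ : ∃ V', V' = connectedComponentIn Eᶜ z := ⟨_, rfl⟩
      have hV'o : IsOpen V' := by
        rw [hV']
        exact hEo.connectedComponentIn
      have hV'E : V' ⊆ Eᶜ := by
        rw [hV']
        exact connectedComponentIn_subset _ _
      have hzV' : z ∈ V' := by
        rw [hV']
        exact mem_connectedComponentIn hzE
      have hV'p : IsPreconnected V' := by
        rw [hV']
        exact isPreconnected_connectedComponentIn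
      have hdis : ∀ y ∈ V', y ∉ V := by
        intro y hy hyV
        apply hz
        rw [hV] at hyV ⊢
        rw [hV'] at hy
        rw [connectedComponentIn_eq hyV, ← connectedComponentIn_eq hy]
        exact mem_connectedComponentIn hzE
      have hclV : ∀ y ∈ closure V', y ∉ V := by
        intro y hy hyV
        obtain ⟨s, hs1, hs2⟩ := mem_closure_iff.1 hy _ hVo hyV
        exact hdis s hs2 hs1
      have hmeet : ∃ y ∈ closure V', y ∈ E := by
        by_contra hcon
        push Not at hcon
        have h1 : closure V' ⊆ V' := by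
          intro y hy
          have h2 : y ∈ Eᶜ := hcon y hy
          rw [hV'] at hy ⊢
          exact comp_cl hEo h2 hy
        have h2 : IsClopen V' := ⟨closure_eq_iff_isClosed.1 (Subset.antisymm h1 subset_closure), hV'o⟩
        have h3 : V' = univ := h2.eq_univ ⟨z, hzV'⟩
        have h4 : z0 ∈ V' := by
          rw [h3]
          exact mem_univ _
        exact hV'E h4 hz0E
      obtain ⟨y, hy1, hy2⟩ := hmeet
      refine ⟨E ∪ closure V', ?_, Or.inl hz0E, Or.inr (subset_closure hzV'),
        IsPreconnected.union y hy2 hy1 hEp hV'p.closure⟩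
      rintro s (hs | hs)
      · exact fun h => hVE h hs
      · exact hclV s hs
  · intro z hz
    rw [frontier, hVo.interior_eq] at hz
    have hzE : z ∈ E := by
      by_contra h
      apply hz.2
      have h1 := hz.1
      rw [hV] at h1 ⊢
      exact comp_cl hEo h h1
    have hzK : z ∈ K := by
      by_contra h
      have h1 : z ∈ W := by
        rw [hE] at hzE
        rw [hW] at hzE ⊢
        exact comp_cl hKo h hzE
      obtain ⟨y, hy1, hy2⟩ := mem_closure_iff.1 hz.1 _ hWo h1
      exact hVW y hy2 hy1
    rw [hK.isClosed.frontier_eq]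
    exact ⟨hzK, hint z hzE⟩
  · intro c R hKc z hz
    by_contra hzc
    have hR : 0 ≤ R := by
      have h1 := hKc hxK
      rw [mem_closedBall] at h1
      exact dist_nonneg.trans h1
    obtain ⟨q, hq1, hq2⟩ := big_pt R0 R c
    have h2 : (closedBall c R)ᶜ ⊆ connectedComponentIn Kᶜ q :=
      (out_con c R hR).subset_connectedComponentIn hq2 (compl_subset_compl.2 hKc)
    have h3 : q ∈ connectedComponentIn Kᶜ z0 := by
      rw [← hW]
      exact hOW hq1
    have h4 : z ∈ W := by
      rw [hW, connectedComponentIn_eq h3]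
      exact h2 hzc
    exact hVW z hz h4

end Pool.Agent.H27.BR
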