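import Pool.Agent.H27.BR.UDT

/-!
# THEOREM UD, chapter BR: transfer of uniform disconnectedness, general form (also for Julia set = sphere)

`udm_gen`: `φ` is bi-Lipschitz for the chordal metric, `P` is a bounded planar set, `z ∈ P` iff `φ⁻¹ z ∈ Q`.
`uds_ne`: a uniformly disconnected subset of the sphere is not the sphere.
-/

set_option autoImplicit false

open Filter Topology Polynomial Metric Set MeasureTheory

namespace Pool.Agent.H27.BR

open Pool.Agent.H35.EX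
open Pool.Agent.H56.UD (UG)

theorem udm_gen {φ : OnePoint ℂ ≃ₜ OnePoint ℂ} {K : ℝ} (hK : 0 < K)
    (bil : ∀ x y, chord (φ x) (φ y) ≤ K * chord x y ∧ chord x y ≤ K * chord (φ x) (φ y)) {P : Set ℂ} {Q : Set (OnePoint ℂ)}
    (hPQ : ∀ z : ℂ, z ∈ P ↔ φ.symm (z : OnePoint ℂ) ∈ Q) {R : ℝ} (hR : ∀ z ∈ P, ‖z‖ ≤ R) (hU : UDs Q) :
    ∃ C : ℝ, ∀ r0 : ℝ, UDm C r0 P := by
  obtain ⟨C, hC, hU⟩ := hU
  have hB : 0 < 1 + R ^ 2 := by positivity
  refine ⟨C * K ^ 2 * (1 + R ^ 2), fun r0 x hx r hr _ => ?_⟩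
  obtain ⟨A, hAP, hxA, hA1, hA2⟩ := hU _ ((hPQ x).1 hx) (r / (K * (1 + R ^ 2))) (by positivity)
  refine ⟨{z | z ∈ P ∧ φ.symm (z : OnePoint ℂ) ∈ A}, fun z hz => hz.1, ⟨hx, hxA⟩, ?_, ?_⟩
  · rintro z ⟨hz, hzA⟩
    have h1 := hA1 _ hzA
    have h2 : chord (x : OnePoint ℂ) (z : OnePoint ℂ) ≤ K * chord (φ.symm (x : OnePoint ℂ)) (φ.symm (z : OnePoint ℂ)) := by
      have h3 := (bil (φ.symm (x : OnePoint ℂ)) (φ.symm (z : OnePoint ℂ))).1
      rwa [φ.apply_symm_apply, φ.apply_symm_apply] at h3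
    have h3 := chord_cmp (hR x hx) (hR z hz)
    rw [norm_sub_rev]
    refine h3.trans_lt ?_
    have h4 : (1 + R ^ 2) * chord (x : OnePoint ℂ) (z : OnePoint ℂ) ≤
        (1 + R ^ 2) * (K * chord (φ.symm (x : OnePoint ℂ)) (φ.symm (z : OnePoint ℂ))) :=
      mul_le_mul_of_nonneg_left h2 hB.le
    refine h4.trans_lt ?_
    rw [lt_div_iff₀ (by positivity)] at h1
    calc (1 + R ^ 2) * (K * chord (φ.symm (x : OnePoint ℂ)) (φ.symm (z : OnePoint ℂ))) =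
        chord (φ.symm (x : OnePoint ℂ)) (φ.symm (z : OnePoint ℂ)) * (K * (1 + R ^ 2)) := by ring
      _ < r := h1
  · rintro a ⟨ha, haA⟩ p hp hpA
    have h1 := hA2 _ haA _ ((hPQ p).1 hp) (fun h0 => hpA ⟨hp, h0⟩)
    have h2 : chord (φ.symm (a : OnePoint ℂ)) (φ.symm (p : OnePoint ℂ)) ≤ K * chord (a : OnePoint ℂ) (p : OnePoint ℂ) := by
      have h3 := (bil (φ.symm (a : OnePoint ℂ)) (φ.symm (p : OnePoint ℂ))).2
      rwa [φ.apply_symm_apply, φ.apply_symm_apply] at h3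
    have h3 : chord (a : OnePoint ℂ) (p : OnePoint ℂ) ≤ ‖a - p‖ := Pool.Agent.H57.CF.upf_le a p
    rw [div_le_iff₀ (by positivity)] at h1
    have h4 : chord (φ.symm (a : OnePoint ℂ)) (φ.symm (p : OnePoint ℂ)) ≤ K * ‖a - p‖ :=
      h2.trans (mul_le_mul_of_nonneg_left h3 hK.le)
    calc r ≤ C * chord (φ.symm (a : OnePoint ℂ)) (φ.symm (p : OnePoint ℂ)) * (K * (1 + R ^ 2)) := h1
      _ ≤ C * (K * ‖a - p‖) * (K * (1 + R ^ 2)) := by gcongr
      _ = C * K ^ 2 * (1 + R ^ 2) * ‖a - p‖ := by ring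

theorem uds_ne {P : Set (OnePoint ℂ)} (hU : UDs P) : P ≠ univ := by
  rintro rfl
  obtain ⟨C, hC, hU⟩ := hU
  obtain ⟨A, -, hxA, hA1, hA2⟩ := hU OnePoint.infty (mem_univ _) (1 / 2) (by norm_num)
  have hr : 0 < 1 / 2 / C := by positivity
  have hstep : ∀ a ∈ A, ∀ p, chord a p < 1 / 2 / C → p ∈ A := by
    intro a ha p hp
    by_contra hpA
    have h1 := hA2 a ha p (mem_univ _) hpA
    rw [lt_div_iff₀ hC] at hp
    linarith [mul_comm C (chord a p)]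
  have hop : IsOpen A := by
    rw [isOpen_iff_mem_nhds]
    intro a ha
    filter_upwards [Pool.Agent.H47.RJ.ch_ball a hr] with p hp
    exact hstep a ha p hp
  have hcl : IsClosed A := by
    rw [← isOpen_compl_iff, isOpen_iff_mem_nhds]
    intro p hp
    filter_upwards [Pool.Agent.H47.RJ.ch_ball p hr] with a ha
    intro haA
    refine hp (hstep a haA p ?_)
    rw [Pool.Agent.H44.RC.ch_comm]
    exact ha
  have hA : A = univ := IsClopen.eq_univ ⟨hcl, hop⟩ ⟨_, hxA⟩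
  have h1 := hA1 ((0 : ℂ) : OnePoint ℂ) (by rw [hA]; exact mem_univ _)
  have h2 : chord OnePoint.infty ((0 : ℂ) : OnePoint ℂ) = 1 := by
    show 1 / √(1 + ‖(0 : ℂ)‖ ^ 2) = 1
    simp
  rw [h2] at h1
  norm_num at h1

end Pool.Agent.H27.BR
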